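import Mathlib

set_option autoImplicit false

open Finset

namespace Pool.Agent.MP_74e98a_nt.H25

/-- The divisor bound. -/
theorem divisor_bound (ε : ℝ) (hε : 0 < ε) :
    ∃ C : ℝ, 1 ≤ C ∧ ∀ n : ℕ, (n.divisors.card : ℝ) ≤ C * (n : ℝ) ^ ε := by
  set D : ℝ := max 1 (1 / (ε * Real.log 2)) with hD
  have hD1 : 1 ≤ D := le_max_left _ _
  have hl : 0 < ε * Real.log 2 := mul_pos hε (Real.log_pos (by norm_num))
  set P : ℕ := ⌈(2 : ℝ) ^ (1 / ε)⌉₊ with hP
  refine ⟨D ^ P, one_le_pow₀ hD1, fun n => ?_⟩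
  rcases Nat.eq_zero_or_pos n with rfl | hn
  · simp only [Nat.divisors_zero, card_empty, Nat.cast_zero]
    positivity
  have key : ∀ p ∈ n.primeFactors, ((n.factorization p + 1 : ℕ) : ℝ) ≤
      (if p < P then D else 1) * ((p : ℝ) ^ n.factorization p) ^ ε := by
    intro p hp
    have hp2 : (2 : ℝ) ≤ p := by exact_mod_cast (Nat.prime_of_mem_primeFactors hp).two_le
    generalize n.factorization p = a
    rw [← Real.rpow_natCast, ← Real.rpow_mul (by linarith), mul_comm (a : ℝ) ε,
      Real.rpow_mul (by linarith), Real.rpow_natCast]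
    split_ifs with h
    · have h1 : (2 : ℝ) ^ ε ≤ (p : ℝ) ^ ε := Real.rpow_le_rpow (by norm_num) hp2 hε.le
      have h2 : ((2 : ℝ) ^ ε) ^ a ≤ ((p : ℝ) ^ ε) ^ a := pow_le_pow_left₀ (by positivity) h1 _
      have h3 : 1 + a * (ε * Real.log 2) ≤ ((2 : ℝ) ^ ε) ^ a := by
        rw [Real.rpow_def_of_pos (by norm_num), ← Real.exp_nat_mul]
        have := Real.add_one_le_exp (a * (Real.log 2 * ε))
        nlinarith
      have h4 : 1 ≤ D * (ε * Real.log 2) := by
        have : 1 / (ε * Real.log 2) ≤ D := le_max_right _ _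
        rwa [div_le_iff₀ hl] at this
      have h5 : (0 : ℝ) ≤ a := Nat.cast_nonneg a
      push_cast
      nlinarith
    · have h1 : (2 : ℝ) ^ (1 / ε) ≤ p :=
        (Nat.le_ceil _).trans (by exact_mod_cast not_lt.1 h)
      have h2 : (2 : ℝ) ≤ (p : ℝ) ^ ε := by
        have := Real.rpow_le_rpow (by positivity) h1 hε.le
        rwa [← Real.rpow_mul (by norm_num), one_div, inv_mul_cancel₀ hε.ne', Real.rpow_one] at this
      have h3 : ((a + 1 : ℕ) : ℝ) ≤ 2 ^ a := by exact_mod_cast Nat.lt_two_pow_self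
      rw [one_mul]
      exact h3.trans (pow_le_pow_left₀ (by norm_num) h2 _)
  rw [Nat.card_divisors hn.ne', Nat.cast_prod]
  refine (Finset.prod_le_prod (fun p _ => by positivity) key).trans ?_
  rw [Finset.prod_mul_distrib, Real.finsetProd_rpow _ _ (fun p _ => by positivity)]
  have h1 : ∏ p ∈ n.primeFactors, (p : ℝ) ^ n.factorization p = n := by
    conv_rhs => rw [← Nat.prod_factorization_pow_eq_self hn.ne']
    rw [Finsupp.prod, Nat.support_factorization]
    push_cast
    rfl
  rw [h1]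
  refine mul_le_mul_of_nonneg_right ?_ (by positivity)
  rw [Finset.prod_ite, Finset.prod_const_one, mul_one, Finset.prod_const]
  apply pow_le_pow_right₀ hD1
  calc _ ≤ (range P).card := card_le_card fun p hp => mem_range.2 (mem_filter.1 hp).2
    _ = P := card_range P

end Pool.Agent.MP_74e98a_nt.H25
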