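import Mathlib

set_option autoImplicit false

open Finset

namespace Pool.Agent.MP_74e98a_nt.H25

/-- The family of sublattices. -/
def Gam (m : ℕ) : Finset (ℕ × ℕ) :=
  ((Ioc (4 * m ^ 2) (16 * m ^ 2)).filter Nat.Prime) ×ˢ Ico m (2 * m)

/-- Membership in a sublattice. -/
abbrev InL (γ : ℕ × ℕ) (v : ℤ × ℤ) : Prop := (γ.1 : ℤ) ∣ (γ.2 + 1) * v.1 + γ.2 * v.2

/-- The indicator function of a sublattice. -/
noncomputable def chi (γ : ℕ × ℕ) (v : ℤ × ℤ) : ℝ := if InL γ v then 1 else 0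

/-- The mean number of sublattices through a point. -/
noncomputable def nubar (m : ℕ) : ℝ := ∑ γ ∈ Gam m, 1 / (γ.1 : ℝ)

/-- The square of integer points. -/
noncomputable def box (N : ℕ) : Finset (ℤ × ℤ) := Ioc (0 : ℤ) N ×ˢ Ioc (0 : ℤ) N

theorem mem_Gam {m : ℕ} {γ : ℕ × ℕ} : γ ∈ Gam m ↔
    (4 * m ^ 2 < γ.1 ∧ γ.1 ≤ 16 * m ^ 2) ∧ γ.1.Prime ∧ m ≤ γ.2 ∧ γ.2 < 2 * m := by
  simp [Gam, and_assoc]

theorem Gam_facts {m : ℕ} {γ : ℕ × ℕ} (h : γ ∈ Gam m) :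
    1 ≤ m ∧ 1 ≤ γ.2 ∧ 2 * m < γ.1 ∧ γ.2 ^ 2 < γ.1 ∧ Nat.Coprime γ.1 γ.2 := by
  obtain ⟨⟨h1, -⟩, h3, h4, h5⟩ := mem_Gam.1 h
  have a1 : 1 ≤ m := by omega
  have a2 : 2 * m < γ.1 := by nlinarith
  refine ⟨a1, by omega, a2, by nlinarith, ?_⟩
  exact (Nat.Prime.coprime_iff_not_dvd h3).2 fun hd => by
    have := Nat.le_of_dvd (by omega) hd
    omega

theorem cnt_class (N q : ℕ) (hq : 0 < q) (v : ℤ) :
    (N : ℝ) / q - 1 ≤ ((Ioc (0 : ℤ) N).filter fun c => c ≡ v [ZMOD q]).card ∧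
      (((Ioc (0 : ℤ) N).filter fun c => c ≡ v [ZMOD q]).card : ℝ) ≤ N / q + 1 := by
  have h := Int.Ioc_filter_modEq_card 0 N (r := q) (by exact_mod_cast hq) v
  have hq' : (0 : ℚ) < q := by exact_mod_cast hq
  set x : ℚ := (((N : ℤ) : ℚ) - v) / ((q : ℤ) : ℚ) with hx
  set y : ℚ := (((0 : ℤ) : ℚ) - v) / ((q : ℤ) : ℚ) with hy
  have hxy : x = y + N / q := by simp only [hx, hy]; push_cast; field_simp; ring
  have a1 := Int.floor_le x
  have a2 := Int.lt_floor_add_one x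
  have a3 := Int.floor_le y
  have a4 := Int.lt_floor_add_one y
  have a5 : (0 : ℚ) ≤ N / q := by positivity
  have h2 : ((((Ioc (0 : ℤ) N).filter fun c => c ≡ v [ZMOD q]).card : ℤ) : ℚ) =
      max ((⌊x⌋ : ℚ) - ⌊y⌋) 0 := by rw [h]; push_cast; rfl
  have b1 : (N : ℚ) / q - 1 ≤ (((Ioc (0 : ℤ) N).filter fun c => c ≡ v [ZMOD q]).card : ℚ) := by
    push_cast at h2
    rw [h2]
    exact le_max_of_le_left (by linarith)
  have b2 : (((Ioc (0 : ℤ) N).filter fun c => c ≡ v [ZMOD q]).card : ℚ) ≤ N / q + 1 := by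
    push_cast at h2
    rw [h2]
    exact max_le (by linarith) (by linarith)
  constructor
  · have := (Rat.cast_le (K := ℝ)).2 b1
    push_cast at this
    exact this
  · have := (Rat.cast_le (K := ℝ)).2 b2
    push_cast at this
    exact this

theorem dvd_of_InL {γ : ℕ × ℕ} (h : Nat.Coprime γ.1 γ.2) {b c c' : ℤ} (h1 : InL γ (b, c))
    (h2 : InL γ (b, c')) : (γ.1 : ℤ) ∣ c' - c := by
  have h3 : (γ.1 : ℤ) ∣ γ.2 * (c' - c) := by
    have := Int.dvd_sub h2 h1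
    simp only at this
    convert this using 1
    ring
  exact (Nat.isCoprime_iff_coprime.2 h).dvd_of_dvd_mul_left h3

theorem exists_InL {γ : ℕ × ℕ} (h : Nat.Coprime γ.1 γ.2) (b : ℤ) : ∃ c, InL γ (b, c) := by
  obtain ⟨u, w, huw⟩ := Nat.isCoprime_iff_coprime.2 h
  refine ⟨-w * ((γ.2 + 1) * b), u * ((γ.2 + 1) * b), ?_⟩
  simp only
  linear_combination -((γ.2 + 1) * b) * huw

theorem sum_chi {γ : ℕ × ℕ} (h : Nat.Coprime γ.1 γ.2) (hp : 0 < γ.1) (N : ℕ) :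
    N * ((N : ℝ) / γ.1 - 1) ≤ ∑ v ∈ box N, chi γ v ∧
      ∑ v ∈ box N, chi γ v ≤ N * ((N : ℝ) / γ.1 + 1) := by
  have h1 : ∀ b : ℤ, (N : ℝ) / γ.1 - 1 ≤ ∑ c ∈ Ioc (0 : ℤ) N, chi γ (b, c) ∧
      ∑ c ∈ Ioc (0 : ℤ) N, chi γ (b, c) ≤ (N : ℝ) / γ.1 + 1 := by
    intro b
    obtain ⟨c0, hc0⟩ := exists_InL h b
    have h2 : ∑ c ∈ Ioc (0 : ℤ) N, chi γ (b, c) =
        ((Ioc (0 : ℤ) N).filter fun c => c ≡ c0 [ZMOD γ.1]).card := by
      simp only [chi, Finset.sum_boole]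
      congr 2
      ext c
      simp only [mem_filter, and_congr_right_iff]
      intro _
      rw [Int.modEq_iff_dvd]
      refine ⟨fun h3 => dvd_of_InL h h3 hc0, fun h3 => ?_⟩
      have := Int.dvd_sub hc0 (Dvd.dvd.mul_left h3 γ.2)
      simp only [InL] at this ⊢
      convert this using 1
      ring
    rw [h2]
    exact cnt_class N γ.1 hp c0
  rw [box, Finset.sum_product]
  have hc : ((Ioc (0 : ℤ) N).card : ℝ) = N := by simp
  constructor
  · have := Finset.card_nsmul_le_sum (Ioc (0 : ℤ) N) _ _ fun b _ => (h1 b).1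
    rwa [nsmul_eq_mul, hc] at this
  · have := Finset.sum_le_card_nsmul (Ioc (0 : ℤ) N) _ _ fun b _ => (h1 b).2
    rwa [nsmul_eq_mul, hc] at this

theorem sum_chi_chi {m : ℕ} {γ γ' : ℕ × ℕ} (h : γ ∈ Gam m) (h' : γ' ∈ Gam m) (hne : γ ≠ γ')
    (N : ℕ) : ∑ v ∈ box N, chi γ v * chi γ' v ≤ (N : ℝ) ^ 2 / (γ.1 * γ'.1) + N := by
  obtain ⟨-, -, a1, -, a2⟩ := Gam_facts h
  obtain ⟨-, -, -, -, a3⟩ := Gam_facts h'
  obtain ⟨-, b1, b2, b3⟩ := mem_Gam.1 h
  obtain ⟨-, c1, c2, c3⟩ := mem_Gam.1 h'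
  have hc : ((Ioc (0 : ℤ) N).card : ℝ) = N := by simp
  have hmul : ∀ v, chi γ v * chi γ' v = if InL γ v ∧ InL γ' v then 1 else 0 := by
    intro v
    unfold chi
    by_cases e1 : InL γ v <;> by_cases e2 : InL γ' v <;> simp [e1, e2]
  simp only [hmul]
  by_cases hp : γ.1 = γ'.1
  · have hn : γ.2 ≠ γ'.2 := fun e => hne (Prod.ext hp e)
    have hpi : Prime (γ.1 : ℤ) := Nat.prime_iff_prime_int.1 b1
    rw [Finset.sum_boole]
    have h1 : (box N).filter (fun v => InL γ v ∧ InL γ' v) ⊆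
        ((Ioc (0 : ℤ) N).filter fun c => (γ.1 : ℤ) ∣ c) ×ˢ
          ((Ioc (0 : ℤ) N).filter fun c => (γ.1 : ℤ) ∣ c) := by
      intro v hv
      simp only [box, mem_filter, mem_product, InL, ← hp] at hv ⊢
      obtain ⟨⟨d1, d2⟩, d3, d4⟩ := hv
      have d5 : (γ.1 : ℤ) ∣ ((γ.2 : ℤ) - γ'.2) * (v.1 + v.2) := by
        convert Int.dvd_sub d3 d4 using 1
        ring
      have d6 : (γ.1 : ℤ) ∣ v.1 + v.2 := by
        rcases hpi.dvd_or_dvd d5 with d | d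
        · exfalso
          have := Int.le_of_dvd (abs_pos.2 (by omega : (γ.2 : ℤ) - γ'.2 ≠ 0)) ((dvd_abs _ _).2 d)
          rw [le_abs] at this
          omega
        · exact d
      have d7 : (γ.1 : ℤ) ∣ v.1 := by
        convert Int.dvd_sub d3 (Dvd.dvd.mul_left d6 γ.2) using 1
        ring
      refine ⟨⟨d1, d7⟩, d2, ?_⟩
      convert Int.dvd_sub d6 d7 using 1
      ring
    have h2 : (((Ioc (0 : ℤ) N).filter fun c => (γ.1 : ℤ) ∣ c).card : ℝ) ≤ N / γ.1 := by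
      have h3 := Int.Ioc_filter_dvd_card 0 N (r := γ.1) (by exact_mod_cast b1.pos)
      have h4 : ((((Ioc (0 : ℤ) N).filter fun c => (γ.1 : ℤ) ∣ c).card : ℤ) : ℚ) ≤ N / γ.1 := by
        rw [h3]
        push_cast
        refine max_le ?_ (by positivity)
        simpa using Int.floor_le ((N : ℚ) / γ.1)
      have := (Rat.cast_le (K := ℝ)).2 h4
      push_cast at this
      exact this
    have h3 := card_le_card h1
    rw [card_product] at h3
    have h4 : (((box N).filter (fun v => InL γ v ∧ InL γ' v)).card : ℝ) ≤ (N / γ.1) * (N / γ.1) :=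
      le_trans (by exact_mod_cast h3) (mul_le_mul h2 h2 (by positivity) (by positivity))
    have h5 : (N : ℝ) / γ.1 * (N / γ.1) = N ^ 2 / (γ.1 * γ'.1) := by rw [← hp]; ring
    have h6 : (0 : ℝ) ≤ N := by positivity
    linarith
  · have hcop : Nat.Coprime γ.1 γ'.1 := (Nat.coprime_primes b1 c1).2 hp
    have h1 : ∀ b : ℤ, (∑ c ∈ Ioc (0 : ℤ) N, if InL γ (b, c) ∧ InL γ' (b, c) then (1 : ℝ) else 0)
        ≤ (N : ℝ) / (γ.1 * γ'.1) + 1 := by
      intro b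
      rw [Finset.sum_boole]
      rcases ((Ioc (0 : ℤ) N).filter fun c => InL γ (b, c) ∧ InL γ' (b, c)).eq_empty_or_nonempty
        with e | ⟨c0, hc0⟩
      · rw [e, card_empty, Nat.cast_zero]
        positivity
      have d := (mem_filter.1 hc0).2
      have h2 := (cnt_class N (γ.1 * γ'.1) (Nat.mul_pos b1.pos c1.pos) c0).2
      push_cast at h2
      refine le_trans (Nat.cast_le.2 (card_le_card fun c hc => ?_)) h2
      rw [mem_filter] at hc ⊢
      refine ⟨hc.1, Int.modEq_iff_dvd.2 ?_⟩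
      exact (Nat.isCoprime_iff_coprime.2 hcop).mul_dvd (dvd_of_InL a2 hc.2.1 d.1)
        (dvd_of_InL a3 hc.2.2 d.2)
    rw [box, Finset.sum_product]
    have := Finset.sum_le_card_nsmul (Ioc (0 : ℤ) N) _ _ fun b _ => h1 b
    rw [nsmul_eq_mul, hc] at this
    refine this.trans (le_of_eq ?_)
    ring

theorem pair_bound {m : ℕ} {γ γ' : ℕ × ℕ} (h : γ ∈ Gam m) (h' : γ' ∈ Gam m) (N : ℕ) :
    ∑ v ∈ box N, (chi γ v - 1 / γ.1) * (chi γ' v - 1 / γ'.1) ≤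
      (if γ = γ' then (N : ℝ) ^ 2 / γ.1 else 0) + 3 * N := by
  have p1 : 0 < γ.1 := (mem_Gam.1 h).2.1.pos
  have p2 : 0 < γ'.1 := (mem_Gam.1 h').2.1.pos
  have q1 : (1 : ℝ) ≤ γ.1 := by exact_mod_cast p1
  have q2 : (1 : ℝ) ≤ γ'.1 := by exact_mod_cast p2
  have s1 := sum_chi (Gam_facts h).2.2.2.2 p1 N
  have s2 := sum_chi (Gam_facts h').2.2.2.2 p2 N
  have hN : (0 : ℝ) ≤ N := by positivity
  have e : ∑ v ∈ box N, (chi γ v - 1 / γ.1) * (chi γ' v - 1 / γ'.1) =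
      ∑ v ∈ box N, chi γ v * chi γ' v - 1 / γ'.1 * ∑ v ∈ box N, chi γ v
        - 1 / γ.1 * ∑ v ∈ box N, chi γ' v + N ^ 2 / (γ.1 * γ'.1) := by
    have hc : (N : ℝ) ^ 2 / (γ.1 * γ'.1) = ∑ _v ∈ box N, 1 / (γ.1 : ℝ) * (1 / γ'.1) := by
      rw [Finset.sum_const, nsmul_eq_mul, box, card_product]
      simp only [Int.card_Ioc, sub_zero, Int.toNat_natCast]
      push_cast
      ring
    rw [hc, Finset.mul_sum, Finset.mul_sum, ← Finset.sum_sub_distrib, ← Finset.sum_sub_distrib,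
      ← Finset.sum_add_distrib]
    refine Finset.sum_congr rfl fun v _ => ?_
    ring
  have t1 : (N : ℝ) ^ 2 / (γ.1 * γ'.1) - N ≤ 1 / γ'.1 * ∑ v ∈ box N, chi γ v := by
    refine le_trans ?_ (mul_le_mul_of_nonneg_left s1.1 (by positivity))
    have : (N : ℝ) / γ'.1 ≤ N := div_le_self hN q2
    have e2 : 1 / (γ'.1 : ℝ) * (N * (N / γ.1 - 1)) = N ^ 2 / (γ.1 * γ'.1) - N / γ'.1 := by ring
    linarith
  have t2 : (N : ℝ) ^ 2 / (γ.1 * γ'.1) - N ≤ 1 / γ.1 * ∑ v ∈ box N, chi γ' v := by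
    refine le_trans ?_ (mul_le_mul_of_nonneg_left s2.1 (by positivity))
    have : (N : ℝ) / γ.1 ≤ N := div_le_self hN q1
    have e2 : 1 / (γ.1 : ℝ) * (N * (N / γ'.1 - 1)) = N ^ 2 / (γ.1 * γ'.1) - N / γ.1 := by ring
    linarith
  rw [e]
  split_ifs with hne
  · subst hne
    have e3 : ∑ v ∈ box N, chi γ v * chi γ v = ∑ v ∈ box N, chi γ v :=
      Finset.sum_congr rfl fun v _ => by unfold chi; split_ifs <;> simp
    have e4 : (N : ℝ) * (N / γ.1 + 1) = N ^ 2 / γ.1 + N := by ring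
    have e5 : (0 : ℝ) ≤ N ^ 2 / (γ.1 * γ.1) := by positivity
    linarith [s1.2]
  · linarith [sum_chi_chi h h' hne N]

theorem variance (m N : ℕ) :
    ∑ v ∈ box N, (∑ γ ∈ Gam m, chi γ v - nubar m) ^ 2 ≤
      (N : ℝ) ^ 2 * nubar m + 3 * N * (Gam m).card ^ 2 := by
  have e : ∀ v, (∑ γ ∈ Gam m, chi γ v - nubar m) ^ 2 =
      ∑ γ ∈ Gam m, ∑ γ' ∈ Gam m, (chi γ v - 1 / γ.1) * (chi γ' v - 1 / γ'.1) := by
    intro v
    rw [nubar, ← Finset.sum_sub_distrib, sq, Finset.sum_mul_sum]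
  simp only [e]
  rw [Finset.sum_comm]
  have h1 : ∀ γ ∈ Gam m, ∑ v ∈ box N, ∑ γ' ∈ Gam m, (chi γ v - 1 / γ.1) * (chi γ' v - 1 / γ'.1) ≤
      (N : ℝ) ^ 2 * (1 / γ.1) + 3 * N * (Gam m).card := by
    intro γ hγ
    rw [Finset.sum_comm]
    refine (Finset.sum_le_sum fun γ' h' => pair_bound hγ h' N).trans (le_of_eq ?_)
    rw [Finset.sum_add_distrib, Finset.sum_ite_eq, if_pos hγ, Finset.sum_const, nsmul_eq_mul]
    ring
  refine (Finset.sum_le_sum h1).trans (le_of_eq ?_)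
  rw [Finset.sum_add_distrib, ← Finset.mul_sum, Finset.sum_const, nsmul_eq_mul, nubar]
  ring

theorem card_Gam_le (m : ℕ) : ((Gam m).card : ℝ) ≤ 16 * m ^ 3 := by
  have h : (Gam m).card ≤ 16 * m ^ 2 * m := by
    rw [Gam, card_product, Nat.card_Ico]
    refine Nat.mul_le_mul ((card_filter_le _ _).trans ?_) (by omega)
    rw [Nat.card_Ioc]
    omega
  have : ((Gam m).card : ℝ) ≤ 16 * m ^ 2 * m := by exact_mod_cast h
  linarith [show (16 : ℝ) * m ^ 2 * m = 16 * m ^ 3 by ring]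

theorem card_Gam_le_nubar (m : ℕ) : ((Gam m).card : ℝ) ≤ 16 * m ^ 2 * nubar m := by
  rw [nubar, Finset.mul_sum, card_eq_sum_ones]
  push_cast
  refine Finset.sum_le_sum fun γ hγ => ?_
  obtain ⟨⟨-, h1⟩, h2, -⟩ := mem_Gam.1 hγ
  have h3 : (0 : ℝ) < γ.1 := by exact_mod_cast h2.pos
  rw [mul_one_div, le_div_iff₀ h3, one_mul]
  exact_mod_cast h1

theorem nubar_ge (m : ℕ) (hm : 41 ^ 4 ≤ m) : √m ≤ nubar m := by
  set Pm := (Ioc (4 * m ^ 2) (16 * m ^ 2)).filter Nat.Prime with hP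
  have hm' : (41 : ℝ) ^ 4 ≤ m := by exact_mod_cast hm
  have hm0 : (0 : ℝ) < m := by linarith
  set s := √(m : ℝ) with hs
  have hs2 : s ^ 2 = m := Real.sq_sqrt hm0.le
  have hs1 : 41 ^ 2 ≤ s := Real.le_sqrt_of_sq_le (by linarith)
  set w := √s with hw
  have hw2 : w ^ 2 = s := Real.sq_sqrt (by linarith)
  have hw1 : 41 ≤ w := Real.le_sqrt_of_sq_le hs1
  set l := Real.log (16 * (m : ℝ) ^ 2 + 1) with hl
  have hl0 : 0 ≤ l := Real.log_nonneg (by nlinarith)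
  have hl1 : 5 * l ≤ s := by
    have a1 : 16 * (m : ℝ) ^ 2 + 1 ≤ 2 ^ 5 * w ^ 8 := by
      have : w ^ 8 = (m : ℝ) ^ 2 := by rw [← hs2, ← hw2]; ring
      nlinarith
    have a2 : l ≤ 5 * Real.log 2 + 8 * Real.log w := by
      refine (Real.log_le_log (by positivity) a1).trans (le_of_eq ?_)
      rw [Real.log_mul (by positivity) (by positivity), Real.log_pow, Real.log_pow]
      push_cast; ring
    have a3 := Real.log_le_sub_one_of_pos (show 0 < w by linarith)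
    have a4 := Real.log_two_lt_d9
    nlinarith
  have h1 := Chebyshev.theta_ge (16 * m ^ 2)
  have h2 := Chebyshev.theta_le_log4_mul_x (x := ((4 * m ^ 2 : ℕ) : ℝ)) (by positivity)
  have h3 : Chebyshev.theta ((16 * m ^ 2 : ℕ) : ℝ) ≤
      Chebyshev.theta ((4 * m ^ 2 : ℕ) : ℝ) + Pm.card * l := by
    unfold Chebyshev.theta
    rw [Nat.floor_natCast, Nat.floor_natCast,
      ← Finset.Ioc_union_Ioc_eq_Ioc (Nat.zero_le (4 * m ^ 2)) (by omega : 4 * m ^ 2 ≤ 16 * m ^ 2),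
      filter_union, sum_union (disjoint_filter_filter (Finset.Ioc_disjoint_Ioc_of_le le_rfl))]
    refine add_le_add le_rfl ?_
    rw [← nsmul_eq_mul]
    apply Finset.sum_le_card_nsmul
    intro p hp
    simp only [mem_filter, mem_Ioc] at hp
    have a1 : (p : ℝ) ≤ 16 * m ^ 2 := by exact_mod_cast hp.1.2
    exact Real.log_le_log (by exact_mod_cast hp.2.pos) (by linarith)
  push_cast at h1 h2 h3
  have h4 : √(16 * (m : ℝ) ^ 2) = 4 * m := by
    rw [show 16 * (m : ℝ) ^ 2 = (4 * m) ^ 2 by ring, Real.sqrt_sq (by positivity)]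
  have h5 : Real.log (16 * (m : ℝ) ^ 2) ≤ l := Real.log_le_log (by positivity) (by linarith)
  have h6 : Real.log 4 = 2 * Real.log 2 := by
    rw [show (4 : ℝ) = 2 ^ 2 by norm_num, Real.log_pow]; norm_num
  have h7 := Real.log_two_gt_d9
  rw [h4] at h1
  rw [h6] at h2
  have h8 : 5 * (m : ℝ) ^ 2 ≤ Pm.card * l + 9 * m * l := by
    have a1 : 2 * (4 * (m : ℝ)) * Real.log (16 * (m : ℝ) ^ 2) ≤ 8 * m * l := by nlinarith
    have a2 : l ≤ m * l := by nlinarith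
    nlinarith [sq_nonneg (m : ℝ)]
  have h9 : 16 * m * s ≤ Pm.card := by
    by_contra hh
    push Not at hh
    have a1 : (Pm.card : ℝ) * l ≤ 16 * m * s * l := by gcongr
    have a2 : (m : ℝ) * l ≤ m * s * l := by
      have : m * l * 1 ≤ m * l * s := by gcongr; linarith
      linarith
    have a3 : (m : ℝ) * s * (5 * l) ≤ m * s * s := by gcongr
    have a4 : (m : ℝ) * s * s = m ^ 2 := by rw [mul_assoc, ← sq, hs2]; ring
    have a5 : (Pm.card : ℝ) * l ≠ 16 * m * s * l ∨ l = 0 := by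
      by_cases h : l = 0
      · exact Or.inr h
      · exact Or.inl fun e => hh.ne (mul_right_cancel₀ h e)
    rcases a5 with a5 | a5
    · have := lt_of_le_of_ne a1 a5
      linarith
    · rw [a5] at h8
      nlinarith
  have h10 : ((Gam m).card : ℝ) = Pm.card * m := by
    rw [Gam, card_product, Nat.card_Ico, show 2 * m - m = m by omega]
    push_cast; rfl
  have h11 := card_Gam_le_nubar m
  have h12 : 16 * (m : ℝ) ^ 2 * s ≤ 16 * m ^ 2 * nubar m := by nlinarith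
  exact le_of_mul_le_mul_left h12 (by positivity)

end Pool.Agent.MP_74e98a_nt.H25
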