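import Mathlib

set_option autoImplicit false

open Finset

namespace Pool.Agent.MP_74e98a_nt.H25

/-- Weights in the logarithmic variable, living on `[K / Λ, Λ K]`. -/
structure Wt (K Λ : ℝ) (g : ℝ → ℂ) : Prop where
  smooth : ContDiff ℝ 2 g
  b0 : ∀ x, ‖g x‖ ≤ Λ
  b1 : ∀ x, ‖deriv g x‖ ≤ Λ
  b2 : ∀ x, ‖deriv (deriv g) x‖ ≤ Λ
  supp : ∀ x, g x ≠ 0 → |x - Real.log K| ≤ Real.log Λ

/-- The critical triple sum has a power saving. -/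
def BStmt : Prop :=
  ∃ C κ : ℝ, 0 < κ ∧ ∀ K Λ lam : ℝ, 2 ≤ K → 2 ≤ Λ → |lam - 1| ≤ 1 / K →
    ∀ g1 g2 g3 : ℝ → ℂ, Wt K Λ g1 → Wt K Λ g2 → Wt K Λ g3 → ∀ N : ℕ, Λ * K ≤ N →
      ‖∑ a ∈ Icc 1 N, ∑ b ∈ Icc 1 N, ∑ c ∈ Icc 1 N,
        g1 (Real.log a) * g2 (Real.log b) * g3 (Real.log c) *
          Complex.exp (2 * Real.pi * Complex.I * (-(lam * ((a : ℝ) * b / c) ^ 2 / 2) : ℝ))‖
        ≤ Λ ^ C * K ^ (5 / 2 - κ)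

end Pool.Agent.MP_74e98a_nt.H25
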