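import Mathlib
import Pool.Agent.MP_74e98a_nt.H25.Div

set_option autoImplicit false

open Finset MeasureTheory

namespace Pool.Agent.MP_74e98a_nt.H25

/-- The additive character. -/
noncomputable def ee (x : ℝ) : ℂ := Complex.exp (2 * Real.pi * Complex.I * x)

theorem ee_cont : Continuous ee := by unfold ee; fun_prop

theorem norm_ee (x : ℝ) : ‖ee x‖ = 1 := by
  unfold ee
  rw [show 2 * Real.pi * Complex.I * x = ((2 * Real.pi * x : ℝ) : ℂ) * Complex.I by push_cast; ring,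
    Complex.norm_exp_ofReal_mul_I]

theorem ee_add (x y : ℝ) : ee (x + y) = ee x * ee y := by
  unfold ee; rw [← Complex.exp_add]; push_cast; ring_nf

theorem ee_int (k : ℤ) : ee k = 1 := by
  unfold ee
  rw [Complex.exp_eq_one_iff]
  exact ⟨k, by push_cast; ring⟩

theorem conj_ee (x : ℝ) : (starRingEnd ℂ) (ee x) = ee (-x) := by
  unfold ee
  rw [← Complex.exp_conj]
  simp [map_ofNat]

theorem hasDerivAt_ee (x : ℝ) : HasDerivAt ee (2 * Real.pi * Complex.I * ee x) x := by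
  unfold ee
  have h1 : HasDerivAt (fun y : ℝ => 2 * Real.pi * Complex.I * (y : ℂ))
      (2 * Real.pi * Complex.I * 1) x :=
    (Complex.ofRealCLM.hasDerivAt (x := x)).const_mul _
  convert h1.cexp using 1
  ring

theorem int_ee (k : ℤ) : ∫ r in (0 : ℝ)..1, ee (k * r) = if k = 0 then 1 else 0 := by
  split_ifs with h
  · subst h; simp [ee]
  · have h1 : (2 * Real.pi * Complex.I * k : ℂ) ≠ 0 := by
      have : (k : ℂ) ≠ 0 := by exact_mod_cast h
      simp [this]
    have h2 : ∀ r : ℝ, ee (k * r) = Complex.exp ((2 * Real.pi * Complex.I * k) * r) := by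
      intro r; unfold ee; push_cast; ring_nf
    simp only [h2]
    rw [integral_exp_mul_complex h1]
    have h3 := ee_int k
    unfold ee at h3
    simp only [Complex.ofReal_intCast] at h3
    simp [h3]

theorem pars {ι : Type} (s : Finset ι) (z : ι → ℂ) (k : ι → ℤ) (B : ℝ)
    (hz : ∀ i ∈ s, ‖z i‖ ≤ B) :
    ∫ r in (0 : ℝ)..1, ‖∑ i ∈ s, z i * ee (k i * r)‖ ^ 2 ≤
      B ^ 2 * ((s ×ˢ s).filter fun q => k q.1 = k q.2).card := by
  have h1 : ∀ r : ℝ, ((‖∑ i ∈ s, z i * ee (k i * r)‖ ^ 2 : ℝ) : ℂ) =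
      ∑ q ∈ s ×ˢ s, z q.1 * (starRingEnd ℂ) (z q.2) * ee (((k q.1 - k q.2 : ℤ) : ℝ) * r) := by
    intro r
    rw [Complex.ofReal_pow, ← Complex.mul_conj', map_sum, Finset.sum_mul_sum, Finset.sum_product]
    refine Finset.sum_congr rfl fun i _ => Finset.sum_congr rfl fun j _ => ?_
    rw [map_mul, conj_ee, show ((k i - k j : ℤ) : ℝ) * r = k i * r + -(k j * r) by push_cast; ring,
      ee_add]
    ring
  have h2 : ((∫ r in (0 : ℝ)..1, ‖∑ i ∈ s, z i * ee (k i * r)‖ ^ 2 : ℝ) : ℂ) =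
      ∑ q ∈ (s ×ˢ s).filter fun q => k q.1 = k q.2, z q.1 * (starRingEnd ℂ) (z q.2) := by
    rw [← intervalIntegral.integral_ofReal]
    simp only [h1]
    rw [intervalIntegral.integral_finsetSum, Finset.sum_filter]
    · refine Finset.sum_congr rfl fun q _ => ?_
      rw [intervalIntegral.integral_const_mul, int_ee]
      simp [sub_eq_zero]
    · intro q _
      exact (continuous_const.mul (ee_cont.comp (by fun_prop))).intervalIntegrable _ _
  have h3 := congrArg norm h2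
  rw [Complex.norm_real, Real.norm_eq_abs] at h3
  refine (le_abs_self _).trans (h3.le.trans ((norm_sum_le _ _).trans ?_))
  rw [mul_comm, ← nsmul_eq_mul]
  apply Finset.sum_le_card_nsmul
  intro q hq
  have h4 := mem_product.1 (mem_filter.1 hq).1
  rw [norm_mul, Complex.norm_conj, sq]
  exact mul_le_mul (hz _ h4.1) (hz _ h4.2) (norm_nonneg _) ((norm_nonneg _).trans (hz _ h4.1))

/-- The theta sum. -/
noncomputable def th (N : ℕ) (om : ℕ → ℂ) (r : ℝ) : ℂ :=
  ∑ a ∈ range N, om a * ee (-(a : ℝ) ^ 2 * r)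

theorem th_cont (N : ℕ) (om : ℕ → ℂ) : Continuous (th N om) := by
  unfold th
  exact continuous_finsetSum _ fun a _ => continuous_const.mul (ee_cont.comp (by fun_prop))

theorem th_periodic (N : ℕ) (om : ℕ → ℂ) : Function.Periodic (th N om) 1 := by
  intro r
  unfold th
  refine Finset.sum_congr rfl fun a _ => ?_
  rw [mul_add, ee_add, show -(a : ℝ) ^ 2 * 1 = ((-(a : ℤ) ^ 2 : ℤ) : ℝ) by push_cast; ring, ee_int,
    mul_one]

theorem norm_th_le (N : ℕ) (om : ℕ → ℂ) (B : ℝ) (h : ∀ a, ‖om a‖ ≤ B) (r : ℝ) :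
    ‖th N om r‖ ≤ N * B := by
  unfold th
  refine (norm_sum_le _ _).trans ?_
  have := Finset.sum_le_card_nsmul (range N) (fun a => ‖om a * ee (-(a : ℝ) ^ 2 * r)‖) B
    (fun a _ => by rw [norm_mul, norm_ee, mul_one]; exact h a)
  rwa [card_range, nsmul_eq_mul] at this

theorem th_two (N : ℕ) (om : ℕ → ℂ) (B : ℝ) (h : ∀ a, ‖om a‖ ≤ B) :
    ∫ r in (0 : ℝ)..1, ‖th N om r‖ ^ 2 ≤ B ^ 2 * N := by
  have h1 := pars (range N) om (fun a => -(a : ℤ) ^ 2) B (fun a _ => h a)
  push_cast at h1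
  refine h1.trans (mul_le_mul_of_nonneg_left ?_ (sq_nonneg _))
  have : ((range N ×ˢ range N).filter fun q : ℕ × ℕ => -(q.1 : ℤ) ^ 2 = -(q.2 : ℤ) ^ 2).card ≤
      (range N).card := by
    apply Finset.card_le_card_of_injOn (fun q => q.1)
    · intro q hq
      simp only [coe_filter, Set.mem_ofPred_eq, mem_product] at hq
      exact mem_coe.2 hq.1.1
    · intro q hq q' hq' e
      simp only [coe_filter, Set.mem_ofPred_eq, mem_product, neg_inj] at hq hq'
      have h2 : q.1 = q.2 := by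
        have := (pow_left_inj₀ (by positivity) (by positivity) two_ne_zero).1 hq.2
        exact_mod_cast this
      have h3 : q'.1 = q'.2 := by
        have := (pow_left_inj₀ (by positivity) (by positivity) two_ne_zero).1 hq'.2
        exact_mod_cast this
      exact Prod.ext e (by rw [← h2, ← h3]; exact e)
  rw [card_range] at this
  exact_mod_cast this

theorem count_four (N : ℕ) (D : ℝ) (hD : 1 ≤ D)
    (hd : ∀ m : ℕ, m ≤ N ^ 2 → (m.divisors.card : ℝ) ≤ D) :
    ((((range N ×ˢ range N) ×ˢ (range N ×ˢ range N)).filter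
      fun q : (ℕ × ℕ) × (ℕ × ℕ) => -(q.1.1 : ℤ) ^ 2 - (q.1.2 : ℤ) ^ 2 =
        -(q.2.1 : ℤ) ^ 2 - (q.2.2 : ℤ) ^ 2).card : ℝ) ≤ 2 * D * N ^ 2 := by
  set S := ((range N ×ˢ range N) ×ˢ (range N ×ˢ range N)).filter
      fun q : (ℕ × ℕ) × (ℕ × ℕ) => -(q.1.1 : ℤ) ^ 2 - (q.1.2 : ℤ) ^ 2 =
        -(q.2.1 : ℤ) ^ 2 - (q.2.2 : ℤ) ^ 2 with hS
  have hmem : ∀ q ∈ S, q.1.1 < N ∧ q.1.2 < N ∧ q.2.1 < N ∧ q.2.2 < N ∧
      (q.1.1 : ℤ) ^ 2 + (q.1.2 : ℤ) ^ 2 = (q.2.1 : ℤ) ^ 2 + (q.2.2 : ℤ) ^ 2 := by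
    intro q hq
    simp only [hS, mem_filter, mem_product, mem_range] at hq
    exact ⟨hq.1.1.1, hq.1.1.2, hq.1.2.1, hq.1.2.2, by linarith [hq.2]⟩
  have h1 : (S.filter fun q => q.1.2 = q.2.2).card ≤ (range N ×ˢ range N).card := by
    apply Finset.card_le_card_of_injOn (fun q => q.1)
    · intro q hq
      simp only [coe_filter, Set.mem_ofPred_eq] at hq
      obtain ⟨a, b, -⟩ := hmem q hq.1
      simp [a, b]
    · intro q hq q' hq' e
      simp only [coe_filter, Set.mem_ofPred_eq] at hq hq'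
      have key : ∀ q ∈ S, q.1.2 = q.2.2 → q.2 = q.1 := by
        intro q hq h
        have h2 := (hmem q hq).2.2.2.2
        rw [h, add_left_inj] at h2
        have := (pow_left_inj₀ (by positivity) (by positivity) two_ne_zero).1 h2
        exact Prod.ext (by exact_mod_cast this.symm) h.symm
      exact Prod.ext e (by rw [key q hq.1 hq.2, key q' hq'.1 hq'.2]; exact e)
  have h2 : ((S.filter fun q => ¬ q.1.2 = q.2.2).card : ℝ) ≤ D * N ^ 2 := by
    rw [Finset.card_eq_sum_card_fiberwise (f := fun q => (q.1.2, q.2.2)) (t := range N ×ˢ range N)]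
    · push_cast
      have h3 : ∀ w ∈ range N ×ˢ range N, ((((S.filter fun q => ¬ q.1.2 = q.2.2).filter
          fun q => (q.1.2, q.2.2) = w).card : ℕ) : ℝ) ≤ D := by
        intro w hw
        simp only [mem_product, mem_range] at hw
        set m : ℕ := ((w.2 : ℤ) ^ 2 - (w.1 : ℤ) ^ 2).natAbs with hm
        have hmN : m ≤ N ^ 2 := by
          have a1 : (w.1 : ℤ) ^ 2 ≤ (N : ℤ) ^ 2 := by gcongr; exact hw.1.le
          have a2 : (w.2 : ℤ) ^ 2 ≤ (N : ℤ) ^ 2 := by gcongr; exact hw.2.le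
          have a3 : (0 : ℤ) ≤ (w.1 : ℤ) ^ 2 := by positivity
          have a4 : (0 : ℤ) ≤ (w.2 : ℤ) ^ 2 := by positivity
          zify
          rw [hm, Int.natCast_natAbs, abs_le]
          constructor <;> linarith
        refine le_trans ?_ (hd m hmN)
        rw [Nat.cast_le]
        have key : ∀ q ∈ (S.filter fun q => ¬ q.1.2 = q.2.2).filter
            fun q => (q.1.2, q.2.2) = w,
            ((q.1.1 : ℤ) + q.2.1) * (q.1.1 - q.2.1) = (w.2 : ℤ) ^ 2 - (w.1 : ℤ) ^ 2 ∧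
              (w.2 : ℤ) ^ 2 - (w.1 : ℤ) ^ 2 ≠ 0 := by
          intro q hq
          simp only [mem_filter] at hq
          obtain ⟨⟨a1, a2⟩, rfl⟩ := hq
          have a3 := (hmem q a1).2.2.2.2
          refine ⟨by linarith, fun h0 => a2 ?_⟩
          have := (pow_left_inj₀ (by positivity) (by positivity) two_ne_zero).1 (sub_eq_zero.1 h0)
          exact_mod_cast this.symm
        apply Finset.card_le_card_of_injOn (fun q => q.1.1 + q.2.1)
        · intro q hq
          obtain ⟨a1, a2⟩ := key q hq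
          simp only [mem_coe, Nat.mem_divisors]
          refine ⟨?_, by rw [hm]; exact Int.natAbs_ne_zero.2 a2⟩
          rw [hm, ← Int.natCast_dvd_natCast, Int.dvd_natAbs, ← a1]
          push_cast
          exact Dvd.intro _ rfl
        · intro q hq q' hq' e
          obtain ⟨a1, a2⟩ := key q hq
          obtain ⟨a3, -⟩ := key q' hq'
          have a4 : (q.1.1 : ℤ) + q.2.1 = q'.1.1 + q'.2.1 := by exact_mod_cast e
          have a5 : (q.1.1 : ℤ) + q.2.1 ≠ 0 := by
            intro h0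
            rw [h0, zero_mul] at a1
            exact a2 a1.symm
          rw [← a4, ← a1] at a3
          have a6 := mul_left_cancel₀ a5 a3
          have a7 := (mem_filter.1 hq).2
          have a8 := (mem_filter.1 hq').2
          rw [← a8, Prod.mk.injEq] at a7
          exact Prod.ext (Prod.ext (by omega) a7.1) (Prod.ext (by omega) a7.2)
      refine (Finset.sum_le_card_nsmul _ _ D h3).trans ?_
      rw [card_product, card_range, nsmul_eq_mul]
      push_cast
      nlinarith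
    · intro q hq
      simp only [coe_filter, Set.mem_ofPred_eq] at hq
      obtain ⟨-, b, -, d, -⟩ := hmem q hq.1
      simp [b, d]
  rw [← Finset.card_filter_add_card_filter_not (s := S) (fun q => q.1.2 = q.2.2)]
  rw [card_product, card_range] at h1
  have h4 : ((S.filter fun q => q.1.2 = q.2.2).card : ℝ) ≤ N * N := by exact_mod_cast h1
  push_cast
  nlinarith [sq_nonneg (N : ℝ)]

theorem th_four (N : ℕ) (D : ℝ) (hD : 1 ≤ D)
    (hd : ∀ m : ℕ, m ≤ N ^ 2 → (m.divisors.card : ℝ) ≤ D) (om : ℕ → ℂ) (B : ℝ)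
    (h : ∀ a, ‖om a‖ ≤ B) :
    ∫ r in (0 : ℝ)..1, ‖th N om r‖ ^ 4 ≤ B ^ 4 * (2 * D * N ^ 2) := by
  have h1 := pars (range N ×ˢ range N) (fun q => om q.1 * om q.2)
    (fun q => -(q.1 : ℤ) ^ 2 - (q.2 : ℤ) ^ 2) (B ^ 2) (fun q _ => by
      rw [norm_mul, sq]
      exact mul_le_mul (h _) (h _) (norm_nonneg _) ((norm_nonneg _).trans (h 0)))
  have h2 : ∀ r : ℝ, ‖th N om r‖ ^ 4 = ‖∑ q ∈ range N ×ˢ range N,
      om q.1 * om q.2 * ee (((-(q.1 : ℤ) ^ 2 - (q.2 : ℤ) ^ 2 : ℤ) : ℝ) * r)‖ ^ 2 := by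
    intro r
    rw [show (4 : ℕ) = 2 * 2 from rfl, pow_mul, ← norm_pow, sq (th N om r), th,
      Finset.sum_mul_sum, Finset.sum_product]
    congr 2
    refine Finset.sum_congr rfl fun i _ => Finset.sum_congr rfl fun j _ => ?_
    rw [show ((-(i : ℤ) ^ 2 - (j : ℤ) ^ 2 : ℤ) : ℝ) * r = -(i : ℝ) ^ 2 * r + -(j : ℝ) ^ 2 * r by
      push_cast; ring, ee_add]
    ring
  simp only [h2]
  refine h1.trans ?_
  rw [← pow_mul]
  exact mul_le_mul_of_nonneg_left (count_four N D hD hd) (pow_nonneg ((norm_nonneg _).trans (h 0)) _)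

theorem sq_change (φ : ℝ → ℝ) (hφ : Continuous φ) (h0 : ∀ x, 0 ≤ φ x)
    (hper : Function.Periodic φ 1) (lam L a b : ℝ) (hl1 : 1 / 2 ≤ lam) (hl2 : lam ≤ 3 / 2)
    (hL : 2 ≤ L) (ha : 1 / L ≤ a) (hab : a ≤ b) (hb : b ≤ L) :
    ∫ s in a..b, φ (lam * s ^ 2 / 2) ≤ L ^ 5 * ∫ r in (0 : ℝ)..1, φ r := by
  have hL0 : 0 < L := by linarith
  have ha0 : 0 < a := lt_of_lt_of_le (by positivity) ha
  have haL : 1 ≤ a * L := by rwa [div_le_iff₀ hL0] at ha
  have h1 := intervalIntegral.integral_comp_mul_deriv (a := a) (b := b)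
    (f := fun s => lam * s ^ 2 / 2) (f' := fun s => lam * s) (g := φ)
    (fun x _ => by
      have := ((hasDerivAt_pow 2 x).const_mul lam).div_const 2
      refine this.congr_deriv ?_
      push_cast; ring) (by fun_prop) hφ
  have h2 : ∫ s in a..b, φ (lam * s ^ 2 / 2) ≤
      ∫ s in a..b, (2 * L) * ((φ ∘ fun s => lam * s ^ 2 / 2) s * (lam * s)) := by
    apply intervalIntegral.integral_mono_on hab
      ((by fun_prop : Continuous fun s => φ (lam * s ^ 2 / 2)).intervalIntegrable _ _)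
      ((by fun_prop : Continuous fun s =>
        (2 * L) * ((φ ∘ fun s => lam * s ^ 2 / 2) s * (lam * s))).intervalIntegrable _ _)
    intro x hx
    have h3 : 1 ≤ 2 * L * (lam * x) := by
      have : a * L ≤ x * L := by gcongr; exact hx.1
      nlinarith
    have h4 := h0 (lam * x ^ 2 / 2)
    simp only [Function.comp_apply]
    nlinarith
  rw [intervalIntegral.integral_const_mul, h1] at h2
  set n : ℕ := ⌈L ^ 2⌉₊ with hn
  have hn1 : L ^ 2 ≤ n := Nat.le_ceil _
  have hn2 : (n : ℝ) ≤ L ^ 2 + 1 := (Nat.ceil_lt_add_one (by positivity)).le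
  have h3 : ∫ x in lam * a ^ 2 / 2..lam * b ^ 2 / 2, φ x ≤ ∫ x in (0 : ℝ)..0 + (n : ℤ) • (1 : ℝ), φ x := by
    apply intervalIntegral.integral_mono_interval (by positivity) (by gcongr) ?_
      (Filter.Eventually.of_forall h0) (hφ.intervalIntegrable _ _)
    have : b ^ 2 ≤ L ^ 2 := by gcongr; linarith
    simp only [zsmul_eq_mul, Int.cast_natCast, mul_one, zero_add]
    nlinarith
  rw [hper.intervalIntegral_add_zsmul_eq _ _ (fun _ _ => hφ.intervalIntegrable _ _)] at h3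
  simp only [zsmul_eq_mul, Int.cast_natCast, zero_add] at h3
  have h4 : 0 ≤ ∫ r in (0 : ℝ)..1, φ r := intervalIntegral.integral_nonneg (by norm_num) fun x _ => h0 x
  have h5 : 2 * L * n ≤ L ^ 5 := by
    have a1 : 4 ≤ L ^ 2 := by nlinarith
    have a2 : 2 * n ≤ L ^ 2 * L ^ 2 := by nlinarith
    calc 2 * L * n = L * (2 * n) := by ring
      _ ≤ L * (L ^ 2 * L ^ 2) := by gcongr
      _ = _ := by ring
  calc _ ≤ 2 * L * (n * ∫ r in (0 : ℝ)..1, φ r) := h2.trans (by gcongr)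
    _ = 2 * L * n * ∫ r in (0 : ℝ)..1, φ r := by ring
    _ ≤ _ := by gcongr

end Pool.Agent.MP_74e98a_nt.H25
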