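import Mathlib
import Pool.Agent.MP_74e98a_nt.H25.BDefs
import Pool.Agent.MP_74e98a_nt.H25.Pars
import Pool.Agent.MP_74e98a_nt.H83.Defs

set_option autoImplicit false

open Finset Filter Topology

namespace Pool.Agent.MP_74e98a_nt.H25

/-- A weight in the logarithmic variable as a function on the line. -/
noncomputable def Lg (h : ℝ → ℂ) (x : ℝ) : ℂ := if 0 < x then h (Real.log x) else 0

/-- Bounded continuous functions with the right support. -/
structure W0 (K Λ : ℝ) (h : ℝ → ℂ) : Prop where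
  cont : Continuous h
  bd : ∀ x, ‖h x‖ ≤ Λ
  supp : ∀ x, h x ≠ 0 → |x - Real.log K| ≤ Real.log Λ

/-- Once differentiable weights. -/
structure W1 (K Λ : ℝ) (h h' : ℝ → ℂ) : Prop where
  w : W0 K Λ h
  w' : W0 K Λ h'
  der : ∀ x, HasDerivAt h (h' x) x

theorem supp_deriv {K Λ : ℝ} {h : ℝ → ℂ} (hs : ∀ x, h x ≠ 0 → |x - Real.log K| ≤ Real.log Λ) (x : ℝ)
    (hx : deriv h x ≠ 0) : |x - Real.log K| ≤ Real.log Λ := by
  by_contra hh
  apply hx
  have h1 : ∀ᶠ y in 𝓝 x, Real.log Λ < |y - Real.log K| :=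
    (by fun_prop : Continuous fun y => |y - Real.log K|).continuousAt.eventually_const_lt
      (not_le.1 hh)
  have h2 : h =ᶠ[𝓝 x] fun _ => 0 := h1.mono fun y hy => by_contra fun e => not_le.2 hy (hs y e)
  rw [h2.deriv_eq, deriv_const]

theorem Wt.w1 {K Λ : ℝ} {g : ℝ → ℂ} (h : Wt K Λ g) :
    W1 K Λ g (deriv g) ∧ W1 K Λ (deriv g) (deriv (deriv g)) := by
  have h1 : ContDiff ℝ 1 (deriv g) := h.smooth.deriv' (n := 1)
  have h2 : Continuous (deriv (deriv g)) := h1.continuous_deriv le_rfl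
  have a0 : W0 K Λ g := ⟨h.smooth.continuous, h.b0, h.supp⟩
  have a1 : W0 K Λ (deriv g) := ⟨h1.continuous, h.b1, supp_deriv h.supp⟩
  have a2 : W0 K Λ (deriv (deriv g)) := ⟨h2, h.b2, supp_deriv a1.supp⟩
  exact ⟨⟨a0, a1, fun x => (h.smooth.differentiable (by norm_num) x).hasDerivAt⟩,
    ⟨a1, a2, fun x => (h1.differentiable (by norm_num) x).hasDerivAt⟩⟩

variable {K Λ : ℝ}

theorem W0.norm_Lg {h : ℝ → ℂ} (w : W0 K Λ h) (x : ℝ) : ‖Lg h x‖ ≤ Λ := by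
  unfold Lg
  split_ifs
  · exact w.bd _
  · rw [norm_zero]; exact (norm_nonneg _).trans (w.bd 0)

theorem W0.range_Lg {h : ℝ → ℂ} (w : W0 K Λ h) (hK : 0 < K) (hΛ : 0 < Λ) {x : ℝ}
    (hx : Lg h x ≠ 0) : K / Λ ≤ x ∧ x ≤ Λ * K := by
  unfold Lg at hx
  split_ifs at hx with h0
  · have h1 := abs_le.1 (w.supp _ hx)
    constructor
    · rw [← Real.log_le_log_iff (by positivity) h0, Real.log_div hK.ne' hΛ.ne']
      linarith [h1.1]
    · rw [← Real.log_le_log_iff h0 (by positivity), Real.log_mul hΛ.ne' hK.ne']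
      linarith [h1.2]
  · exact absurd rfl hx

theorem W0.ev_zero {h : ℝ → ℂ} (w : W0 K Λ h) (hK : 0 < K) (hΛ : 0 < Λ) {x : ℝ} (hx : x ≤ 0) :
    ∀ᶠ y in 𝓝 x, Lg h y = 0 := by
  have h1 : ∀ᶠ y in 𝓝 x, y < K / Λ := eventually_lt_nhds (lt_of_le_of_lt hx (by positivity))
  exact h1.mono fun y hy => by_contra fun e => not_le.2 hy (w.range_Lg hK hΛ e).1

theorem W0.cont_Lg_mul {h : ℝ → ℂ} (w : W0 K Λ h) (hK : 0 < K) (hΛ : 0 < Λ) (ψ : ℝ → ℂ)
    (hψ : ∀ x, 0 < x → ContinuousAt ψ x) : Continuous fun x => Lg h x * ψ x := by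
  rw [continuous_iff_continuousAt]
  intro x
  by_cases hx : 0 < x
  · have h1 : (fun y => h (Real.log y) * ψ y) =ᶠ[𝓝 x] fun y => Lg h y * ψ y :=
      (eventually_gt_nhds hx).mono fun y hy => by simp [Lg, hy]
    exact ((w.cont.continuousAt.comp (Real.continuousAt_log hx.ne')).mul (hψ x hx)).congr h1
  · have h1 : (fun _ => (0 : ℂ)) =ᶠ[𝓝 x] fun y => Lg h y * ψ y :=
      (w.ev_zero hK hΛ (not_lt.1 hx)).mono fun y hy => by simp [hy]
    exact continuousAt_const.congr h1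

theorem W0.cont_Lg {h : ℝ → ℂ} (w : W0 K Λ h) (hK : 0 < K) (hΛ : 0 < Λ) : Continuous (Lg h) := by
  simpa using w.cont_Lg_mul hK hΛ (fun _ => 1) fun _ _ => continuousAt_const

theorem W0.cont_Lg_div {h : ℝ → ℂ} (w : W0 K Λ h) (hK : 0 < K) (hΛ : 0 < Λ) :
    Continuous fun x : ℝ => Lg h x / x := by
  simp only [div_eq_mul_inv]
  exact w.cont_Lg_mul hK hΛ (fun x => (x : ℂ)⁻¹) fun x hx =>
    (Complex.continuous_ofReal.continuousAt).inv₀ (by exact_mod_cast hx.ne')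

theorem W0.norm_Lg_div {h : ℝ → ℂ} (w : W0 K Λ h) (hK : 0 < K) (hΛ : 0 < Λ) (x : ℝ) :
    ‖Lg h x / x‖ ≤ Λ ^ 2 / K := by
  by_cases h0 : Lg h x = 0
  · rw [h0, zero_div, norm_zero]; positivity
  have h1 := (w.range_Lg hK hΛ h0).1
  have h2 : 0 < x := lt_of_lt_of_le (by positivity) h1
  rw [norm_div, Complex.norm_real, Real.norm_eq_abs, abs_of_pos h2]
  calc _ ≤ Λ / (K / Λ) := by gcongr; exact w.norm_Lg x
    _ = _ := by field_simp

theorem W1.der_Lg {h h' : ℝ → ℂ} (w : W1 K Λ h h') (hK : 0 < K) (hΛ : 0 < Λ) (x : ℝ) :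
    HasDerivAt (Lg h) (Lg h' x / x) x := by
  by_cases hx : 0 < x
  · have h1 : Lg h =ᶠ[𝓝 x] fun y => h (Real.log y) :=
      (eventually_gt_nhds hx).mono fun y hy => by simp [Lg, hy]
    have h2 := (w.der (Real.log x)).scomp x (Real.hasDerivAt_log hx.ne')
    refine (h2.congr_of_eventuallyEq h1).congr_deriv ?_
    simp [Lg, hx, div_eq_mul_inv, mul_comm]
  · have h1 : Lg h =ᶠ[𝓝 x] fun _ => (0 : ℂ) := w.w.ev_zero hK hΛ (not_lt.1 hx)
    refine ((hasDerivAt_const x (0 : ℂ)).congr_of_eventuallyEq h1).congr_deriv ?_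
    simp [Lg, hx]

/-- Slowly varying coefficients. -/
structure Cf (K Λ B : ℝ) (w : ℝ → ℂ) : Prop where
  bd : ∀ x, ‖w x‖ ≤ B
  lip : ∀ x, ‖w (x + 1) - w x‖ ≤ B * (Λ / K)
  supp : ∀ x, w x ≠ 0 → K / Λ ≤ x ∧ x ≤ Λ * K

theorem lip_of_der {w w' : ℝ → ℂ} (h : ∀ x, HasDerivAt w (w' x) x) {B : ℝ} (hB : ∀ x, ‖w' x‖ ≤ B)
    (x : ℝ) : ‖w (x + 1) - w x‖ ≤ B := by
  have := Convex.norm_image_sub_le_of_norm_hasDerivWithin_le (s := Set.univ) (f := w) (f' := w')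
    (fun y _ => (h y).hasDerivWithinAt) (fun y _ => hB y) convex_univ (Set.mem_univ x)
    (Set.mem_univ (x + 1))
  simpa using this

theorem W1.cf {h h' : ℝ → ℂ} (w : W1 K Λ h h') (hK : 0 < K) (hΛ : 0 < Λ) : Cf K Λ Λ (Lg h) := by
  refine ⟨w.w.norm_Lg, fun x => ?_, fun x hx => w.w.range_Lg hK hΛ hx⟩
  refine (lip_of_der (w.der_Lg hK hΛ) (w.w'.norm_Lg_div hK hΛ) x).trans (le_of_eq ?_)
  ring

/-- The coefficients of the derivative of the theta sum. -/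
noncomputable def sqw (K : ℝ) (w : ℝ → ℂ) (x : ℝ) : ℂ := w x * ((x / K) ^ 2 : ℝ)

theorem W1.cf2 {h h' : ℝ → ℂ} (w : W1 K Λ h h') (hK : 0 < K) (hΛ : 2 ≤ Λ) :
    Cf K Λ (Λ ^ 3) (sqw K (Lg h)) := by
  have hΛ0 : 0 < Λ := by linarith
  have hb : ∀ {k : ℝ → ℂ}, W0 K Λ k → ∀ x, ‖Lg k x * (x / K ^ 2 : ℝ)‖ ≤ Λ ^ 2 / K := by
    intro k wk x
    by_cases h0 : Lg k x = 0
    · rw [h0, zero_mul, norm_zero]; positivity
    have h1 := wk.range_Lg hK hΛ0 h0
    have h2 : 0 < x := lt_of_lt_of_le (by positivity) h1.1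
    rw [norm_mul, Complex.norm_real, Real.norm_eq_abs, abs_of_pos (by positivity)]
    calc _ ≤ Λ * (Λ * K / K ^ 2) := by gcongr; exacts [wk.norm_Lg x, h1.2]
      _ = _ := by field_simp
  refine ⟨fun x => ?_, fun x => ?_, fun x hx => w.w.range_Lg hK hΛ0 (left_ne_zero_of_mul hx)⟩
  · unfold sqw
    by_cases h0 : Lg h x = 0
    · rw [h0, zero_mul, norm_zero]; positivity
    have h1 := w.w.range_Lg hK hΛ0 h0
    have h2 : 0 < x := lt_of_lt_of_le (by positivity) h1.1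
    rw [norm_mul, Complex.norm_real, Real.norm_eq_abs, abs_of_pos (by positivity)]
    calc _ ≤ Λ * (Λ * K / K) ^ 2 := by gcongr; exacts [w.w.norm_Lg x, h1.2]
      _ = _ := by field_simp
  · have hd : ∀ x, HasDerivAt (sqw K (Lg h))
        (Lg h' x * (x / K ^ 2 : ℝ) + 2 * (Lg h x * (x / K ^ 2 : ℝ))) x := by
      intro x
      have h1 : HasDerivAt (fun y : ℝ => (y / K) ^ 2) (2 * (x / K ^ 2)) x := by
        refine (((hasDerivAt_id x).div_const K).pow 2).congr_deriv ?_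
        simp; field_simp
      refine ((w.der_Lg hK hΛ0 x).mul h1.ofReal_comp).congr_deriv ?_
      by_cases hx : x = 0
      · simp [hx]
      have : (x : ℂ) ≠ 0 := by exact_mod_cast hx
      have : (K : ℂ) ≠ 0 := by exact_mod_cast hK.ne'
      push_cast
      field_simp
    refine (lip_of_der hd (B := 3 * (Λ ^ 2 / K)) (fun y => ?_) x).trans ?_
    · refine (norm_add_le _ _).trans ?_
      rw [norm_mul 2, Complex.norm_two]
      linarith [hb w.w' y, hb w.w y]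
    · rw [show Λ ^ 3 * (Λ / K) = Λ ^ 2 * (Λ ^ 2 / K) by ring]
      gcongr
      nlinarith

/-- The theta sum as a function of the ratio. -/
noncomputable def Tt (N : ℕ) (w : ℝ → ℂ) (lam t : ℝ) : ℂ :=
  th N (fun a => w a) (lam * t ^ 2 / 2)

theorem Tt_cont (N : ℕ) (w : ℝ → ℂ) (lam : ℝ) : Continuous (Tt N w lam) :=
  (th_cont N _).comp (by fun_prop)

theorem Tt_der (N : ℕ) (w : ℝ → ℂ) (lam : ℝ) (hK : 0 < K) (t : ℝ) :
    HasDerivAt (Tt N w lam)
      (-(2 * Real.pi * Complex.I * (lam * K ^ 2 : ℝ)) * (t * Tt N (sqw K w) lam t)) t := by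
  unfold Tt th
  have h1 : ∀ a ∈ range N, HasDerivAt
      (fun t : ℝ => w a * ee (-(a : ℝ) ^ 2 * (lam * t ^ 2 / 2)))
      (w a * ((-(a : ℝ) ^ 2 * (lam * t) : ℝ) •
        (2 * Real.pi * Complex.I * ee (-(a : ℝ) ^ 2 * (lam * t ^ 2 / 2))))) t := by
    intro a _
    have h2 : HasDerivAt (fun t : ℝ => -(a : ℝ) ^ 2 * (lam * t ^ 2 / 2))
        (-(a : ℝ) ^ 2 * (lam * t)) t := by
      refine ((((hasDerivAt_pow 2 t).const_mul lam).div_const 2).const_mul _).congr_deriv ?_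
      push_cast; ring
    exact ((hasDerivAt_ee _).scomp t h2).const_mul _
  refine (HasDerivAt.fun_sum h1).congr_deriv ?_
  rw [Finset.mul_sum, Finset.mul_sum]
  refine Finset.sum_congr rfl fun a _ => ?_
  have : (K : ℂ) ≠ 0 := by exact_mod_cast hK.ne'
  simp only [sqw, Complex.real_smul]
  push_cast
  field_simp

theorem Cf.coef {B : ℝ} {w : ℝ → ℂ} (h : Cf K Λ B w) (hK : 0 < K) (hΛ : 0 < Λ) (hB : 0 < B)
    {L : ℝ} (hL : Λ ≤ L) : H83.Coef K L fun n => w n / B := by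
  refine ⟨fun n => ?_, fun n => ?_, fun n hn => ?_⟩
  · rw [norm_div, Complex.norm_real, Real.norm_eq_abs, abs_of_pos hB, div_le_one hB]
    exact h.bd _
  · rw [← sub_div, norm_div, Complex.norm_real, Real.norm_eq_abs, abs_of_pos hB, div_le_iff₀ hB]
    push_cast
    refine (h.lip n).trans ?_
    rw [mul_comm]
    gcongr
  · have h1 := h.supp n fun e => hn (by rw [e, zero_div])
    constructor
    · exact le_trans (by gcongr) h1.1
    · exact h1.2.trans (by gcongr)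

theorem Cf.Tt_eq {B : ℝ} {w : ℝ → ℂ} (h : Cf K Λ B w) (hK : 0 < K) (hΛ : 0 < Λ) (hB : 0 < B)
    {N : ℕ} (hN : Λ * K < N) (lam t : ℝ) :
    Tt N w lam t = B * H83.Th (fun n => w n / B) (lam * t ^ 2) := by
  rw [H83.Th_eq_sum (S := (range N).image Nat.cast), Finset.sum_image (by simp), Finset.mul_sum]
  · unfold Tt th ee
    refine Finset.sum_congr rfl fun a _ => ?_
    have : (B : ℂ) ≠ 0 := by exact_mod_cast hB.ne'
    rw [← mul_assoc, mul_div_cancel₀ _ this]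
    push_cast
    ring_nf
  · intro n hn
    rw [div_eq_zero_iff]
    left
    by_contra e
    have h1 := h.supp n e
    have h2 : (0 : ℝ) < n := lt_of_lt_of_le (by positivity) h1.1
    have h3 : (n : ℝ) < N := lt_of_le_of_lt h1.2 hN
    have h4 : 0 < n := by exact_mod_cast h2
    have h5 : n < N := by exact_mod_cast h3
    exact hn (mem_image.2 ⟨n.toNat, mem_range.2 (by omega), by omega⟩)

theorem Tt_two {B : ℝ} {w : ℝ → ℂ} (h : ∀ x, ‖w x‖ ≤ B) (N : ℕ) {lam L a b : ℝ}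
    (hl1 : 1 / 2 ≤ lam) (hl2 : lam ≤ 3 / 2) (hL : 2 ≤ L) (ha : 1 / L ≤ a) (hab : a ≤ b)
    (hb : b ≤ L) : ∫ t in a..b, ‖Tt N w lam t‖ ^ 2 ≤ L ^ 5 * (B ^ 2 * N) := by
  have h1 := sq_change (fun r => ‖th N (fun a => w a) r‖ ^ 2)
    (by have := th_cont N (fun a => w a); fun_prop) (fun _ => by positivity)
    (fun r => by simp only [th_periodic N _ r]) lam L a b hl1 hl2 hL ha hab hb
  exact h1.trans (mul_le_mul_of_nonneg_left (th_two N _ B fun a => h a) (by positivity))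

theorem Tt_four {B : ℝ} {w : ℝ → ℂ} (h : ∀ x, ‖w x‖ ≤ B) (N : ℕ) (D : ℝ) (hD : 1 ≤ D)
    (hd : ∀ m : ℕ, m ≤ N ^ 2 → (m.divisors.card : ℝ) ≤ D) {lam L a b : ℝ}
    (hl1 : 1 / 2 ≤ lam) (hl2 : lam ≤ 3 / 2) (hL : 2 ≤ L) (ha : 1 / L ≤ a) (hab : a ≤ b)
    (hb : b ≤ L) : ∫ t in a..b, ‖Tt N w lam t‖ ^ 4 ≤ L ^ 5 * (B ^ 4 * (2 * D * N ^ 2)) := by
  have h1 := sq_change (fun r => ‖th N (fun a => w a) r‖ ^ 4)
    (by have := th_cont N (fun a => w a); fun_prop) (fun _ => by positivity)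
    (fun r => by simp only [th_periodic N _ r]) lam L a b hl1 hl2 hL ha hab hb
  exact h1.trans (mul_le_mul_of_nonneg_left (th_four N D hD hd _ B fun a => h a) (by positivity))

end Pool.Agent.MP_74e98a_nt.H25
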