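import Mathlib
import Pool.Agent.MP_74e98a_nt.H25.Wts
import Pool.Agent.MP_74e98a_nt.H25.Var

set_option autoImplicit false

open Finset Filter Topology MeasureTheory

namespace Pool.Agent.MP_74e98a_nt.H25

/-- Second column of the basis, first entry. -/
def be (γ : ℕ × ℕ) : ℕ := γ.1 % γ.2

/-- Second column of the basis, second entry. -/
def de (γ : ℕ × ℕ) : ℕ := (γ.1 - be γ * (γ.2 + 1)) / γ.2

theorem basis_facts {m : ℕ} {γ : ℕ × ℕ} (h : γ ∈ Gam m) :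
    γ.2 * de γ + be γ * (γ.2 + 1) = γ.1 ∧ be γ < γ.2 ∧ 1 ≤ de γ ∧ de γ ≤ 16 * m := by
  obtain ⟨a1, a2, a3, a4, -⟩ := Gam_facts h
  obtain ⟨⟨-, b1⟩, -, b2, b3⟩ := mem_Gam.1 h
  have c1 : be γ < γ.2 := Nat.mod_lt _ a2
  have c2 : be γ * (γ.2 + 1) < γ.1 := by nlinarith
  have c3 : γ.2 ∣ γ.1 - be γ * (γ.2 + 1) := by
    have h1 := Nat.div_add_mod γ.1 γ.2
    refine ⟨γ.1 / γ.2 - be γ, ?_⟩
    rw [Nat.mul_sub]
    unfold be at c2 ⊢
    rw [mul_add, mul_one, mul_comm (γ.1 % γ.2)] at c2 ⊢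
    omega
  have c4 : γ.2 * de γ = γ.1 - be γ * (γ.2 + 1) := Nat.mul_div_cancel' c3
  refine ⟨by omega, c1, ?_, ?_⟩
  · rcases Nat.eq_zero_or_pos (de γ) with e | e
    · rw [e] at c4; omega
    · exact e
  · have c5 : m * de γ ≤ γ.2 * de γ := Nat.mul_le_mul_right _ b2
    have c6 : m * de γ ≤ m * (16 * m) := by nlinarith [Nat.sub_le γ.1 (be γ * (γ.2 + 1))]
    exact Nat.le_of_mul_le_mul_left c6 a1

/-- First coordinate along the direction `u`. -/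
def bb (γ : ℕ × ℕ) (u : ℝ) : ℝ := γ.2 * u + be γ

/-- Second coordinate along the direction `u`. -/
def cc (γ : ℕ × ℕ) (u : ℝ) : ℝ := -(γ.2 + 1) * u + de γ

/-- The Moebius map. -/
noncomputable def tt (γ : ℕ × ℕ) (u : ℝ) : ℝ := bb γ u / cc γ u

/-- The directions with ratio of size `L`. -/
def Good (γ : ℕ × ℕ) (L u : ℝ) : Prop := cc γ u ≤ L * bb γ u ∧ bb γ u ≤ L * cc γ u

/-- Left end point. -/
noncomputable def u1 (γ : ℕ × ℕ) (L : ℝ) : ℝ := (de γ - L * be γ) / (L * γ.2 + γ.2 + 1)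

/-- Right end point. -/
noncomputable def u2 (γ : ℕ × ℕ) (L : ℝ) : ℝ := (L * de γ - be γ) / (γ.2 + L * (γ.2 + 1))

theorem good_iff (γ : ℕ × ℕ) {L : ℝ} (hL : 0 < L) (u : ℝ) :
    Good γ L u ↔ u ∈ Set.Icc (u1 γ L) (u2 γ L) := by
  unfold Good u1 u2 bb cc
  rw [Set.mem_Icc, div_le_iff₀ (by positivity), le_div_iff₀ (by positivity)]
  constructor <;> rintro ⟨h1, h2⟩ <;> constructor <;> linarith

theorem real_facts {m : ℕ} {γ : ℕ × ℕ} (h : γ ∈ Gam m) :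
    (γ.2 : ℝ) * de γ + be γ * (γ.2 + 1) = γ.1 ∧ (be γ : ℝ) ≤ γ.2 ∧ (1 : ℝ) ≤ de γ ∧
      (de γ : ℝ) ≤ 16 * m ∧ (1 : ℝ) ≤ m ∧ (m : ℝ) ≤ γ.2 ∧ (γ.2 : ℝ) + 1 ≤ 2 * m ∧
      4 * (m : ℝ) ^ 2 ≤ γ.1 ∧ (γ.1 : ℝ) ≤ 16 * m ^ 2 := by
  obtain ⟨a1, a2, a3, a4⟩ := basis_facts h
  obtain ⟨⟨b0, b1⟩, -, b2, b3⟩ := mem_Gam.1 h
  have a5 := (Gam_facts h).1
  refine ⟨by exact_mod_cast a1, by exact_mod_cast a2.le, by exact_mod_cast a3,
    by exact_mod_cast a4, by exact_mod_cast a5, by exact_mod_cast b2, by exact_mod_cast b3,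
    by exact_mod_cast b0.le, by exact_mod_cast b1⟩

theorem bc_id {m : ℕ} {γ : ℕ × ℕ} (h : γ ∈ Gam m) (u : ℝ) :
    (γ.2 + 1) * bb γ u + γ.2 * cc γ u = γ.1 := by
  unfold bb cc
  linear_combination (real_facts h).1

theorem u_bounds {m : ℕ} {γ : ℕ × ℕ} (h : γ ∈ Gam m) {L : ℝ} (hL : 0 < L) :
    -16 ≤ u1 γ L ∧ u2 γ L ≤ 16 := by
  obtain ⟨-, a2, a3, a4, a5, a6, -⟩ := real_facts h
  have a7 : (0 : ℝ) ≤ be γ := by positivity
  unfold u1 u2
  rw [le_div_iff₀ (by positivity), div_le_iff₀ (by positivity)]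
  constructor <;> nlinarith

theorem good_facts {m : ℕ} {γ : ℕ × ℕ} (h : γ ∈ Gam m) {L u : ℝ} (hL : 2 ≤ L)
    (hu : Good γ L u) : m / L ≤ cc γ u ∧ 0 < cc γ u ∧ 1 / L ≤ tt γ u ∧ tt γ u ≤ L ∧
      cc γ u ^ 2 ≤ 16 * γ.1 := by
  obtain ⟨-, -, -, -, a5, a6, a7, a8, a9⟩ := real_facts h
  have e := bc_id h u
  obtain ⟨g1, g2⟩ := hu
  have hL0 : 0 < L := by linarith
  have c0 : 0 ≤ cc γ u := by
    by_contra hh
    push Not at hh
    have : L * bb γ u ≤ L * (L * cc γ u) := by gcongr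
    have : 0 < (L * L - 1) * -cc γ u := mul_pos (by nlinarith) (by linarith)
    nlinarith
  have b0 : 0 ≤ bb γ u := by
    by_contra hh
    push Not at hh
    nlinarith
  have c1 : m / L ≤ cc γ u := by
    rw [div_le_iff₀ hL0]
    have d1 : (γ.2 + 1) * bb γ u ≤ (2 * m) * (L * cc γ u) := by gcongr
    have d2 : γ.2 * cc γ u ≤ (2 * m) * (L * cc γ u) := by
      have : cc γ u ≤ L * cc γ u := by nlinarith
      gcongr
      linarith
    have d3 : (4 * m) * (m : ℝ) ≤ (4 * m) * (cc γ u * L) := by nlinarith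
    exact le_of_mul_le_mul_left d3 (by positivity)
  have c2 : 0 < cc γ u := lt_of_lt_of_le (by positivity) c1
  refine ⟨c1, c2, ?_, ?_, ?_⟩
  · unfold tt
    rw [div_le_div_iff₀ hL0 c2]
    linarith
  · unfold tt
    rw [div_le_iff₀ c2]
    exact g2
  · have d1 : m * cc γ u ≤ γ.1 := by nlinarith
    have d2 : (m * cc γ u) ^ 2 ≤ (γ.1 : ℝ) ^ 2 := by gcongr
    have d3 : (m : ℝ) ^ 2 * cc γ u ^ 2 ≤ m ^ 2 * (16 * γ.1) := by nlinarith
    exact le_of_mul_le_mul_left d3 (by positivity)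

theorem bb_der (γ : ℕ × ℕ) (u : ℝ) : HasDerivAt (bb γ) γ.2 u := by
  unfold bb
  simpa using ((hasDerivAt_id u).const_mul (γ.2 : ℝ)).add_const (be γ : ℝ)

theorem cc_der (γ : ℕ × ℕ) (u : ℝ) : HasDerivAt (cc γ) (-(γ.2 + 1)) u := by
  unfold cc
  simpa using ((hasDerivAt_id u).const_mul (-((γ.2 : ℝ) + 1))).add_const (de γ : ℝ)

theorem bb_cont (γ : ℕ × ℕ) : Continuous (bb γ) := by unfold bb; fun_prop

theorem cc_cont (γ : ℕ × ℕ) : Continuous (cc γ) := by unfold cc; fun_prop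

theorem tt_der {m : ℕ} {γ : ℕ × ℕ} (h : γ ∈ Gam m) {u : ℝ} (hu : 0 < cc γ u) :
    HasDerivAt (tt γ) (γ.1 / cc γ u ^ 2) u := by
  refine ((bb_der γ u).div (cc_der γ u) hu.ne').congr_deriv ?_
  rw [← bc_id h u]
  ring

theorem ev_not_good (γ : ℕ × ℕ) {L u : ℝ} (hL : 0 < L) (hu : ¬ Good γ L u) :
    ∀ᶠ v in 𝓝 u, ¬ Good γ L v := by
  simp only [good_iff γ hL] at hu ⊢
  exact isClosed_Icc.isOpen_compl.mem_nhds hu

theorem cont_good {m : ℕ} {γ : ℕ × ℕ} (h : γ ∈ Gam m) {L : ℝ} (hL : 2 ≤ L) {f ψ : ℝ → ℂ}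
    (hf : Continuous f) (h0 : ∀ u, ¬ Good γ L u → f u = 0)
    (hψ : ∀ u, 0 < cc γ u → ContinuousAt ψ u) : Continuous fun u => f u * ψ u := by
  rw [continuous_iff_continuousAt]
  intro u
  by_cases hu : Good γ L u
  · exact hf.continuousAt.mul (hψ u (good_facts h hL hu).2.1)
  · have h1 : (fun _ => (0 : ℂ)) =ᶠ[𝓝 u] fun v => f v * ψ v :=
      (ev_not_good γ (by linarith) hu).mono fun v hv => by simp [h0 v hv]
    exact continuousAt_const.congr h1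

/-- Amplitudes attached to a sublattice. -/
structure Amp (γ : ℕ × ℕ) (L B : ℝ) (A A' : ℝ → ℂ) : Prop where
  der : ∀ u, HasDerivAt A (A' u) u
  cont : Continuous A'
  bd : ∀ u, ‖A u‖ ≤ B
  bd' : ∀ u, ‖A' u‖ ≤ B
  zero : ∀ u, ¬ Good γ L u → A u = 0 ∧ A' u = 0

theorem Amp.cont0 {γ : ℕ × ℕ} {L B : ℝ} {A A' : ℝ → ℂ} (a : Amp γ L B A A') : Continuous A :=
  continuous_iff_continuousAt.2 fun u => (a.der u).continuousAt

theorem Amp.der_mul {m : ℕ} {γ : ℕ × ℕ} (h : γ ∈ Gam m) {L B : ℝ} (hL : 2 ≤ L) {A A' : ℝ → ℂ}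
    (a : Amp γ L B A A') {ψ ψ' : ℝ → ℂ} (hψ : ∀ u, 0 < cc γ u → HasDerivAt ψ (ψ' u) u) (u : ℝ) :
    HasDerivAt (fun u => A u * ψ u) (A' u * ψ u + A u * ψ' u) u := by
  by_cases hu : Good γ L u
  · exact (a.der u).mul (hψ u (good_facts h hL hu).2.1)
  · have h1 : (fun v => A v * ψ v) =ᶠ[𝓝 u] fun _ => (0 : ℂ) :=
      (ev_not_good γ (by linarith) hu).mono fun v hv => by simp [(a.zero v hv).1]
    refine ((hasDerivAt_const u (0 : ℂ)).congr_of_eventuallyEq h1).congr_deriv ?_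
    simp [(a.zero u hu).1, (a.zero u hu).2]

theorem Amp.mul {m : ℕ} {γ : ℕ × ℕ} (h : γ ∈ Gam m) {L B B2 : ℝ} (hL : 2 ≤ L) {A A' : ℝ → ℂ}
    (a : Amp γ L B A A') {ψ ψ' : ℝ → ℂ} (hψ : ∀ u, 0 < cc γ u → HasDerivAt ψ (ψ' u) u)
    (hψ' : ∀ u, 0 < cc γ u → ContinuousAt ψ' u) (hB : 0 ≤ B2)
    (hb : ∀ u, Good γ L u → ‖ψ u‖ ≤ B2 ∧ ‖ψ' u‖ ≤ B2) :
    Amp γ L (2 * B * B2) (fun u => A u * ψ u) (fun u => A' u * ψ u + A u * ψ' u) := by
  have hB0 : 0 ≤ B := (norm_nonneg _).trans (a.bd 0)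
  have hBB : 0 ≤ B * B2 := by positivity
  refine ⟨a.der_mul h hL hψ, ?_, fun u => ?_, fun u => ?_, fun u hu => ?_⟩
  · exact (cont_good h hL a.cont (fun u hu => (a.zero u hu).2)
      fun u hu => (hψ u hu).continuousAt).add
      (cont_good h hL a.cont0 (fun u hu => (a.zero u hu).1) hψ')
  · by_cases hu : Good γ L u
    · rw [norm_mul]
      have := mul_le_mul (a.bd u) (hb u hu).1 (norm_nonneg _) hB0
      linarith
    · rw [(a.zero u hu).1, zero_mul, norm_zero]; linarith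
  · by_cases hu : Good γ L u
    · refine (norm_add_le _ _).trans ?_
      rw [norm_mul, norm_mul]
      have h1 := mul_le_mul (a.bd' u) (hb u hu).1 (norm_nonneg _) hB0
      have h2 := mul_le_mul (a.bd u) (hb u hu).2 (norm_nonneg _) hB0
      linarith
    · rw [(a.zero u hu).1, (a.zero u hu).2, zero_mul, zero_mul, add_zero, norm_zero]; linarith
  · simp [(a.zero u hu).1, (a.zero u hu).2]

theorem int_restrict {E : Type} [NormedAddCommGroup E] [NormedSpace ℝ E] (f : ℝ → E)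
    {a b p q : ℝ} (hp : a ≤ p) (hpq : p ≤ q) (hq : q ≤ b)
    (h : ∀ u, u ∉ Set.Icc p q → f u = 0) : ∫ u in a..b, f u = ∫ u in p..q, f u := by
  rw [intervalIntegral.integral_of_le (by linarith), intervalIntegral.integral_of_le hpq,
    ← integral_Icc_eq_integral_Ioc, ← integral_Icc_eq_integral_Ioc]
  exact setIntegral_eq_of_subset_of_forall_sdiff_eq_zero measurableSet_Icc
    (Set.Icc_subset_Icc hp hq) fun x hx => h x hx.2

theorem Tm_cont {m : ℕ} {γ : ℕ × ℕ} (h : γ ∈ Gam m) {L : ℝ} (hL : 2 ≤ L) {f : ℝ → ℂ}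
    (hf : Continuous f) (h0 : ∀ u, ¬ Good γ L u → f u = 0) (N : ℕ) (w : ℝ → ℂ) (lam : ℝ) :
    Continuous fun u => f u * Tt N w lam (tt γ u) :=
  cont_good h hL hf h0 fun _ hu =>
    (Tt_cont N w lam).continuousAt.comp (tt_der h hu).continuousAt

theorem diag_bound {m : ℕ} {γ : ℕ × ℕ} (h : γ ∈ Gam m) {L B Bw lam : ℝ} (hL : 2 ≤ L)
    {A A' : ℝ → ℂ} (a : Amp γ L B A A') {w : ℝ → ℂ} (hw : ∀ x, ‖w x‖ ≤ Bw) (N : ℕ)
    (hl1 : 1 / 2 ≤ lam) (hl2 : lam ≤ 3 / 2) :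
    ∫ u in (-16 : ℝ)..17, ‖A u * Tt N w lam (tt γ u)‖ ^ 2 ≤
      16 * B ^ 2 * (L ^ 5 * (Bw ^ 2 * N)) := by
  have hL0 : 0 < L := by linarith
  have hz : ∀ u, u ∉ Set.Icc (u1 γ L) (u2 γ L) → ‖A u * Tt N w lam (tt γ u)‖ ^ 2 = 0 := by
    intro u hu
    rw [← good_iff γ hL0] at hu
    simp [(a.zero u hu).1]
  by_cases hpq : u1 γ L ≤ u2 γ L
  swap
  · rw [intervalIntegral.integral_congr (g := fun _ => 0)
      (fun u _ => hz u fun hu => hpq (hu.1.trans hu.2))]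
    simp only [intervalIntegral.integral_zero]
    positivity
  have hb := u_bounds h hL0
  rw [int_restrict _ hb.1 hpq (by linarith [hb.2]) hz]
  have hg : ∀ u ∈ Set.uIcc (u1 γ L) (u2 γ L), Good γ L u := fun u hu =>
    (good_iff γ hL0 u).2 (by rwa [Set.uIcc_of_le hpq] at hu)
  set φ : ℝ → ℝ := fun t => ‖Tt N w lam t‖ ^ 2 with hφ
  have hφc : Continuous φ := by have := Tt_cont N w lam; fun_prop
  have hc1 : ContinuousOn (fun u => (γ.1 : ℝ) / cc γ u ^ 2) (Set.uIcc (u1 γ L) (u2 γ L)) :=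
    continuousOn_const.div ((cc_cont γ).pow 2).continuousOn fun u hu =>
      (pow_pos (good_facts h hL (hg u hu)).2.1 2).ne'
  have hc2 : ContinuousOn (tt γ) (Set.uIcc (u1 γ L) (u2 γ L)) := fun u hu =>
    (tt_der h (good_facts h hL (hg u hu)).2.1).continuousAt.continuousWithinAt
  have h1 := intervalIntegral.integral_comp_mul_deriv (a := u1 γ L) (b := u2 γ L)
    (f := tt γ) (f' := fun u => γ.1 / cc γ u ^ 2) (g := φ)
    (fun u hu => tt_der h (good_facts h hL (hg u hu)).2.1) hc1 hφc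
  have g1 := good_facts h hL (hg _ Set.left_mem_uIcc)
  have g2 := good_facts h hL (hg _ Set.right_mem_uIcc)
  have hmono : tt γ (u1 γ L) ≤ tt γ (u2 γ L) := by
    unfold tt
    rw [div_le_div_iff₀ g1.2.1 g2.2.1]
    have e : bb γ (u2 γ L) * cc γ (u1 γ L) - bb γ (u1 γ L) * cc γ (u2 γ L) =
        γ.1 * (u2 γ L - u1 γ L) := by
      rw [← (real_facts h).1]
      unfold bb cc
      ring
    have : (0 : ℝ) ≤ γ.1 * (u2 γ L - u1 γ L) := mul_nonneg (by positivity) (by linarith)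
    linarith
  have h2 := Tt_two hw N hl1 hl2 hL g1.2.2.1 hmono g2.2.2.2.1
  have h3 : ∫ u in u1 γ L..u2 γ L, ‖A u * Tt N w lam (tt γ u)‖ ^ 2 ≤
      ∫ u in u1 γ L..u2 γ L, 16 * B ^ 2 * ((φ ∘ tt γ) u * (γ.1 / cc γ u ^ 2)) := by
    apply intervalIntegral.integral_mono_on hpq
    · have := Tm_cont h hL a.cont0 (fun u hu => (a.zero u hu).1) N w lam
      exact (by fun_prop : Continuous fun u =>
        ‖A u * Tt N w lam (tt γ u)‖ ^ 2).intervalIntegrable _ _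
    · exact (continuousOn_const.mul ((hφc.comp_continuousOn hc2).mul hc1)).intervalIntegrable
    · intro u hu
      have g := good_facts h hL ((good_iff γ hL0 u).2 hu)
      have d1 : 1 ≤ 16 * (γ.1 / cc γ u ^ 2) := by
        rw [← mul_div_assoc, le_div_iff₀ (pow_pos g.2.1 2), one_mul]
        exact g.2.2.2.2
      have d2 : ‖A u‖ ^ 2 ≤ B ^ 2 := pow_le_pow_left₀ (norm_nonneg _) (a.bd u) 2
      rw [norm_mul, mul_pow]
      simp only [Function.comp_apply, hφ]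
      calc _ ≤ B ^ 2 * ‖Tt N w lam (tt γ u)‖ ^ 2 * 1 := by rw [mul_one]; gcongr
        _ ≤ B ^ 2 * ‖Tt N w lam (tt γ u)‖ ^ 2 * (16 * (γ.1 / cc γ u ^ 2)) := by gcongr
        _ = _ := by ring
  rw [intervalIntegral.integral_const_mul, h1] at h3
  exact h3.trans (by gcongr)

/-- The decorrelation estimate with given constants. -/
def Dec (C κ : ℝ) : Prop :=
  ∀ (K L lam p q : ℝ) (a1 a2 a3 a4 b1 b2 b3 b4 : ℤ) (α β : ℤ → ℂ)
    (c c' : ℝ → ℂ), 2 ≤ K → 2 ≤ L → |lam - 1| ≤ 1 / K → -L ≤ p → p ≤ q → q ≤ L →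
    H83.Mob L p q a1 a2 a3 a4 → H83.Mob L p q b1 b2 b3 b4 →
    (b1 * a2 ≠ b2 * a1 ∨ b3 * a4 ≠ b4 * a3) → (b1 * a4 ≠ b2 * a3 ∨ b3 * a2 ≠ b4 * a1) →
    H83.Coef K L α → H83.Coef K L β →
    (∀ u ∈ Set.Icc p q, HasDerivAt c (c' u) u ∧ ‖c u‖ ≤ L ∧ ‖c' u‖ ≤ L) →
    ContinuousOn c' (Set.Icc p q) →
    ‖∫ u in p..q, c u * H83.Th α (lam * ((a1 * u + a2) / (a3 * u + a4)) ^ 2) *
        (starRingEnd ℂ) (H83.Th β (lam * ((b1 * u + b2) / (b3 * u + b4)) ^ 2))‖ ≤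
      L ^ C * K ^ (1 - κ)

theorem mob_of {m : ℕ} {γ : ℕ × ℕ} (h : γ ∈ Gam m) {L L' p q : ℝ} (hL : 2 ≤ L) (h1 : L ≤ L')
    (h2 : 16 * m ≤ L') (hg : ∀ u ∈ Set.Icc p q, Good γ L u) :
    H83.Mob L' p q γ.2 (be γ) (-(γ.2 + 1)) (de γ) := by
  obtain ⟨a1, a2, a3, a4, a5, a6, a7, a8, -⟩ := real_facts h
  have hi : 1 / L' ≤ 1 / L := one_div_le_one_div_of_le (by linarith) h1
  refine ⟨?_, ?_, ?_, ?_, ?_, fun u hu => ?_, fun u hu => ?_, fun u hu => ?_⟩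
  · push_cast; rw [abs_of_nonneg (by positivity)]; linarith
  · push_cast; rw [abs_of_nonneg (by positivity)]; linarith
  · push_cast; rw [abs_neg, abs_of_nonneg (by positivity)]; linarith
  · push_cast; rw [abs_of_nonneg (by positivity)]; linarith
  · have b1 := (basis_facts h).1
    have b2 := (mem_Gam.1 h).2.1.pos
    zify at b1 b2
    linarith
  · have g := (good_facts h hL (hg u hu)).1
    have : 1 / L ≤ m / L := by gcongr
    push_cast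
    exact hi.trans (this.trans g)
  · push_cast
    exact hi.trans (good_facts h hL (hg u hu)).2.2.1
  · push_cast
    exact (good_facts h hL (hg u hu)).2.2.2.1.trans h1

theorem nondeg {m : ℕ} {γ γ' : ℕ × ℕ} (h : γ ∈ Gam m) (h' : γ' ∈ Gam m) (hne : γ ≠ γ') :
    (γ'.2 : ℤ) * be γ ≠ be γ' * γ.2 ∨ -((γ'.2 : ℤ) + 1) * de γ ≠ de γ' * -(γ.2 + 1) := by
  by_contra hh
  push Not at hh
  obtain ⟨e1, e2⟩ := hh
  have cop : ∀ γ ∈ Gam m, Nat.Coprime γ.2 (be γ) := by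
    intro γ h
    have := (Gam_facts h).2.2.2.2
    unfold be
    rw [Nat.Coprime, Nat.gcd_comm, ← Nat.gcd_rec, Nat.gcd_comm]
    exact this
  have e3 : γ'.2 * be γ = be γ' * γ.2 := by exact_mod_cast e1
  have d1 : γ.2 ∣ γ'.2 := (cop γ h).dvd_of_dvd_mul_right ⟨be γ', by rw [e3, mul_comm]⟩
  have d2 : γ'.2 ∣ γ.2 := (cop γ' h').dvd_of_dvd_mul_left ⟨be γ, e3.symm⟩
  have e4 : γ.2 = γ'.2 := Nat.dvd_antisymm d1 d2
  have n1 := (Gam_facts h').2.1
  rw [e4] at e3 e2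
  have e5 : be γ = be γ' := by
    rw [mul_comm] at e3
    exact Nat.eq_of_mul_eq_mul_right n1 e3
  have e6 : de γ = de γ' := by
    rw [mul_comm] at e2
    have := mul_right_cancel₀ (by omega) e2
    exact_mod_cast this
  apply hne
  refine Prod.ext ?_ e4
  rw [← (basis_facts h).1, ← (basis_facts h').1, e4, e5, e6]

theorem off_bound {C κ : ℝ} (hD : Dec C κ) {m : ℕ} {γ γ' : ℕ × ℕ} (h : γ ∈ Gam m) (h' : γ' ∈ Gam m)
    (hne : γ ≠ γ') {K Λ L L' B Bw lam : ℝ} (hK : 2 ≤ K) (hΛ : 0 < Λ) (hL : 2 ≤ L)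
    (hl : |lam - 1| ≤ 1 / K) (h1 : L ≤ L') (h2 : 16 * m ≤ L') (h3 : Λ ≤ L') (h4 : 2 * B ^ 2 ≤ L')
    {A A' A2 A2' : ℝ → ℂ} (a : Amp γ L B A A') (a2 : Amp γ' L B A2 A2') {w : ℝ → ℂ}
    (hw : Cf K Λ Bw w) (hBw : 0 < Bw) {N : ℕ} (hN : Λ * K < N) :
    ‖∫ u in (-16 : ℝ)..17, A u * Tt N w lam (tt γ u) *
      (starRingEnd ℂ) (A2 u * Tt N w lam (tt γ' u))‖ ≤ Bw ^ 2 * (L' ^ C * K ^ (1 - κ)) := by
  have hL0 : 0 < L := by linarith
  have hK0 : 0 < K := by linarith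
  have hL' : 0 < L' := by linarith
  have hm := (real_facts h).2.2.2.2.1
  set p := max (u1 γ L) (u1 γ' L) with hp
  set q := min (u2 γ L) (u2 γ' L) with hq
  have hmem : ∀ u, u ∈ Set.Icc p q ↔ Good γ L u ∧ Good γ' L u := by
    intro u
    simp only [good_iff _ hL0, Set.mem_Icc, hp, hq, max_le_iff, le_min_iff]
    tauto
  have hz : ∀ u, u ∉ Set.Icc p q → A u * Tt N w lam (tt γ u) *
      (starRingEnd ℂ) (A2 u * Tt N w lam (tt γ' u)) = 0 := by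
    intro u hu
    rw [hmem, not_and_or] at hu
    rcases hu with hu | hu
    · simp [(a.zero u hu).1]
    · simp [(a2.zero u hu).1]
  by_cases hpq : p ≤ q
  swap
  · rw [intervalIntegral.integral_congr (g := fun _ => 0)
      (fun u _ => hz u fun hu => hpq (hu.1.trans hu.2))]
    simp only [intervalIntegral.integral_zero, norm_zero]
    positivity
  have hb := u_bounds h hL0
  have hp1 : -16 ≤ p := le_max_of_le_left hb.1
  have hq1 : q ≤ 16 := min_le_of_left_le hb.2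
  rw [int_restrict _ hp1 hpq (by linarith) hz]
  have hB0 : 0 ≤ B := (norm_nonneg _).trans (a.bd 0)
  have key := hD K L' lam p q γ.2 (be γ) (-(γ.2 + 1)) (de γ) γ'.2 (be γ') (-(γ'.2 + 1)) (de γ')
    (fun n => w n / Bw) (fun n => w n / Bw) (fun u => A u * (starRingEnd ℂ) (A2 u))
    (fun u => A' u * (starRingEnd ℂ) (A2 u) + A u * (starRingEnd ℂ) (A2' u)) hK (by linarith) hl
    (by linarith) hpq (by linarith)
    (mob_of h hL h1 h2 fun u hu => ((hmem u).1 hu).1)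
    (mob_of h' hL h1 h2 fun u hu => ((hmem u).1 hu).2) (nondeg h h' hne)
    (Or.inl (by
      have b1 := (basis_facts h).2.2.1
      have b2 := (Gam_facts h').2.1
      have b3 : (0 : ℤ) < γ'.2 * de γ := by positivity
      have b4 : (0 : ℤ) ≤ be γ' * (γ.2 + 1) := by positivity
      intro e
      linarith))
    (hw.coef hK0 hΛ hBw h3) (hw.coef hK0 hΛ hBw h3)
    (fun u _ => ⟨(a.der u).mul (a2.der u).star, by
      rw [norm_mul, Complex.norm_conj]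
      have := mul_le_mul (a.bd u) (a2.bd u) (norm_nonneg _) hB0
      nlinarith, by
      refine (norm_add_le _ _).trans ?_
      rw [norm_mul, norm_mul, Complex.norm_conj, Complex.norm_conj]
      have d1 := mul_le_mul (a.bd' u) (a2.bd u) (norm_nonneg _) hB0
      have d2 := mul_le_mul (a.bd u) (a2.bd' u) (norm_nonneg _) hB0
      nlinarith⟩)
    (((a.cont.mul (Complex.continuous_conj.comp a2.cont0)).add
      (a.cont0.mul (Complex.continuous_conj.comp a2.cont))).continuousOn)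
  have e : ∀ u, A u * Tt N w lam (tt γ u) * (starRingEnd ℂ) (A2 u * Tt N w lam (tt γ' u)) =
      ((Bw ^ 2 : ℝ) : ℂ) * (A u * (starRingEnd ℂ) (A2 u) *
        H83.Th (fun n => w n / Bw) (lam * tt γ u ^ 2) *
        (starRingEnd ℂ) (H83.Th (fun n => w n / Bw) (lam * tt γ' u ^ 2))) := by
    intro u
    rw [hw.Tt_eq hK0 hΛ hBw hN, hw.Tt_eq hK0 hΛ hBw hN]
    simp only [map_mul, Complex.conj_ofReal]
    push_cast
    ring
  simp only [e]
  rw [intervalIntegral.integral_const_mul, norm_mul, Complex.norm_real, Real.norm_eq_abs,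
    abs_of_nonneg (sq_nonneg _)]
  refine mul_le_mul_of_nonneg_left (le_trans (le_of_eq ?_) key) (sq_nonneg _)
  push_cast
  rfl

theorem l2_sum {ι : Type} [DecidableEq ι] (G : Finset ι) (T : ι → ℝ → ℂ)
    (hT : ∀ i ∈ G, Continuous (T i)) {a b D E : ℝ} (hab : a ≤ b) (hE : 0 ≤ E)
    (hd : ∀ i ∈ G, ∫ u in a..b, ‖T i u‖ ^ 2 ≤ D)
    (ho : ∀ i ∈ G, ∀ j ∈ G, i ≠ j → ‖∫ u in a..b, T i u * (starRingEnd ℂ) (T j u)‖ ≤ E) :
    ∫ u in a..b, ‖∑ i ∈ G, T i u‖ ^ 2 ≤ G.card * D + G.card ^ 2 * E := by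
  have h1 : ((∫ u in a..b, ‖∑ i ∈ G, T i u‖ ^ 2 : ℝ) : ℂ) =
      ∑ i ∈ G, ∑ j ∈ G, ∫ u in a..b, T i u * (starRingEnd ℂ) (T j u) := by
    rw [← intervalIntegral.integral_ofReal]
    have e : ∀ u, ((‖∑ i ∈ G, T i u‖ ^ 2 : ℝ) : ℂ) =
        ∑ i ∈ G, ∑ j ∈ G, T i u * (starRingEnd ℂ) (T j u) := by
      intro u
      rw [Complex.ofReal_pow, ← Complex.mul_conj', map_sum, Finset.sum_mul_sum]
    simp only [e]
    rw [intervalIntegral.integral_finsetSum]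
    · refine Finset.sum_congr rfl fun i hi => ?_
      rw [intervalIntegral.integral_finsetSum]
      intro j hj
      exact ((hT i hi).mul (Complex.continuous_conj.comp (hT j hj))).intervalIntegrable _ _
    · intro i hi
      exact (continuous_finsetSum _ fun j hj =>
        (hT i hi).mul (Complex.continuous_conj.comp (hT j hj))).intervalIntegrable _ _
  have h2 := congrArg norm h1
  rw [Complex.norm_real, Real.norm_eq_abs] at h2
  refine (le_abs_self _).trans (h2.le.trans ((norm_sum_le _ _).trans ?_))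
  have h3 : ∀ i ∈ G, ‖∑ j ∈ G, ∫ u in a..b, T i u * (starRingEnd ℂ) (T j u)‖ ≤ D + G.card * E := by
    intro i hi
    refine (norm_sum_le _ _).trans ?_
    have h4 : ∀ j ∈ G, ‖∫ u in a..b, T i u * (starRingEnd ℂ) (T j u)‖ ≤
        (if i = j then D else 0) + E := by
      intro j hj
      split_ifs with e
      · subst e
        simp only [Complex.mul_conj', ← Complex.ofReal_pow]
        rw [intervalIntegral.integral_ofReal, Complex.norm_real, Real.norm_eq_abs, abs_of_nonneg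
          (intervalIntegral.integral_nonneg hab fun _ _ => by positivity)]
        linarith [hd i hi]
      · rw [zero_add]; exact ho i hi j hj e
    refine (Finset.sum_le_sum h4).trans (le_of_eq ?_)
    rw [Finset.sum_add_distrib, Finset.sum_ite_eq, if_pos hi, Finset.sum_const, nsmul_eq_mul]
  refine (Finset.sum_le_card_nsmul _ _ _ h3).trans (le_of_eq ?_)
  rw [nsmul_eq_mul]
  ring

theorem l2_amp {C κ : ℝ} (hD : Dec C κ) (m : ℕ) {K Λ L L' B Bw lam : ℝ} (hK : 2 ≤ K) (hΛ : 0 < Λ)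
    (hL : 2 ≤ L) (hl : |lam - 1| ≤ 1 / K) (h1 : L ≤ L') (h2 : 16 * m ≤ L') (h3 : Λ ≤ L')
    (h4 : 2 * B ^ 2 ≤ L') {A A' : ℕ × ℕ → ℝ → ℂ} (a : ∀ γ ∈ Gam m, Amp γ L B (A γ) (A' γ))
    {w : ℝ → ℂ} (hw : Cf K Λ Bw w) (hBw : 0 < Bw) {N : ℕ} (hN : Λ * K < N) :
    ∫ u in (-16 : ℝ)..17, ‖∑ γ ∈ Gam m, A γ u * Tt N w lam (tt γ u)‖ ^ 2 ≤
      (Gam m).card * (16 * B ^ 2 * (L ^ 5 * (Bw ^ 2 * N))) +
        (Gam m).card ^ 2 * (Bw ^ 2 * (L' ^ C * K ^ (1 - κ))) := by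
  have hl' := abs_le.1 (hl.trans (one_div_le_one_div_of_le (by norm_num) hK))
  have hL' : 0 < L' := by linarith
  have hK0 : 0 < K := by linarith
  exact l2_sum (Gam m) (fun γ u => A γ u * Tt N w lam (tt γ u))
    (fun γ h => Tm_cont h hL (a γ h).cont0 (fun u hu => ((a γ h).zero u hu).1) N w lam)
    (by norm_num) (by positivity)
    (fun γ h => diag_bound h hL (a γ h) hw.bd N (by linarith) (by linarith))
    (fun γ h γ' h' hne => off_bound hD h h' hne hK hΛ hL hl h1 h2 h3 h4 (a γ h) (a γ' h') hw hBw hN)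

end Pool.Agent.MP_74e98a_nt.H25
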