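import Mathlib

set_option autoImplicit false

open Finset MeasureTheory

namespace Pool.Agent.MP_74e98a_nt.H25

theorem gall_one (f f' : ℝ → ℂ) (hf : ∀ x, HasDerivAt f (f' x) x) (hf' : Continuous f')
    (s δ T : ℝ) (hδ : 0 < δ) (hT : 0 < T) :
    ‖f s‖ ^ 2 ≤ ∫ x in s..s + δ, ((1 / δ + T) * ‖f x‖ ^ 2 + 1 / T * ‖f' x‖ ^ 2) := by
  have hc : Continuous f := continuous_iff_continuousAt.2 fun x => (hf x).continuousAt
  set H : ℝ → ℝ := fun x => T * ‖f x‖ ^ 2 + 1 / T * ‖f' x‖ ^ 2 with hH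
  have hHc : Continuous H := by fun_prop
  have hH0 : ∀ x, 0 ≤ H x := fun x => by positivity
  have hd : ∀ x, HasDerivAt (fun y => ‖f y‖ ^ 2) (2 * inner ℝ (f x) (f' x)) x :=
    fun x => (hf x).norm_sq
  have hdc : Continuous fun x => 2 * inner ℝ (f x) (f' x) := by fun_prop
  have hb : ∀ x, -(2 * inner ℝ (f x) (f' x)) ≤ H x := by
    intro x
    have h1 := abs_real_inner_le_norm (f x) (f' x)
    have h2 := neg_abs_le (inner ℝ (f x) (f' x))
    have h3 : 2 * (‖f x‖ * ‖f' x‖) ≤ H x := by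
      have h4 : 0 ≤ (T * ‖f x‖ - ‖f' x‖) ^ 2 / T := by positivity
      have h5 : (T * ‖f x‖ - ‖f' x‖) ^ 2 / T = H x - 2 * (‖f x‖ * ‖f' x‖) := by
        simp only [hH]; field_simp; ring
      linarith
    linarith
  have h1 : ∀ x ∈ Set.Icc s (s + δ), ‖f s‖ ^ 2 ≤ ‖f x‖ ^ 2 + ∫ y in s..s + δ, H y := by
    intro x hx
    have h2 := intervalIntegral.integral_eq_sub_of_hasDerivAt (a := s) (b := x)
      (fun y _ => hd y) (hdc.intervalIntegrable _ _)
    have h3 : ∫ y in s..x, -(2 * inner ℝ (f y) (f' y)) ≤ ∫ y in s..x, H y :=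
      intervalIntegral.integral_mono_on hx.1 (hdc.neg.intervalIntegrable _ _)
        (hHc.intervalIntegrable _ _) fun y _ => hb y
    have h4 : ∫ y in s..x, H y ≤ ∫ y in s..s + δ, H y :=
      intervalIntegral.integral_mono_interval le_rfl hx.1 hx.2
        (Filter.Eventually.of_forall hH0) (hHc.intervalIntegrable _ _)
    rw [intervalIntegral.integral_neg] at h3
    linarith
  have h2 : ∫ _ in s..s + δ, ‖f s‖ ^ 2 ≤
      ∫ x in s..s + δ, (‖f x‖ ^ 2 + ∫ y in s..s + δ, H y) :=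
    intervalIntegral.integral_mono_on (by linarith) (by simp)
      ((by fun_prop : Continuous fun x => ‖f x‖ ^ 2 + ∫ y in s..s + δ, H y).intervalIntegrable _ _)
      h1
  have hF : Continuous fun x => ‖f x‖ ^ 2 := by fun_prop
  rw [intervalIntegral.integral_add (hF.intervalIntegrable _ _) (by simp)] at h2
  simp only [intervalIntegral.integral_const, add_sub_cancel_left, smul_eq_mul] at h2
  have h3 : ∫ x in s..s + δ, ((1 / δ + T) * ‖f x‖ ^ 2 + 1 / T * ‖f' x‖ ^ 2) =
      1 / δ * (∫ x in s..s + δ, ‖f x‖ ^ 2) + ∫ y in s..s + δ, H y := by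
    rw [← intervalIntegral.integral_const_mul, ← intervalIntegral.integral_add
      ((hF.const_mul _).intervalIntegrable _ _) (hHc.intervalIntegrable _ _)]
    congr 1
    ext x
    simp only [hH]
    ring
  rw [h3]
  have h4 : δ * ‖f s‖ ^ 2 ≤ δ * (1 / δ * (∫ x in s..s + δ, ‖f x‖ ^ 2) + ∫ y in s..s + δ, H y) := by
    rw [mul_add, ← mul_assoc, mul_one_div_cancel hδ.ne', one_mul]
    exact h2
  exact le_of_mul_le_mul_left h4 hδ

theorem sum_int_le {ι : Type} (R : Finset ι) (pt : ι → ℝ) (φ : ℝ → ℝ) (hφ : Continuous φ)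
    (h0 : ∀ x, 0 ≤ φ x) (a b δ : ℝ) (hδ : 0 < δ) (hab : a ≤ b)
    (hR : ∀ r ∈ R, a ≤ pt r ∧ pt r ≤ b)
    (hsep : ∀ r ∈ R, ∀ r' ∈ R, r ≠ r' → δ ≤ |pt r - pt r'|) :
    ∑ r ∈ R, ∫ x in pt r..pt r + δ, φ x ≤ ∫ x in a..b + δ, φ x := by
  have h1 : ∀ r ∈ R, ∫ x in pt r..pt r + δ, φ x = ∫ x in Set.Ioc (pt r) (pt r + δ), φ x :=
    fun r _ => intervalIntegral.integral_of_le (by linarith)
  rw [Finset.sum_congr rfl h1, ← integral_biUnion_finset R (fun _ _ => measurableSet_Ioc),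
    intervalIntegral.integral_of_le (by linarith)]
  · apply setIntegral_mono_set
    · exact (hφ.integrableOn_Icc).mono_set Set.Ioc_subset_Icc_self
    · exact Filter.Eventually.of_forall h0
    · apply LE.le.eventuallyLE
      intro x hx
      simp only [Set.mem_iUnion, Set.mem_Ioc] at hx ⊢
      obtain ⟨r, hr, h2, h3⟩ := hx
      have := hR r hr
      constructor <;> linarith [this.1, this.2]
  · intro r hr r' hr' hne
    have := hsep r hr r' hr' hne
    rw [Function.onFun, Set.disjoint_left]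
    intro x h2 h3
    rw [Set.mem_Ioc] at h2 h3
    rw [le_abs] at this
    rcases this with h | h <;> linarith [h2.1, h2.2, h3.1, h3.2]
  · intro r _
    exact (hφ.integrableOn_Icc).mono_set Set.Ioc_subset_Icc_self

/-- Gallagher's inequality. -/
theorem gallagher {ι : Type} (R : Finset ι) (pt : ι → ℝ) (f f' : ℝ → ℂ)
    (hf : ∀ x, HasDerivAt f (f' x) x) (hf' : Continuous f') (a b δ T : ℝ) (hδ : 0 < δ)
    (hδ1 : δ ≤ 1) (hT : 0 < T) (hab : a ≤ b) (hR : ∀ r ∈ R, a ≤ pt r ∧ pt r ≤ b)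
    (hsep : ∀ r ∈ R, ∀ r' ∈ R, r ≠ r' → δ ≤ |pt r - pt r'|) :
    ∑ r ∈ R, ‖f (pt r)‖ ^ 2 ≤
      (1 / δ + T) * (∫ x in a..b + 1, ‖f x‖ ^ 2) + 1 / T * ∫ x in a..b + 1, ‖f' x‖ ^ 2 := by
  have hc : Continuous f := continuous_iff_continuousAt.2 fun x => (hf x).continuousAt
  have hφ : Continuous fun x => (1 / δ + T) * ‖f x‖ ^ 2 + 1 / T * ‖f' x‖ ^ 2 := by fun_prop
  refine (Finset.sum_le_sum fun r _ => gall_one f f' hf hf' (pt r) δ T hδ hT).trans ?_
  refine (sum_int_le R pt _ hφ (fun x => by positivity) a b δ hδ hab hR hsep).trans ?_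
  refine (intervalIntegral.integral_mono_interval (d := b + 1) le_rfl (by linarith) (by linarith)
    (Filter.Eventually.of_forall fun x => by positivity) (hφ.intervalIntegrable _ _)).trans ?_
  rw [intervalIntegral.integral_add
    ((by fun_prop : Continuous fun x => (1 / δ + T) * ‖f x‖ ^ 2).intervalIntegrable _ _)
    ((by fun_prop : Continuous fun x => 1 / T * ‖f' x‖ ^ 2).intervalIntegrable _ _),
    intervalIntegral.integral_const_mul, intervalIntegral.integral_const_mul]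

theorem rat_sep (r r' : ℚ) (Y : ℕ) (h : r.den ≤ Y) (h' : r'.den ≤ Y) (hne : r ≠ r') :
    1 / (Y : ℝ) ^ 2 ≤ |(r : ℝ) - r'| := by
  have d1 : (0 : ℝ) < r.den := by exact_mod_cast r.den_pos
  have d2 : (0 : ℝ) < r'.den := by exact_mod_cast r'.den_pos
  have e1 : (r : ℝ) = r.num / r.den := by exact_mod_cast (Rat.num_div_den r).symm
  have e2 : (r' : ℝ) = r'.num / r'.den := by exact_mod_cast (Rat.num_div_den r').symm
  have h1 : r.num * r'.den - r'.num * r.den ≠ 0 := by
    intro h0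
    apply hne
    rw [Rat.eq_iff_mul_eq_mul]
    linarith
  have h2 : (1 : ℝ) ≤ |((r.num * r'.den - r'.num * r.den : ℤ) : ℝ)| := by
    exact_mod_cast Int.one_le_abs h1
  have h3 : (r : ℝ) - r' = ((r.num * r'.den - r'.num * r.den : ℤ) : ℝ) / (r.den * r'.den) := by
    rw [e1, e2]; push_cast; field_simp
  rw [h3, abs_div, abs_of_pos (mul_pos d1 d2)]
  have h4 : (r.den : ℝ) ≤ Y := by exact_mod_cast h
  have h5 : (r'.den : ℝ) ≤ Y := by exact_mod_cast h'
  calc 1 / (Y : ℝ) ^ 2 ≤ 1 / (r.den * r'.den) := by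
        apply one_div_le_one_div_of_le (mul_pos d1 d2)
        nlinarith
    _ ≤ _ := by gcongr

/-- Cauchy-Schwarz over fractions counted with multiplicity. -/
theorem frac_CS (P : Finset (ℤ × ℤ)) (Y A : ℕ)
    (hP : ∀ v ∈ P, 1 ≤ v.2 ∧ v.2 ≤ Y ∧ |v.1| ≤ A * v.2) (H : ℚ → ℝ) :
    (∑ v ∈ P, H ((v.1 : ℚ) / v.2)) ^ 2 ≤
      ((2 * A + 1) * Y ^ 2 * (1 + Real.log Y)) *
        ∑ r ∈ P.image (fun v => (v.1 : ℚ) / v.2), H r ^ 2 := by
  set q : ℤ × ℤ → ℚ := fun v => (v.1 : ℚ) / v.2 with hq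
  rw [Finset.sum_comp H q]
  simp only [nsmul_eq_mul]
  refine (Finset.sum_mul_sq_le_sq_mul_sq _ _ _).trans ?_
  refine mul_le_mul_of_nonneg_right ?_ (Finset.sum_nonneg fun _ _ => sq_nonneg _)
  have hden : ∀ v ∈ P, ((q v).den : ℤ) ∣ v.2 := by
    intro v _
    have := Rat.den_dvd v.1 v.2
    rwa [Rat.divInt_eq_div] at this
  have h1 : ∀ r ∈ P.image q, ((P.filter fun v => q v = r).card : ℝ) ≤ Y / r.den := by
    intro r _
    have h2 : (P.filter fun v => q v = r).card ≤ ((Ioc 0 Y).filter fun y => r.den ∣ y).card := by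
      apply Finset.card_le_card_of_injOn (fun v => v.2.toNat)
      · intro v hv
        simp only [coe_filter, Set.mem_ofPred_eq, mem_Ioc] at hv ⊢
        obtain ⟨h3, h4, -⟩ := hP v hv.1
        have h5 := hden v hv.1
        rw [hv.2] at h5
        refine ⟨⟨by omega, by omega⟩, ?_⟩
        rw [← Int.natCast_dvd_natCast, Int.toNat_of_nonneg (by omega)]
        exact h5
      · intro v hv w hw e
        simp only [coe_filter, Set.mem_ofPred_eq] at hv hw
        have h3 := (hP v hv.1).1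
        have h4 := (hP w hw.1).1
        have h5 : v.2 = w.2 := by simp only at e; omega
        have h6 : q v = q w := hv.2.trans hw.2.symm
        simp only [hq, h5] at h6
        have h7 : (w.2 : ℚ) ≠ 0 := by exact_mod_cast (by omega : w.2 ≠ 0)
        rw [div_left_inj' h7] at h6
        exact Prod.ext (by exact_mod_cast h6) h5
    rw [Nat.Ioc_filter_dvd_card_eq_div] at h2
    exact (Nat.cast_le.2 h2).trans Nat.cast_div_le
  have h2 : ∀ r ∈ P.image q, r.den ∈ Icc 1 Y ∧ |r.num| ≤ A * r.den := by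
    intro r hr
    obtain ⟨v, hv, rfl⟩ := mem_image.1 hr
    obtain ⟨h3, h4, h5⟩ := hP v hv
    have h6 := Int.le_of_dvd (by omega) (hden v hv)
    refine ⟨mem_Icc.2 ⟨(q v).den_pos, by omega⟩, ?_⟩
    have h7 : (0 : ℚ) < v.2 := by exact_mod_cast (by omega : 0 < v.2)
    have h8 : |q v| ≤ A := by
      simp only [hq]
      rw [abs_div, abs_of_pos h7, div_le_iff₀ h7]
      exact_mod_cast h5
    have h9 : ((q v).num : ℚ) = q v * (q v).den := (Rat.mul_den_eq_num _).symm
    have h10 : |((q v).num : ℚ)| ≤ A * (q v).den := by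
      rw [h9, abs_mul, abs_of_nonneg (a := ((q v).den : ℚ)) (by positivity)]
      gcongr
    exact_mod_cast h10
  calc ∑ r ∈ P.image q, ((P.filter fun v => q v = r).card : ℝ) ^ 2
      ≤ ∑ r ∈ P.image q, ((Y : ℝ) / r.den) ^ 2 :=
        Finset.sum_le_sum fun r hr => pow_le_pow_left₀ (by positivity) (h1 r hr) 2
    _ = ∑ d ∈ Icc 1 Y, ∑ r ∈ (P.image q).filter (fun r => r.den = d), ((Y : ℝ) / r.den) ^ 2 :=
        (Finset.sum_fiberwise_of_maps_to (fun r hr => (h2 r hr).1) _).symm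
    _ ≤ ∑ d ∈ Icc 1 Y, (2 * A + 1) * (Y : ℝ) ^ 2 * (d : ℝ)⁻¹ := by
        refine Finset.sum_le_sum fun d hd => ?_
        have hd1 : (1 : ℝ) ≤ d := by exact_mod_cast (mem_Icc.1 hd).1
        rw [Finset.sum_congr rfl (g := fun _ => ((Y : ℝ) / d) ^ 2)
          (fun r hr => by rw [(mem_filter.1 hr).2]), Finset.sum_const, nsmul_eq_mul]
        have h3 : ((P.image q).filter (fun r => r.den = d)).card ≤
            (Icc (-(A * d : ℤ)) (A * d)).card := by
          apply Finset.card_le_card_of_injOn (fun r => r.num)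
          · intro r hr
            simp only [coe_filter, Set.mem_ofPred_eq, coe_Icc, Set.mem_Icc] at hr ⊢
            have := (h2 r hr.1).2
            rw [hr.2] at this
            exact abs_le.1 this
          · intro r hr r' hr' e
            simp only [coe_filter, Set.mem_ofPred_eq] at hr hr'
            exact Rat.ext e (hr.2.trans hr'.2.symm)
        have h4 : (((P.image q).filter (fun r => r.den = d)).card : ℝ) ≤ 2 * A * d + 1 := by
          have h5 : (((Icc (-(A * d : ℤ)) (A * d)).card : ℕ) : ℤ) = 2 * A * d + 1 := by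
            rw [Int.card_Icc, Int.toNat_of_nonneg (by nlinarith [mul_nonneg (Nat.cast_nonneg (α := ℤ) A) (Nat.cast_nonneg (α := ℤ) d)])]
            ring
          have h6 : (((P.image q).filter (fun r => r.den = d)).card : ℤ) ≤ 2 * A * d + 1 := by
            rw [← h5]; exact_mod_cast h3
          exact_mod_cast h6
        have h5 : (2 * A * d + 1 : ℝ) ≤ (2 * A + 1) * d := by nlinarith
        calc _ ≤ ((2 * A + 1) * d) * ((Y : ℝ) / d) ^ 2 := by gcongr; exact h4.trans h5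
          _ = _ := by field_simp
    _ ≤ _ := by
        rw [← Finset.mul_sum]
        refine mul_le_mul_of_nonneg_left ?_ (by positivity)
        have := harmonic_le_one_add_log Y
        rw [harmonic_eq_sum_Icc] at this
        push_cast at this
        exact this

/-- Large sieve inequality at fractions with multiplicity. -/
theorem frac_gall (P : Finset (ℤ × ℤ)) (Y A : ℕ) (hY : 1 ≤ Y) (a b T : ℝ) (hT : 0 < T)
    (hab : a ≤ b)
    (hP : ∀ v ∈ P, 1 ≤ v.2 ∧ v.2 ≤ Y ∧ |v.1| ≤ A * v.2 ∧ a ≤ (v.1 : ℝ) / v.2 ∧ (v.1 : ℝ) / v.2 ≤ b)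
    (f f' : ℝ → ℂ) (hf : ∀ x, HasDerivAt f (f' x) x) (hf' : Continuous f') :
    (∑ v ∈ P, ‖f ((v.1 : ℝ) / v.2)‖) ^ 2 ≤
      ((2 * A + 1) * Y ^ 2 * (1 + Real.log Y)) *
        ((Y ^ 2 + T) * (∫ x in a..b + 1, ‖f x‖ ^ 2) + 1 / T * ∫ x in a..b + 1, ‖f' x‖ ^ 2) := by
  have hY' : (1 : ℝ) ≤ Y := by exact_mod_cast hY
  have h1 := frac_CS P Y A (fun v hv => ⟨(hP v hv).1, (hP v hv).2.1, (hP v hv).2.2.1⟩)
    (fun r => ‖f r‖)
  push_cast at h1
  refine h1.trans (mul_le_mul_of_nonneg_left ?_ ?_)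
  · have h2 := gallagher (P.image (fun v => (v.1 : ℚ) / v.2)) (fun r => (r : ℝ)) f f' hf hf' a b
      (1 / (Y : ℝ) ^ 2) T (by positivity) (by
        rw [div_le_one (by positivity)]; nlinarith) hT hab ?_ ?_
    · rwa [one_div_one_div] at h2
    · intro r hr
      obtain ⟨v, hv, rfl⟩ := mem_image.1 hr
      push_cast
      exact (hP v hv).2.2.2
    · have h3 : ∀ r ∈ P.image (fun v => (v.1 : ℚ) / v.2), r.den ≤ Y := by
        intro r hr
        obtain ⟨v, hv, rfl⟩ := mem_image.1 hr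
        have h4 := Rat.den_dvd v.1 v.2
        rw [Rat.divInt_eq_div] at h4
        have h5 := Int.le_of_dvd (by have := (hP v hv).1; omega) h4
        have := (hP v hv).2.1
        omega
      intro r hr r' hr' hne
      exact rat_sep r r' Y (h3 r hr) (h3 r' hr') hne
  · have := Real.log_nonneg hY'
    positivity

end Pool.Agent.MP_74e98a_nt.H25
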