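import Mathlib
import Pool.Agent.MP_74e98a_nt.H25.Amp
import Pool.Agent.MP_74e98a_nt.H25.Gall

set_option autoImplicit false

open Finset Filter Topology MeasureTheory

namespace Pool.Agent.MP_74e98a_nt.H25

variable {K Λ : ℝ}

theorem cle (hΛ : 2 ≤ Λ) {c : ℝ} (k : ℕ) (h : c ≤ 2 ^ k) : c ≤ Λ ^ k :=
  h.trans (pow_le_pow_left₀ (by norm_num) hΛ k)

theorem ple (hΛ : 2 ≤ Λ) {j k : ℕ} (h : j ≤ k) : Λ ^ j ≤ Λ ^ k :=
  pow_le_pow_right₀ (by linarith) h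

/-- The weight of the point `ρ (bb, cc)`. -/
noncomputable def amp (γ : ℕ × ℕ) (ρ : ℝ) (h2 h3 : ℝ → ℂ) (u : ℝ) : ℂ :=
  Lg h2 (ρ * bb γ u) * Lg h3 (ρ * cc γ u)

/-- Its derivative. -/
noncomputable def amp' (γ : ℕ × ℕ) (ρ : ℝ) (h2 h2' h3 h3' : ℝ → ℂ) (u : ℝ) : ℂ :=
  (ρ * γ.2 : ℝ) • (Lg h2' (ρ * bb γ u) / (ρ * bb γ u : ℝ)) * Lg h3 (ρ * cc γ u) +
    Lg h2 (ρ * bb γ u) * (ρ * -(γ.2 + 1) : ℝ) • (Lg h3' (ρ * cc γ u) / (ρ * cc γ u : ℝ))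

theorem pair_supp {m : ℕ} {γ : ℕ × ℕ} (h : γ ∈ Gam m) (hK : 0 < K) (hΛ : 0 < Λ) {k2 k3 : ℝ → ℂ}
    (w2 : W0 K Λ k2) (w3 : W0 K Λ k3) {ρ u : ℝ} (hρ : 0 < ρ) (e2 : Lg k2 (ρ * bb γ u) ≠ 0)
    (e3 : Lg k3 (ρ * cc γ u) ≠ 0) : Good γ (Λ ^ 2) u ∧ ρ * m ≤ Λ * K := by
  obtain ⟨a1, a2⟩ := w2.range_Lg hK hΛ e2
  obtain ⟨a3, a4⟩ := w3.range_Lg hK hΛ e3
  rw [div_le_iff₀ hΛ] at a1 a3
  obtain ⟨-, -, -, -, a5, a6, a7, a8, -⟩ := real_facts h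
  refine ⟨⟨le_of_mul_le_mul_left ?_ hρ, le_of_mul_le_mul_left ?_ hρ⟩, ?_⟩
  · nlinarith
  · nlinarith
  · have e := bc_id h u
    have b1 : (γ.2 + 1) * (ρ * bb γ u) ≤ (2 * m) * (Λ * K) :=
      (mul_le_mul_of_nonneg_left a2 (by positivity)).trans (by gcongr)
    have b2 : γ.2 * (ρ * cc γ u) ≤ (2 * m) * (Λ * K) :=
      (mul_le_mul_of_nonneg_left a4 (by positivity)).trans (by gcongr; linarith)
    have b3 : ρ * (4 * m ^ 2) ≤ ρ * γ.1 := by gcongr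
    have b4 : (4 * m) * (ρ * m) ≤ (4 * m) * (Λ * K) := by
      rw [← e] at b3
      nlinarith
    exact le_of_mul_le_mul_left b4 (by positivity)

theorem amp_Amp {m : ℕ} {γ : ℕ × ℕ} (h : γ ∈ Gam m) (hK : 0 < K) (hΛ : 2 ≤ Λ)
    {h2 h2' h3 h3' : ℝ → ℂ} (w2 : W1 K Λ h2 h2') (w3 : W1 K Λ h3 h3') {ρ : ℝ} (hρ : 0 < ρ) :
    Amp γ (Λ ^ 2) (4 * Λ ^ 4) (amp γ ρ h2 h3) (amp' γ ρ h2 h2' h3 h3') := by
  have hΛ0 : 0 < Λ := by linarith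
  obtain ⟨-, -, -, -, a5, a6, a7, -⟩ := real_facts h
  have cb := bb_cont γ
  have cc' := cc_cont γ
  refine ⟨fun u => ?_, ?_, fun u => ?_, fun u => ?_, fun u hu => ?_⟩
  · exact ((w2.der_Lg hK hΛ0 _).scomp u ((bb_der γ u).const_mul ρ)).mul
      ((w3.der_Lg hK hΛ0 _).scomp u ((cc_der γ u).const_mul ρ))
  · have c1 := (w2.w'.cont_Lg_div hK hΛ0).comp (show Continuous fun u => ρ * bb γ u by fun_prop)
    have c2 := (w3.w'.cont_Lg_div hK hΛ0).comp (show Continuous fun u => ρ * cc γ u by fun_prop)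
    have c3 := (w2.w.cont_Lg hK hΛ0).comp (show Continuous fun u => ρ * bb γ u by fun_prop)
    have c4 := (w3.w.cont_Lg hK hΛ0).comp (show Continuous fun u => ρ * cc γ u by fun_prop)
    exact ((c1.const_smul (ρ * γ.2 : ℝ)).mul c4).add (c3.mul (c2.const_smul (ρ * -(γ.2 + 1) : ℝ)))
  · rw [amp, norm_mul]
    have := mul_le_mul (w2.w.norm_Lg (ρ * bb γ u)) (w3.w.norm_Lg (ρ * cc γ u)) (norm_nonneg _) hΛ0.le
    have h1 := ple hΛ (show 2 ≤ 4 by norm_num)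
    nlinarith [pow_pos hΛ0 4]
  · have key : ∀ (x y : ℂ) (r : ℝ), ‖x‖ ≤ Λ ^ 2 / K → ‖y‖ ≤ Λ → |r| ≤ 2 * (Λ * K) →
        ‖r • x‖ * ‖y‖ ≤ 2 * Λ ^ 4 := by
      intro x y r hx hy hr
      rw [norm_smul, Real.norm_eq_abs]
      calc _ ≤ 2 * (Λ * K) * (Λ ^ 2 / K) * Λ := by gcongr
        _ = _ := by field_simp
    have t1 : ‖(ρ * γ.2 : ℝ) • (Lg h2' (ρ * bb γ u) / (ρ * bb γ u : ℝ)) * Lg h3 (ρ * cc γ u)‖ ≤
        2 * Λ ^ 4 := by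
      by_cases e2 : Lg h2' (ρ * bb γ u) = 0
      · simp only [e2, zero_div, smul_zero, zero_mul, norm_zero]; positivity
      by_cases e3 : Lg h3 (ρ * cc γ u) = 0
      · simp only [e3, mul_zero, norm_zero]; positivity
      have := (pair_supp h hK hΛ0 w2.w' w3.w hρ e2 e3).2
      rw [norm_mul]
      refine key _ _ _ (w2.w'.norm_Lg_div hK hΛ0 _) (w3.w.norm_Lg _) ?_
      rw [abs_of_nonneg (by positivity)]
      nlinarith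
    have t2 : ‖Lg h2 (ρ * bb γ u) *
        (ρ * -(γ.2 + 1) : ℝ) • (Lg h3' (ρ * cc γ u) / (ρ * cc γ u : ℝ))‖ ≤ 2 * Λ ^ 4 := by
      by_cases e2 : Lg h2 (ρ * bb γ u) = 0
      · simp only [e2, zero_mul, norm_zero]; positivity
      by_cases e3 : Lg h3' (ρ * cc γ u) = 0
      · simp only [e3, zero_div, smul_zero, mul_zero, norm_zero]; positivity
      have := (pair_supp h hK hΛ0 w2.w w3.w' hρ e2 e3).2
      rw [norm_mul, mul_comm]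
      refine key _ _ _ (w3.w'.norm_Lg_div hK hΛ0 _) (w2.w.norm_Lg _) ?_
      rw [mul_neg, abs_neg, abs_of_nonneg (by positivity)]
      nlinarith
    exact (norm_add_le _ _).trans (by linarith)
  · have z : ∀ {k2 k3 : ℝ → ℂ}, W0 K Λ k2 → W0 K Λ k3 →
        Lg k2 (ρ * bb γ u) = 0 ∨ Lg k3 (ρ * cc γ u) = 0 := by
      intro k2 k3 v2 v3
      by_contra hh
      push Not at hh
      exact hu (pair_supp h hK hΛ0 v2 v3 hρ hh.1 hh.2).1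
    unfold amp amp'
    refine ⟨mul_eq_zero.2 (z w2.w w3.w), ?_⟩
    rcases z w2.w' w3.w with e | e <;> rcases z w2.w w3.w' with e' | e' <;> simp [e, e']

/-- The factor `t t'`. -/
noncomputable def kap (γ : ℕ × ℕ) (u : ℝ) : ℂ := (tt γ u * (γ.1 / cc γ u ^ 2) : ℝ)

/-- Its derivative. -/
noncomputable def kap' (γ : ℕ × ℕ) (u : ℝ) : ℂ :=
  ((γ.1 / cc γ u ^ 2) ^ 2 + tt γ u * (2 * γ.1 * (γ.2 + 1) / cc γ u ^ 3) : ℝ)

theorem Amp.mul_kap {m : ℕ} {γ : ℕ × ℕ} (h : γ ∈ Gam m) {L B : ℝ} (hL : 2 ≤ L) {A A' : ℝ → ℂ}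
    (a : Amp γ L B A A') : Amp γ L (2 * B * (320 * L ^ 4)) (fun u => A u * kap γ u)
      (fun u => A' u * kap γ u + A u * kap' γ u) := by
  obtain ⟨-, -, -, -, a5, a6, a7, a8, a9⟩ := real_facts h
  have hL0 : 0 < L := by linarith
  refine a.mul h hL (fun u hu => ?_) (fun u hu => ?_) (by positivity) (fun u hu => ?_)
  · have h1 : HasDerivAt (fun u => (γ.1 : ℝ) / cc γ u ^ 2)
        (2 * γ.1 * (γ.2 + 1) / cc γ u ^ 3) u := by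
      refine ((hasDerivAt_const u (γ.1 : ℝ)).div ((cc_der γ u).pow 2) (pow_pos hu 2).ne').congr_deriv ?_
      simp only [Pi.pow_apply]
      field_simp
      push_cast
      ring
    refine ((tt_der h hu).mul h1).ofReal_comp.congr_deriv ?_
    unfold kap'
    rw [sq (γ.1 / cc γ u ^ 2 : ℝ)]
  · have c1 := (tt_der h hu).continuousAt
    have c2 := (cc_cont γ).continuousAt (x := u)
    unfold kap'
    refine Complex.continuous_ofReal.continuousAt.comp ?_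
    exact ((continuousAt_const.div (c2.pow 2) (pow_pos hu 2).ne').pow 2).add
      (c1.mul (continuousAt_const.div (c2.pow 3) (pow_pos hu 3).ne'))
  · obtain ⟨g1, g2, g3, g4, -⟩ := good_facts h hL hu
    have t0 : 0 ≤ tt γ u := le_trans (by positivity) g3
    have b1 : (γ.1 : ℝ) / cc γ u ^ 2 ≤ 16 * L ^ 2 := by
      calc _ ≤ 16 * m ^ 2 / (m / L) ^ 2 := by gcongr
        _ = _ := by field_simp
    have b2 : 2 * γ.1 * (γ.2 + 1) / cc γ u ^ 3 ≤ 64 * L ^ 3 := by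
      calc _ ≤ 2 * (16 * m ^ 2) * (2 * m) / (m / L) ^ 3 := by gcongr
        _ = _ := by field_simp; ring
    unfold kap kap'
    rw [Complex.norm_real, Complex.norm_real, Real.norm_eq_abs, Real.norm_eq_abs,
      abs_of_nonneg (by positivity), abs_of_nonneg (by positivity)]
    constructor
    · calc _ ≤ L * (16 * L ^ 2) := by gcongr
        _ = 16 * L ^ 3 * 1 := by ring
        _ ≤ 320 * L ^ 3 * L := by gcongr <;> linarith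
        _ = _ := by ring
    · calc _ ≤ (16 * L ^ 2) ^ 2 + L * (64 * L ^ 3) := by gcongr
        _ = _ := by ring

theorem norm_Tt_le {B : ℝ} {w : ℝ → ℂ} (h : ∀ x, ‖w x‖ ≤ B) (N : ℕ) (lam t : ℝ) :
    ‖Tt N w lam t‖ ≤ N * B := norm_th_le N _ B (fun a => h a) _

theorem norm_k0 {lam : ℝ} (hl1 : 1 / 2 ≤ lam) (hl2 : lam ≤ 3 / 2) (K : ℝ) :
    ‖-(2 * Real.pi * Complex.I * (lam * K ^ 2 : ℝ))‖ ≤ 10 * K ^ 2 := by
  rw [norm_neg, norm_mul, norm_mul, norm_mul, Complex.norm_I, Complex.norm_real, Complex.norm_real,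
    Complex.norm_two, Real.norm_eq_abs, Real.norm_eq_abs, abs_of_pos Real.pi_pos,
    abs_of_nonneg (by positivity)]
  have := Real.pi_lt_d2
  have h1 : 2 * Real.pi * 1 * lam ≤ 10 := by nlinarith [Real.pi_pos]
  nlinarith [sq_nonneg K]

/-- The size of the mean squares. -/
noncomputable def QQ (C κ K Λ : ℝ) (m : ℕ) : ℝ :=
  (Gam m).card * K + (Gam m).card ^ 2 * ((m * Λ ^ 48) ^ C * K ^ (1 - κ)) + (Gam m).card ^ 2

theorem num1 (hK : 2 ≤ K) (hΛ : 2 ≤ Λ) {Q I J : ℝ} (hQ : 0 ≤ Q) (hJ : J ≤ Λ ^ 69 * Q)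
    (hI : I ≤ (17 - -16) * (2 * (Λ ^ 18 * K ^ 2 * Q)) + 200 * K ^ 4 * J) :
    I ≤ Λ ^ 78 * K ^ 4 * Q := by
  have hΛ0 : 0 < Λ := by linarith
  have d3 : K ^ 2 ≤ K ^ 4 := pow_le_pow_right₀ (by linarith) (by norm_num)
  have d4 : Λ ^ 18 ≤ Λ ^ 69 := ple hΛ (by norm_num)
  calc _ ≤ (17 - -16) * (2 * (Λ ^ 69 * K ^ 4 * Q)) + 200 * K ^ 4 * (Λ ^ 69 * Q) :=
        hI.trans (by gcongr)
    _ = 266 * Λ ^ 69 * K ^ 4 * Q := by ring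
    _ ≤ Λ ^ 9 * Λ ^ 69 * K ^ 4 * Q := by gcongr; exact cle hΛ 9 (by norm_num)
    _ = _ := by ring

theorem num2 (hK : 2 ≤ K) (hΛ : 2 ≤ Λ) {Q I J Y m : ℝ} (hm : 1 ≤ m) (hY : 1 ≤ Y)
    (hYm : Y * m ≤ Λ ^ 2 * K) (hQ : 0 ≤ Q) (hI0 : 0 ≤ I) (hJ0 : 0 ≤ J) (hI : I ≤ Λ ^ 30 * Q)
    (hJ : J ≤ Λ ^ 78 * K ^ 4 * Q) :
    (2 * (16 : ℕ) + 1) * Y ^ 2 * (1 + Real.log Y) * ((Y ^ 2 + K ^ 2) * I + 1 / K ^ 2 * J) ≤
      Λ ^ 89 * (1 + Real.log Y) * K ^ 4 * Q / m ^ 2 := by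
  have hΛ0 : 0 < Λ := by linarith
  have hK0 : 0 < K := by linarith
  have hY1 : Y ≤ Λ ^ 2 * K / m := by rw [le_div_iff₀ (by positivity)]; exact hYm
  have hY2 : Y ≤ Λ ^ 2 * K := le_trans (le_mul_of_one_le_right (by positivity) hm) hYm
  have hlog : 0 ≤ Real.log Y := Real.log_nonneg hY
  have hs : (Y ^ 2 + K ^ 2) * I + 1 / K ^ 2 * J ≤ Λ ^ 79 * K ^ 2 * Q := by
    have d1 : Y ^ 2 + K ^ 2 ≤ 2 * Λ ^ 4 * K ^ 2 := by
      have e1 : Y ^ 2 ≤ (Λ ^ 2 * K) ^ 2 := by gcongr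
      have e2 : K ^ 2 ≤ Λ ^ 4 * K ^ 2 :=
        le_mul_of_one_le_left (by positivity) (one_le_pow₀ (by linarith))
      nlinarith
    have d2 : Λ ^ 34 ≤ Λ ^ 77 := ple hΛ (by norm_num)
    calc _ ≤ 2 * Λ ^ 4 * K ^ 2 * (Λ ^ 30 * Q) + 1 / K ^ 2 * (Λ ^ 78 * K ^ 4 * Q) := by gcongr
      _ = (2 * Λ ^ 34 + Λ ^ 78) * K ^ 2 * Q := by field_simp
      _ ≤ (Λ * Λ ^ 77 + Λ ^ 78) * K ^ 2 * Q := by gcongr
      _ = 2 * Λ ^ 78 * K ^ 2 * Q := by ring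
      _ ≤ Λ * Λ ^ 78 * K ^ 2 * Q := by gcongr
      _ = _ := by ring
  calc _ ≤ ((2 * (16 : ℕ) + 1) * (Λ ^ 2 * K / m) ^ 2 * (1 + Real.log Y)) * (Λ ^ 79 * K ^ 2 * Q) := by
        gcongr
    _ = 33 * Λ ^ 83 * (1 + Real.log Y) * K ^ 4 * Q / m ^ 2 := by
        push_cast; field_simp; ring
    _ ≤ Λ ^ 6 * Λ ^ 83 * (1 + Real.log Y) * K ^ 4 * Q / m ^ 2 := by
        gcongr; exact cle hΛ 6 (by norm_num)
    _ = _ := by ring

theorem sigma_bound {C κ : ℝ} (hD : Dec C κ) {m : ℕ} (hm : 1 ≤ m) (hK : 2 ≤ K) (hΛ : 2 ≤ Λ)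
    {lam : ℝ} (hl : |lam - 1| ≤ 1 / K) {g g' : ℝ → ℂ} (w1 : W1 K Λ g g') {N : ℕ} (hN : Λ * K < N)
    (hN' : N ≤ Λ ^ 2 * K) {A A' : ℕ × ℕ → ℝ → ℂ}
    (a : ∀ γ ∈ Gam m, Amp γ (Λ ^ 2) (4 * Λ ^ 4) (A γ) (A' γ))
    (P : Finset (ℤ × ℤ)) (Y : ℕ) (hY : 1 ≤ Y) (hYm : (Y : ℝ) * m ≤ Λ ^ 2 * K)
    (hP : ∀ v ∈ P, 1 ≤ v.2 ∧ v.2 ≤ Y ∧ |v.1| ≤ 16 * v.2) :
    (∑ v ∈ P, ‖∑ γ ∈ Gam m, A γ ((v.1 : ℝ) / v.2) * Tt N (Lg g) lam (tt γ ((v.1 : ℝ) / v.2))‖) ^ 2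
      ≤ Λ ^ 89 * (1 + Real.log Y) * K ^ 4 * QQ C κ K Λ m / m ^ 2 := by
  have hK0 : 0 < K := by linarith
  have hΛ0 : 0 < Λ := by linarith
  have hm' : (1 : ℝ) ≤ m := by exact_mod_cast hm
  have hY' : (1 : ℝ) ≤ Y := by exact_mod_cast hY
  have hL : 2 ≤ Λ ^ 2 := by nlinarith
  have hl' := abs_le.1 (hl.trans (one_div_le_one_div_of_le (by norm_num) hK))
  set k0 : ℂ := -(2 * Real.pi * Complex.I * (lam * K ^ 2 : ℝ)) with hk0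
  have hk : ‖k0‖ ≤ 10 * K ^ 2 := norm_k0 (by linarith) (by linarith) K
  set G : ℝ → ℂ := fun u => ∑ γ ∈ Gam m, A γ u * Tt N (Lg g) lam (tt γ u) with hG
  set G1 : ℝ → ℂ := fun u => ∑ γ ∈ Gam m, A' γ u * Tt N (Lg g) lam (tt γ u) with hG1
  set G2 : ℝ → ℂ := fun u => ∑ γ ∈ Gam m,
    A γ u * kap γ u * Tt N (sqw K (Lg g)) lam (tt γ u) with hG2
  have a2 := fun γ h => (a γ h).mul_kap h hL
  have c1 : Continuous G1 := continuous_finsetSum _ fun γ h =>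
    Tm_cont h hL (a γ h).cont (fun u hu => ((a γ h).zero u hu).2) _ _ _
  have c2 : Continuous G2 := continuous_finsetSum _ fun γ h =>
    Tm_cont h hL (a2 γ h).cont0 (fun u hu => ((a2 γ h).zero u hu).1) _ _ _
  have hder : ∀ u, HasDerivAt G (G1 u + k0 * G2 u) u := by
    intro u
    have := HasDerivAt.fun_sum fun γ h => (a γ h).der_mul h hL
      (fun u hu => (Tt_der N (Lg g) lam hK0 (tt γ u)).scomp u (tt_der h hu)) u
    refine this.congr_deriv ?_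
    simp only [hG1, hG2, Finset.mul_sum, ← Finset.sum_add_distrib]
    refine Finset.sum_congr rfl fun γ _ => ?_
    simp only [Function.comp_apply, kap, Complex.real_smul, hk0]
    push_cast
    ring
  have main := frac_gall P Y 16 hY (-16) 16 (K ^ 2) (by positivity) (by norm_num) (fun v hv => by
    obtain ⟨b1, b2, b3⟩ := hP v hv
    have b4 : (0 : ℝ) < v.2 := by exact_mod_cast (by omega : 0 < v.2)
    have b5 : |(v.1 : ℝ)| ≤ 16 * v.2 := by exact_mod_cast b3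
    rw [le_div_iff₀ b4, div_le_iff₀ b4]
    exact ⟨b1, b2, b3, by linarith [(abs_le.1 b5).1], (abs_le.1 b5).2⟩) G _ hder
    (c1.add (continuous_const.mul c2))
  refine main.trans ?_
  rw [show (16 : ℝ) + 1 = 17 by norm_num]
  set X := (m * Λ ^ 48) ^ C * K ^ (1 - κ) with hX
  set c : ℝ := ((Gam m).card : ℝ) with hc
  have hX0 : 0 ≤ X := by positivity
  have hc0 : 0 ≤ c := by positivity
  have hQ : QQ C κ K Λ m = c * K + c ^ 2 * X + c ^ 2 := rfl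
  have hL' : ∀ k, k ≤ 48 → Λ ^ k ≤ m * Λ ^ 48 := fun k hk =>
    (ple hΛ hk).trans (le_mul_of_one_le_left (by positivity) hm')
  have h16 : 16 * (m : ℝ) ≤ m * Λ ^ 48 := by
    rw [mul_comm]; gcongr; exact cle hΛ 48 (by norm_num)
  have I0 := l2_amp hD m hK hΛ0 hL hl (hL' 2 (by norm_num)) h16
    (by simpa using hL' 1 (by norm_num))
    (le_trans (by
      calc 2 * (4 * Λ ^ 4) ^ 2 = 32 * Λ ^ 8 := by ring
        _ ≤ Λ ^ 5 * Λ ^ 8 := by gcongr; exact cle hΛ 5 (by norm_num)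
        _ = Λ ^ 13 := by ring) (hL' 13 (by norm_num))) a (w1.cf hK0 hΛ0) hΛ0 hN
  have I2 := l2_amp hD m hK hΛ0 hL hl (hL' 2 (by norm_num)) h16
    (by simpa using hL' 1 (by norm_num))
    (le_trans (by
      calc 2 * (2 * (4 * Λ ^ 4) * (320 * (Λ ^ 2) ^ 4)) ^ 2 = 13107200 * Λ ^ 24 := by ring
        _ ≤ Λ ^ 24 * Λ ^ 24 := by gcongr; exact cle hΛ 24 (by norm_num)
        _ = Λ ^ 48 := by ring) (hL' 48 le_rfl)) a2 (w1.cf2 hK0 hΛ) (by positivity) hN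
  rw [← hX, ← hc] at I0 I2
  have J : ∀ (k j : ℕ) (I : ℝ), j ≤ k → I ≤ c * (Λ ^ k * K) + c ^ 2 * (Λ ^ j * X) →
      I ≤ Λ ^ k * QQ C κ K Λ m := by
    intro k j I hj hI
    have := ple hΛ hj
    rw [hQ]
    calc I ≤ c * (Λ ^ k * K) + c ^ 2 * (Λ ^ k * X) := hI.trans (by gcongr)
      _ = Λ ^ k * (c * K + c ^ 2 * X + 0) := by ring
      _ ≤ _ := by gcongr; positivity
  have J0 : ∫ u in (-16 : ℝ)..17, ‖G u‖ ^ 2 ≤ Λ ^ 30 * QQ C κ K Λ m := by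
    refine J 30 2 _ (by norm_num) (I0.trans (add_le_add (mul_le_mul_of_nonneg_left ?_ hc0) le_rfl))
    calc _ = 256 * Λ ^ 20 * N := by ring
      _ ≤ Λ ^ 8 * Λ ^ 20 * (Λ ^ 2 * K) := by gcongr; exact cle hΛ 8 (by norm_num)
      _ = _ := by ring
  have J2 : ∫ u in (-16 : ℝ)..17, ‖G2 u‖ ^ 2 ≤ Λ ^ 69 * QQ C κ K Λ m := by
    refine J 69 6 _ (by norm_num) (I2.trans (add_le_add (mul_le_mul_of_nonneg_left ?_ hc0)
      (le_of_eq (by ring))))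
    calc _ = 104857600 * Λ ^ 40 * N := by ring
      _ ≤ Λ ^ 27 * Λ ^ 40 * (Λ ^ 2 * K) := by gcongr; exact cle hΛ 27 (by norm_num)
      _ = _ := by ring
  have hQ0 : 0 ≤ QQ C κ K Λ m := by rw [hQ]; positivity
  have hG1b : ∀ u, ‖G1 u‖ ^ 2 ≤ Λ ^ 18 * K ^ 2 * QQ C κ K Λ m := by
    intro u
    have b1 : ‖G1 u‖ ≤ c * (4 * Λ ^ 4 * (N * Λ)) := by
      refine (norm_sum_le _ _).trans ?_
      rw [hc, ← nsmul_eq_mul]
      refine Finset.sum_le_card_nsmul _ _ _ fun γ h => ?_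
      rw [norm_mul]
      exact mul_le_mul ((a γ h).bd' u) (norm_Tt_le w1.w.norm_Lg _ _ _) (norm_nonneg _)
        (by positivity)
    have b2 : c ^ 2 ≤ QQ C κ K Λ m := by
      rw [hQ]; nlinarith [mul_nonneg hc0 hK0.le, mul_nonneg (sq_nonneg c) hX0]
    calc _ ≤ (c * (4 * Λ ^ 4 * (Λ ^ 2 * K * Λ))) ^ 2 := by gcongr; exact b1.trans (by gcongr)
      _ = 16 * Λ ^ 14 * K ^ 2 * c ^ 2 := by ring
      _ ≤ Λ ^ 4 * Λ ^ 14 * K ^ 2 * QQ C κ K Λ m := by gcongr; exact cle hΛ 4 (by norm_num)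
      _ = _ := by ring
  have J1 : ∫ u in (-16 : ℝ)..17, ‖G1 u + k0 * G2 u‖ ^ 2 ≤ Λ ^ 78 * K ^ 4 * QQ C κ K Λ m := by
    have b1 : ∫ u in (-16 : ℝ)..17, ‖G1 u + k0 * G2 u‖ ^ 2 ≤
        ∫ u in (-16 : ℝ)..17, (2 * (Λ ^ 18 * K ^ 2 * QQ C κ K Λ m) + 200 * K ^ 4 * ‖G2 u‖ ^ 2) := by
      apply intervalIntegral.integral_mono_on (by norm_num)
        ((by fun_prop : Continuous fun u => ‖G1 u + k0 * G2 u‖ ^ 2).intervalIntegrable _ _)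
        ((by fun_prop : Continuous fun u => 2 * (Λ ^ 18 * K ^ 2 * QQ C κ K Λ m) +
          200 * K ^ 4 * ‖G2 u‖ ^ 2).intervalIntegrable _ _)
      intro u _
      have d1 : ‖G1 u + k0 * G2 u‖ ≤ ‖G1 u‖ + 10 * K ^ 2 * ‖G2 u‖ :=
        (norm_add_le _ _).trans (by rw [norm_mul]; gcongr)
      have d2 := pow_le_pow_left₀ (norm_nonneg _) d1 2
      nlinarith [hG1b u, sq_nonneg (‖G1 u‖ - 10 * K ^ 2 * ‖G2 u‖)]
    rw [intervalIntegral.integral_add (by simp)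
      ((by fun_prop : Continuous fun u => 200 * K ^ 4 * ‖G2 u‖ ^ 2).intervalIntegrable _ _),
      intervalIntegral.integral_const, intervalIntegral.integral_const_mul, smul_eq_mul] at b1
    exact num1 hK hΛ hQ0 J2 b1
  exact num2 hK hΛ hm' hY' hYm hQ0
    (intervalIntegral.integral_nonneg (by norm_num) fun _ _ => by positivity)
    (intervalIntegral.integral_nonneg (by norm_num) fun _ _ => by positivity) J0 J1

end Pool.Agent.MP_74e98a_nt.H25
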