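import Mathlib
import Pool.Agent.MP_74e98a_nt.H25.B3

set_option autoImplicit false

open Finset Filter Topology MeasureTheory

namespace Pool.Agent.MP_74e98a_nt.H25

variable {K Λ : ℝ}

/-- The summand of the critical sum after summing over the first variable. -/
noncomputable def FF (N : ℕ) (g1 g2 g3 : ℝ → ℂ) (lam : ℝ) (v : ℤ × ℤ) : ℂ :=
  Lg g2 v.1 * Lg g3 v.2 * Tt N (Lg g1) lam ((v.1 : ℝ) / v.2)

/-- The common coordinates. -/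
noncomputable def PP (Y : ℕ) : Finset (ℤ × ℤ) :=
  (Icc (-(16 * Y : ℤ)) (16 * Y) ×ˢ Icc (1 : ℤ) Y).filter fun v => |v.1| ≤ 16 * v.2

theorem mem_PP {Y : ℕ} {v : ℤ × ℤ} : v ∈ PP Y ↔ 1 ≤ v.2 ∧ v.2 ≤ Y ∧ |v.1| ≤ 16 * v.2 := by
  simp only [PP, mem_filter, mem_product, mem_Icc, abs_le]
  omega

/-- The point of the sublattice with given coordinates. -/
def gm (γ : ℕ × ℕ) (v : ℤ × ℤ) : ℤ × ℤ :=
  (γ.2 * v.1 + be γ * v.2, -(γ.2 + 1) * v.1 + de γ * v.2)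

theorem gm_cast (γ : ℕ × ℕ) {v : ℤ × ℤ} (hv : 1 ≤ v.2) :
    ((gm γ v).1 : ℝ) = v.2 * bb γ (v.1 / v.2) ∧ ((gm γ v).2 : ℝ) = v.2 * cc γ (v.1 / v.2) := by
  have : (v.2 : ℝ) ≠ 0 := by exact_mod_cast (by omega : v.2 ≠ 0)
  unfold gm bb cc
  push_cast
  constructor <;> field_simp

theorem FF_gm (N : ℕ) (g1 g2 g3 : ℝ → ℂ) (lam : ℝ) (γ : ℕ × ℕ) {v : ℤ × ℤ} (hv : 1 ≤ v.2) :
    FF N g1 g2 g3 lam (gm γ v) =
      amp γ v.2 g2 g3 (v.1 / v.2) * Tt N (Lg g1) lam (tt γ (v.1 / v.2)) := by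
  have : (v.2 : ℝ) ≠ 0 := by exact_mod_cast (by omega : v.2 ≠ 0)
  unfold FF amp tt
  rw [(gm_cast γ hv).1, (gm_cast γ hv).2, mul_div_mul_left _ _ this]

theorem reparam {m : ℕ} {γ : ℕ × ℕ} (h : γ ∈ Gam m) (hK : 0 < K) (hΛ : 2 ≤ Λ) {g1 g2 g3 : ℝ → ℂ}
    (w2 : W0 K Λ g2) (w3 : W0 K Λ g3) (lam : ℝ) {N Y : ℕ} (hN : Λ * K < N) (hY : Λ * K < Y * m) :
    ∑ v ∈ box N, (chi γ v : ℂ) * FF N g1 g2 g3 lam v =
      ∑ v ∈ PP Y, amp γ v.2 g2 g3 (v.1 / v.2) * Tt N (Lg g1) lam (tt γ (v.1 / v.2)) := by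
  have hΛ0 : 0 < Λ := by linarith
  have hdet : (γ.2 : ℤ) * de γ + be γ * (γ.2 + 1) = γ.1 := by exact_mod_cast (basis_facts h).1
  have hp : (0 : ℤ) < γ.1 := by exact_mod_cast (mem_Gam.1 h).2.1.pos
  have hn : (0 : ℤ) < γ.2 := by exact_mod_cast (Gam_facts h).2.1
  have e1 : ∑ v ∈ box N, (chi γ v : ℂ) * FF N g1 g2 g3 lam v =
      ∑ v ∈ (box N).filter (InL γ), FF N g1 g2 g3 lam v := by
    rw [Finset.sum_filter]
    refine Finset.sum_congr rfl fun v _ => ?_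
    unfold chi
    split_ifs <;> simp
  rw [e1, ← Finset.sum_congr rfl fun v hv => FF_gm N g1 g2 g3 lam γ (mem_PP.1 hv).1]
  have nz : ∀ v, FF N g1 g2 g3 lam v ≠ 0 → Lg g2 v.1 ≠ 0 ∧ Lg g3 v.2 ≠ 0 := fun v hv =>
    ⟨left_ne_zero_of_mul (left_ne_zero_of_mul hv), right_ne_zero_of_mul (left_ne_zero_of_mul hv)⟩
  have rg : ∀ {k : ℝ → ℂ}, W0 K Λ k → ∀ x : ℤ, Lg k x ≠ 0 → 0 < x ∧ x ≤ N := by
    intro k wk x hx
    have b := wk.range_Lg hK hΛ0 hx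
    have b1 : (0 : ℝ) < x := lt_of_lt_of_le (by positivity) b.1
    have b2 : (x : ℝ) ≤ N := b.2.trans hN.le
    exact ⟨by exact_mod_cast b1, by exact_mod_cast b2⟩
  symm
  refine Finset.sum_bij_ne_zero (fun v _ _ => gm γ v) (fun v _ h2 => ?_)
    (fun v _ _ v' _ _ e => ?_) (fun w hw h2 => ?_) (fun _ _ _ => rfl)
  · simp only [box, mem_filter, mem_product, mem_Ioc]
    refine ⟨⟨rg w2 _ (nz _ h2).1, rg w3 _ (nz _ h2).2⟩, v.2, ?_⟩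
    simp only [gm]
    linear_combination v.2 * hdet
  · simp only [gm, Prod.mk.injEq] at e
    have a1 : (γ.1 : ℤ) * v.2 = γ.1 * v'.2 := by
      linear_combination (γ.2 + 1) * e.1 + γ.2 * e.2 - (v.2 - v'.2) * hdet
    have a2 := mul_left_cancel₀ hp.ne' a1
    have a3 : (γ.2 : ℤ) * v.1 = γ.2 * v'.1 := by linear_combination e.1 - be γ * a2
    exact Prod.ext (mul_left_cancel₀ hn.ne' a3) a2
  · obtain ⟨y, hy⟩ := (mem_filter.1 hw).2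
    have hcop : IsCoprime (γ.1 : ℤ) γ.2 := Nat.isCoprime_iff_coprime.2 (Gam_facts h).2.2.2.2
    obtain ⟨x, hx⟩ : (γ.1 : ℤ) ∣ de γ * w.1 - be γ * w.2 :=
      hcop.dvd_of_dvd_mul_left ⟨w.1 - be γ * y, by linear_combination w.1 * hdet - be γ * hy⟩
    have a1 : w.1 = γ.2 * x + be γ * y :=
      mul_left_cancel₀ hp.ne' (by linear_combination γ.2 * hx - w.1 * hdet + be γ * hy)
    have a2 : w.2 = -(γ.2 + 1) * x + de γ * y :=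
      mul_left_cancel₀ hn.ne' (by linear_combination hy - (γ.2 + 1) * a1 - y * hdet)
    have a3 : gm γ (x, y) = w := Prod.ext a1.symm a2.symm
    have b1 := (rg w2 _ (nz _ h2).1).1
    have b2 := (rg w3 _ (nz _ h2).2).1
    have y1 : 1 ≤ y := by
      have : 0 < (γ.1 : ℤ) * y := by rw [← hy]; positivity
      exact (pos_iff_pos_of_mul_pos this).1 hp
    have y0 : (0 : ℝ) < y := by exact_mod_cast (by omega : 0 < y)
    have c := gm_cast γ (v := (x, y)) y1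
    rw [a3] at c
    have d := pair_supp h hK hΛ0 w2 w3 y0 (u := x / y) (by rw [← c.1]; exact (nz _ h2).1)
      (by rw [← c.2]; exact (nz _ h2).2)
    have d1 := (good_iff γ (by positivity) _).1 d.1
    have d2 := u_bounds h (L := Λ ^ 2) (by positivity)
    refine ⟨(x, y), mem_PP.2 ⟨y1, ?_, ?_⟩, by rw [a3]; exact h2, a3⟩
    · have m0 : (0 : ℝ) < m := by linarith [(real_facts h).2.2.2.2.1]
      have : (y : ℝ) < Y := lt_of_mul_lt_mul_right (d.2.trans_lt hY) m0.le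
      exact_mod_cast this.le
    · have d3 : -16 ≤ (x : ℝ) / y := d2.1.trans d1.1
      have d4 : (x : ℝ) / y ≤ 16 := d1.2.trans d2.2
      rw [le_div_iff₀ y0] at d3
      rw [div_le_iff₀ y0] at d4
      have : |(x : ℝ)| ≤ 16 * y := abs_le.2 ⟨by linarith, d4⟩
      exact_mod_cast this

theorem Lg_exp_der {h h' : ℝ → ℂ} (w : W1 K Λ h h') (hK : 0 < K) (hΛ : 0 < Λ) (b r : ℝ) :
    HasDerivAt (fun r => Lg h (Real.exp r * b)) (Lg h' (Real.exp r * b)) r := by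
  refine ((w.der_Lg hK hΛ _).scomp r ((Real.hasDerivAt_exp r).mul_const b)).congr_deriv ?_
  by_cases hb : Real.exp r * b = 0
  · simp [hb, Lg]
  · have : ((Real.exp r * b : ℝ) : ℂ) ≠ 0 := by exact_mod_cast hb
    rw [Complex.real_smul, mul_div_cancel₀ _ this]

theorem amp_cont_exp {h2 h3 : ℝ → ℂ} (w2 : W0 K Λ h2) (w3 : W0 K Λ h3) (hK : 0 < K) (hΛ : 0 < Λ)
    (γ : ℕ × ℕ) (u : ℝ) : Continuous fun r => amp γ (Real.exp r) h2 h3 u :=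
  ((w2.cont_Lg hK hΛ).comp (by fun_prop)).mul ((w3.cont_Lg hK hΛ).comp (by fun_prop))

theorem ftc_bound (m : ℕ) (hK : 0 < K) (hΛ : 0 < Λ) {g2 g2' g3 g3' : ℝ → ℂ}
    (w2 : W1 K Λ g2 g2') (w3 : W1 K Λ g3 g3') (T : ℕ × ℕ → ℂ) (u : ℝ) {y Y : ℝ} (hy : 1 ≤ y)
    (hyY : y ≤ Y) (hY : Λ * K < Y * m) :
    ‖∑ γ ∈ Gam m, amp γ y g2 g3 u * T γ‖ ≤ ∫ r in (0 : ℝ)..Real.log Y,
      (‖∑ γ ∈ Gam m, amp γ (Real.exp r) g2' g3 u * T γ‖ +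
        ‖∑ γ ∈ Gam m, amp γ (Real.exp r) g2 g3' u * T γ‖) := by
  have c1 : Continuous fun r => ∑ γ ∈ Gam m, amp γ (Real.exp r) g2' g3 u * T γ :=
    continuous_finsetSum _ fun γ _ => (amp_cont_exp w2.w' w3.w hK hΛ γ u).mul continuous_const
  have c2 : Continuous fun r => ∑ γ ∈ Gam m, amp γ (Real.exp r) g2 g3' u * T γ :=
    continuous_finsetSum _ fun γ _ => (amp_cont_exp w2.w w3.w' hK hΛ γ u).mul continuous_const
  have hd : ∀ r, HasDerivAt (fun r => ∑ γ ∈ Gam m, amp γ (Real.exp r) g2 g3 u * T γ)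
      (∑ γ ∈ Gam m, amp γ (Real.exp r) g2' g3 u * T γ +
        ∑ γ ∈ Gam m, amp γ (Real.exp r) g2 g3' u * T γ) r := by
    intro r
    have := HasDerivAt.fun_sum (u := Gam m) fun γ _ =>
      (((Lg_exp_der w2 hK hΛ (bb γ u) r).mul (Lg_exp_der w3 hK hΛ (cc γ u) r)).mul_const (T γ))
    refine this.congr_deriv ?_
    rw [← Finset.sum_add_distrib]
    refine Finset.sum_congr rfl fun γ _ => ?_
    unfold amp
    ring
  have h1 := intervalIntegral.integral_eq_sub_of_hasDerivAt (a := Real.log y) (b := Real.log Y)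
    (fun r _ => hd r) ((c1.add c2).intervalIntegrable _ _)
  rw [Real.exp_log (by linarith), Real.exp_log (by linarith)] at h1
  have h2 : ∑ γ ∈ Gam m, amp γ Y g2 g3 u * T γ = 0 := by
    refine Finset.sum_eq_zero fun γ h => ?_
    rw [mul_eq_zero]
    left
    by_contra e
    exact not_le.2 hY (pair_supp h hK hΛ w2.w w3.w (by linarith) (left_ne_zero_of_mul e)
      (right_ne_zero_of_mul e)).2
  rw [h2, zero_sub] at h1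
  have h3 : Real.log y ≤ Real.log Y := Real.log_le_log (by linarith) hyY
  rw [← norm_neg, ← h1]
  refine (intervalIntegral.norm_integral_le_integral_norm h3).trans ?_
  refine (intervalIntegral.integral_mono_on h3 ((c1.add c2).norm.intervalIntegrable _ _)
    ((c1.norm.add c2.norm).intervalIntegrable _ _) fun r _ => norm_add_le _ _).trans ?_
  exact intervalIntegral.integral_mono_interval (Real.log_nonneg hy) h3 le_rfl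
    (Filter.Eventually.of_forall fun r => add_nonneg (norm_nonneg _) (norm_nonneg _))
    ((c1.norm.add c2.norm).intervalIntegrable _ _)

theorem main_part {C κ : ℝ} (hD : Dec C κ) {m : ℕ} (hm : 1 ≤ m) (hK : 2 ≤ K) (hΛ : 2 ≤ Λ)
    {lam : ℝ} (hl : |lam - 1| ≤ 1 / K) {g1 g2 g3 : ℝ → ℂ} (w1 : Wt K Λ g1) (w2 : Wt K Λ g2)
    (w3 : Wt K Λ g3) {N : ℕ} (hN : Λ * K < N) (hN' : N ≤ Λ ^ 2 * K) {Y : ℕ} (hY : 1 ≤ Y)
    (hY1 : Λ * K < Y * m) (hYm : (Y : ℝ) * m ≤ Λ ^ 2 * K) :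
    ‖∑ v ∈ box N, ((∑ γ ∈ Gam m, chi γ v : ℝ) : ℂ) * FF N g1 g2 g3 lam v‖ ^ 2 ≤
      4 * Real.log Y ^ 2 * (Λ ^ 89 * (1 + Real.log Y) * K ^ 4 * QQ C κ K Λ m / m ^ 2) := by
  have hK0 : 0 < K := by linarith
  have hΛ0 : 0 < Λ := by linarith
  have hY' : (1 : ℝ) ≤ Y := by exact_mod_cast hY
  have hlog := Real.log_nonneg hY'
  have hQ0 : 0 ≤ QQ C κ K Λ m := by unfold QQ; positivity
  have hZ0 : 0 ≤ Λ ^ 89 * (1 + Real.log Y) * K ^ 4 * QQ C κ K Λ m / m ^ 2 := by positivity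
  set Z2 := Λ ^ 89 * (1 + Real.log Y) * K ^ 4 * QQ C κ K Λ m / m ^ 2 with hZ2
  have e1 : ∑ v ∈ box N, ((∑ γ ∈ Gam m, chi γ v : ℝ) : ℂ) * FF N g1 g2 g3 lam v =
      ∑ v ∈ PP Y, ∑ γ ∈ Gam m,
        amp γ v.2 g2 g3 (v.1 / v.2) * Tt N (Lg g1) lam (tt γ (v.1 / v.2)) := by
    simp only [Complex.ofReal_sum, Finset.sum_mul]
    rw [Finset.sum_comm, Finset.sum_comm (s := PP Y)]
    exact Finset.sum_congr rfl fun γ h => reparam h hK0 hΛ w2.w1.1.w w3.w1.1.w lam hN hY1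
  have hs : ∀ {h2 h2' h3 h3' : ℝ → ℂ}, W1 K Λ h2 h2' → W1 K Λ h3 h3' → ∀ r : ℝ,
      ∑ v ∈ PP Y, ‖∑ γ ∈ Gam m, amp γ (Real.exp r) h2 h3 ((v.1 : ℝ) / v.2) *
        Tt N (Lg g1) lam (tt γ ((v.1 : ℝ) / v.2))‖ ≤ √Z2 := by
    intro h2 h2' h3 h3' v2 v3 r
    exact Real.le_sqrt_of_sq_le (sigma_bound hD hm hK hΛ hl w1.w1.1 hN hN'
      (fun γ h => amp_Amp h hK0 hΛ v2 v3 (Real.exp_pos r)) (PP Y) Y hY hYm fun v hv => mem_PP.1 hv)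
  have cc1 : ∀ {h2 h3 : ℝ → ℂ}, W0 K Λ h2 → W0 K Λ h3 → ∀ (T : ℕ × ℕ → ℂ) (u : ℝ),
      Continuous fun r => ‖∑ γ ∈ Gam m, amp γ (Real.exp r) h2 h3 u * T γ‖ := fun v2 v3 T u =>
    (continuous_finsetSum _ fun γ _ =>
      (amp_cont_exp v2 v3 hK0 hΛ0 γ u).mul continuous_const).norm
  have h1 : ‖∑ v ∈ box N, ((∑ γ ∈ Gam m, chi γ v : ℝ) : ℂ) * FF N g1 g2 g3 lam v‖ ≤
      Real.log Y * (2 * √Z2) := by
    rw [e1]
    refine (norm_sum_le _ _).trans ((Finset.sum_le_sum fun v hv =>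
      ftc_bound m hK0 hΛ0 w2.w1.1 w3.w1.1 _ _ (y := v.2) (Y := Y)
        (by exact_mod_cast (mem_PP.1 hv).1) (by exact_mod_cast (mem_PP.1 hv).2.1) hY1).trans ?_)
    have hc : ∀ v : ℤ × ℤ, Continuous fun r =>
        ‖∑ γ ∈ Gam m, amp γ (Real.exp r) (deriv g2) g3 ((v.1 : ℝ) / v.2) *
          Tt N (Lg g1) lam (tt γ ((v.1 : ℝ) / v.2))‖ +
        ‖∑ γ ∈ Gam m, amp γ (Real.exp r) g2 (deriv g3) ((v.1 : ℝ) / v.2) *
          Tt N (Lg g1) lam (tt γ ((v.1 : ℝ) / v.2))‖ := fun v =>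
      (cc1 w2.w1.2.w w3.w1.1.w (fun γ => Tt N (Lg g1) lam (tt γ ((v.1 : ℝ) / v.2)))
        ((v.1 : ℝ) / v.2)).add
      (cc1 w2.w1.1.w w3.w1.2.w (fun γ => Tt N (Lg g1) lam (tt γ ((v.1 : ℝ) / v.2)))
        ((v.1 : ℝ) / v.2))
    rw [← intervalIntegral.integral_finsetSum fun v _ => (hc v).intervalIntegrable _ _]
    refine (intervalIntegral.integral_mono_on (g := fun _ => 2 * √Z2) hlog
      ((continuous_finsetSum _ fun v _ => hc v).intervalIntegrable _ _) (by simp)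
      fun r _ => ?_).trans (le_of_eq (by simp; ring))
    rw [Finset.sum_add_distrib]
    linarith [hs w2.w1.2 w3.w1.1 r, hs w2.w1.1 w3.w1.2 r]
  refine (pow_le_pow_left₀ (norm_nonneg _) h1 2).trans (le_of_eq ?_)
  rw [mul_pow, mul_pow, Real.sq_sqrt hZ0]
  ring

theorem sum_FF_sq (hK : 2 ≤ K) (hΛ : 2 ≤ Λ) {lam : ℝ} (hl : |lam - 1| ≤ 1 / K)
    {g1 g2 g3 : ℝ → ℂ} (w1 : Wt K Λ g1) (w2 : Wt K Λ g2) (w3 : Wt K Λ g3) {N : ℕ} (hN : 1 ≤ N)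
    (hN' : N ≤ Λ ^ 2 * K) (D : ℝ) (hD : 1 ≤ D)
    (hd : ∀ m : ℕ, m ≤ N ^ 2 → (m.divisors.card : ℝ) ≤ D) :
    (∑ v ∈ box N, ‖FF N g1 g2 g3 lam v‖ ^ 2) ^ 2 ≤ Λ ^ 70 * (D * (1 + Real.log N)) * K ^ 6 := by
  have hK0 : 0 < K := by linarith
  have hΛ0 : 0 < Λ := by linarith
  have hl' := abs_le.1 (hl.trans (one_div_le_one_div_of_le (by norm_num) hK))
  have hΛ2 : 4 ≤ Λ ^ 2 := by nlinarith
  set P := (box N).filter fun v => 1 / Λ ^ 2 ≤ (v.1 : ℝ) / v.2 ∧ (v.1 : ℝ) / v.2 ≤ Λ ^ 2 with hP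
  set Θ := Tt N (Lg g1) lam with hΘ
  set Θ2 := Tt N (sqw K (Lg g1)) lam with hΘ2
  set k0 : ℂ := -(2 * Real.pi * Complex.I * (lam * K ^ 2 : ℝ)) with hk0
  have hk : ‖k0‖ ≤ 10 * K ^ 2 := norm_k0 (by linarith) (by linarith) K
  have c1 : Continuous Θ := Tt_cont _ _ _
  have c2 : Continuous Θ2 := Tt_cont _ _ _
  have h1 : ∑ v ∈ box N, ‖FF N g1 g2 g3 lam v‖ ^ 2 ≤
      Λ ^ 4 * ∑ v ∈ P, ‖Θ ((v.1 : ℝ) / v.2) ^ 2‖ := by
    rw [hP, Finset.sum_filter, Finset.mul_sum]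
    refine Finset.sum_le_sum fun v _ => ?_
    split_ifs with hv
    · unfold FF
      rw [norm_mul, norm_mul, mul_pow, norm_pow]
      have := mul_le_mul (w2.w1.1.w.norm_Lg v.1) (w3.w1.1.w.norm_Lg v.2) (norm_nonneg _) hΛ0.le
      calc _ ≤ (Λ * Λ) ^ 2 * ‖Θ ((v.1 : ℝ) / v.2)‖ ^ 2 := by gcongr
        _ = _ := by ring
    · have : FF N g1 g2 g3 lam v = 0 := by
        by_contra e
        have a := w2.w1.1.w.range_Lg hK0 hΛ0 (left_ne_zero_of_mul (left_ne_zero_of_mul e))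
        have b := w3.w1.1.w.range_Lg hK0 hΛ0 (right_ne_zero_of_mul (left_ne_zero_of_mul e))
        have b0 : (0 : ℝ) < v.2 := lt_of_lt_of_le (by positivity) b.1
        have a1 := a.1
        have b1 := b.1
        rw [div_le_iff₀ hΛ0] at a1 b1
        apply hv
        rw [div_le_div_iff₀ (by positivity) b0, div_le_iff₀ b0]
        constructor <;> nlinarith [a.2, b.2]
      simp [this]
  have hab : 1 / Λ ^ 2 ≤ Λ ^ 2 := by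
    rw [div_le_iff₀ (by positivity)]; nlinarith
  have h2 := frac_gall P N ⌈Λ ^ 2⌉₊ hN (1 / Λ ^ 2) (Λ ^ 2) (K ^ 2) (by positivity) hab
    (fun v hv => by
      simp only [hP, box, mem_filter, mem_product, mem_Ioc] at hv
      obtain ⟨⟨⟨a1, -⟩, a3, a4⟩, a5, a6⟩ := hv
      refine ⟨a3, a4, ?_, a5, a6⟩
      have b0 : (0 : ℝ) < v.2 := by exact_mod_cast a3
      rw [div_le_iff₀ b0] at a6
      have : (v.1 : ℝ) ≤ (⌈Λ ^ 2⌉₊ : ℝ) * v.2 := a6.trans (by gcongr; exact Nat.le_ceil _)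
      rw [abs_of_pos a1]
      exact_mod_cast this)
    (fun t => Θ t ^ 2) (fun t => 2 * Θ t * (k0 * (t * Θ2 t)))
    (fun t => ((Tt_der N (Lg g1) lam hK0 t).pow 2).congr_deriv (by simp [hΘ, hΘ2, hk0]))
    (by fun_prop)
  have hL3 : Λ ^ 2 + 1 ≤ Λ ^ 3 := by nlinarith
  have hL3' : 1 / Λ ^ 3 ≤ 1 / Λ ^ 2 := one_div_le_one_div_of_le (by positivity) (by linarith)
  have t1 := Tt_four w1.w1.1.w.norm_Lg N D hD hd (lam := lam) (by linarith) (by linarith)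
    (L := Λ ^ 3) (by linarith) hL3' (by linarith) hL3
  have t2 := Tt_four (w1.w1.1.cf2 hK0 hΛ).bd N D hD hd (lam := lam) (by linarith) (by linarith)
    (L := Λ ^ 3) (by linarith) hL3' (by linarith) hL3
  rw [← hΘ] at t1
  rw [← hΘ2] at t2
  have t3 : ∫ t in 1 / Λ ^ 2..Λ ^ 2 + 1, ‖2 * Θ t * (k0 * (t * Θ2 t))‖ ^ 2 ≤
      200 * K ^ 4 * Λ ^ 6 * ((∫ t in 1 / Λ ^ 2..Λ ^ 2 + 1, ‖Θ t‖ ^ 4) +
        ∫ t in 1 / Λ ^ 2..Λ ^ 2 + 1, ‖Θ2 t‖ ^ 4) := by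
    rw [← intervalIntegral.integral_add
      ((by fun_prop : Continuous fun t => ‖Θ t‖ ^ 4).intervalIntegrable _ _)
      ((by fun_prop : Continuous fun t => ‖Θ2 t‖ ^ 4).intervalIntegrable _ _),
      ← intervalIntegral.integral_const_mul]
    apply intervalIntegral.integral_mono_on (by linarith)
      ((by fun_prop : Continuous fun t : ℝ =>
        ‖2 * Θ t * (k0 * (t * Θ2 t))‖ ^ 2).intervalIntegrable _ _)
      ((by fun_prop : Continuous fun t =>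
        200 * K ^ 4 * Λ ^ 6 * (‖Θ t‖ ^ 4 + ‖Θ2 t‖ ^ 4)).intervalIntegrable _ _)
    intro t ht
    have d0 : 0 ≤ t := le_trans (by positivity) ht.1
    have d1 : t ≤ Λ ^ 3 := ht.2.trans hL3
    rw [norm_mul, norm_mul, norm_mul, norm_mul, Complex.norm_two, Complex.norm_real,
      Real.norm_eq_abs, abs_of_nonneg d0]
    calc _ ≤ (2 * ‖Θ t‖ * (10 * K ^ 2 * (Λ ^ 3 * ‖Θ2 t‖))) ^ 2 := by gcongr
      _ = 200 * K ^ 4 * Λ ^ 6 * (2 * (‖Θ t‖ ^ 2 * ‖Θ2 t‖ ^ 2)) := by ring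
      _ ≤ _ := by gcongr; nlinarith [sq_nonneg (‖Θ t‖ ^ 2 - ‖Θ2 t‖ ^ 2)]
  simp only [norm_pow, ← pow_mul] at h2 h1
  have hA : (⌈Λ ^ 2⌉₊ : ℝ) ≤ Λ ^ 2 + 1 := (Nat.ceil_lt_add_one (by positivity)).le
  have hS0 : 0 ≤ ∑ v ∈ box N, ‖FF N g1 g2 g3 lam v‖ ^ 2 := Finset.sum_nonneg fun _ _ => by positivity
  have i0 : 0 ≤ ∫ t in 1 / Λ ^ 2..Λ ^ 2 + 1, ‖Θ t‖ ^ 4 :=
    intervalIntegral.integral_nonneg (by linarith) fun _ _ => by positivity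
  have i1 : 0 ≤ ∫ t in 1 / Λ ^ 2..Λ ^ 2 + 1, ‖2 * Θ t * (k0 * (t * Θ2 t))‖ ^ 2 :=
    intervalIntegral.integral_nonneg (by linarith) fun _ _ => by positivity
  have hN1 : (1 : ℝ) ≤ N := by exact_mod_cast hN
  have hlog := Real.log_nonneg hN1
  generalize (∫ t in 1 / Λ ^ 2..Λ ^ 2 + 1, ‖2 * Θ t * (k0 * (t * Θ2 t))‖ ^ 2) = J at *
  generalize (∫ t in 1 / Λ ^ 2..Λ ^ 2 + 1, ‖Θ t‖ ^ 4) = I1 at *
  generalize (∫ t in 1 / Λ ^ 2..Λ ^ 2 + 1, ‖Θ2 t‖ ^ 4) = I2 at *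
  generalize (∑ v ∈ box N, ‖FF N g1 g2 g3 lam v‖ ^ 2) = S at *
  generalize (∑ v ∈ P, ‖Θ ((v.1 : ℝ) / v.2)‖ ^ 2) = S2 at *
  generalize (⌈Λ ^ 2⌉₊ : ℝ) = A at *
  generalize Real.log N = l at *
  generalize (N : ℝ) = n at *
  clear hP hΘ hΘ2 hk0 hk c1 c2 hd
  have u1 : I1 ≤ Λ ^ 32 * D * K ^ 2 := by
    calc I1 ≤ (Λ ^ 3) ^ 5 * (Λ ^ 4 * (Λ * D * (Λ ^ 2 * K) ^ 2)) := t1.trans (by gcongr)
      _ = Λ ^ 24 * D * K ^ 2 := by ring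
      _ ≤ _ := by gcongr; exacts [by linarith, by norm_num]
  have u2 : I2 ≤ Λ ^ 32 * D * K ^ 2 := by
    calc I2 ≤ (Λ ^ 3) ^ 5 * ((Λ ^ 3) ^ 4 * (Λ * D * (Λ ^ 2 * K) ^ 2)) := t2.trans (by gcongr)
      _ = _ := by ring
  have u3 : J ≤ Λ ^ 47 * D * K ^ 6 := by
    calc J ≤ 200 * K ^ 4 * Λ ^ 6 * (Λ ^ 32 * D * K ^ 2 + Λ ^ 32 * D * K ^ 2) := t3.trans (by gcongr)
      _ = 400 * Λ ^ 38 * D * K ^ 6 := by ring
      _ ≤ Λ ^ 9 * Λ ^ 38 * D * K ^ 6 := by gcongr; exact cle hΛ 9 (by norm_num)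
      _ = _ := by ring
  have u4 : n ^ 2 + K ^ 2 ≤ Λ ^ 5 * K ^ 2 := by
    have e1 : n ^ 2 ≤ (Λ ^ 2 * K) ^ 2 := by gcongr
    have e2 : K ^ 2 ≤ Λ ^ 4 * K ^ 2 :=
      le_mul_of_one_le_left (by positivity) (one_le_pow₀ (by linarith))
    have e3 : 2 * (Λ ^ 4 * K ^ 2) ≤ Λ * (Λ ^ 4 * K ^ 2) := by gcongr
    nlinarith
  have u5 : 2 * A + 1 ≤ Λ ^ 4 := by nlinarith
  have u6 : (n ^ 2 + K ^ 2) * I1 + 1 / K ^ 2 * J ≤ Λ ^ 48 * D * K ^ 4 := by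
    have d2 : Λ ^ 37 ≤ Λ ^ 47 := ple hΛ (by norm_num)
    calc _ ≤ Λ ^ 5 * K ^ 2 * (Λ ^ 32 * D * K ^ 2) + 1 / K ^ 2 * (Λ ^ 47 * D * K ^ 6) := by gcongr
      _ = (Λ ^ 37 + Λ ^ 47) * D * K ^ 4 := by field_simp
      _ ≤ (Λ ^ 47 + Λ ^ 47) * D * K ^ 4 := by gcongr
      _ = 2 * Λ ^ 47 * D * K ^ 4 := by ring
      _ ≤ Λ * Λ ^ 47 * D * K ^ 4 := by gcongr
      _ = _ := by ring
  have u7 : S2 ^ 2 ≤ Λ ^ 4 * (Λ ^ 2 * K) ^ 2 * (1 + l) * (Λ ^ 48 * D * K ^ 4) :=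
    h2.trans (by gcongr)
  calc S ^ 2 ≤ (Λ ^ 4 * S2) ^ 2 := by gcongr
    _ = Λ ^ 8 * S2 ^ 2 := by ring
    _ ≤ Λ ^ 8 * (Λ ^ 4 * (Λ ^ 2 * K) ^ 2 * (1 + l) * (Λ ^ 48 * D * K ^ 4)) := by gcongr
    _ = Λ ^ 64 * (D * (1 + l)) * K ^ 6 := by ring
    _ ≤ _ := by gcongr; exacts [by linarith, by norm_num]

end Pool.Agent.MP_74e98a_nt.H25
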