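import Mathlib
import Pool.Agent.MP_74e98a_nt.H25.B4
import Pool.Agent.MP_74e98a_nt.H25.Div

set_option autoImplicit false

open Finset

namespace Pool.Agent.MP_74e98a_nt.H25

variable {K Λ : ℝ}

theorem conv_nat {k : ℝ → ℂ} (w : W0 K Λ k) (hK : 0 < K) (hΛ : 0 < Λ) {N N' : ℕ}
    (h1 : Λ * K < N) (h2 : Λ * K ≤ N') (φ : ℝ → ℂ) :
    ∑ a ∈ Icc 1 N', k (Real.log a) * φ a = ∑ a ∈ range N, Lg k a * φ a := by
  have e : ∀ a ∈ Icc 1 N', k (Real.log a) * φ a = Lg k a * φ a := by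
    intro a ha
    have : (0 : ℝ) < a := by exact_mod_cast (mem_Icc.1 ha).1
    simp [Lg, this]
  rw [Finset.sum_congr rfl e]
  refine Finset.sum_bij_ne_zero (fun a _ _ => a) (fun a _ h => ?_) (fun _ _ _ _ _ _ e => e)
    (fun a _ h => ⟨a, ?_, h, rfl⟩) (fun _ _ _ => rfl)
  · have := (w.range_Lg hK hΛ (left_ne_zero_of_mul h)).2.trans_lt h1
    exact mem_range.2 (by exact_mod_cast this)
  · have b := w.range_Lg hK hΛ (left_ne_zero_of_mul h)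
    have b1 : (0 : ℝ) < a := lt_of_lt_of_le (by positivity) b.1
    have b2 := b.2.trans h2
    exact mem_Icc.2 ⟨by exact_mod_cast b1, by exact_mod_cast b2⟩

theorem conv_int {k : ℝ → ℂ} (w : W0 K Λ k) (hK : 0 < K) (hΛ : 0 < Λ) {N N' : ℕ}
    (h1 : Λ * K < N) (h2 : Λ * K ≤ N') (φ : ℝ → ℂ) :
    ∑ a ∈ Icc 1 N', k (Real.log a) * φ a = ∑ a ∈ Ioc (0 : ℤ) N, Lg k a * φ a := by
  rw [conv_nat w hK hΛ h1 h2]
  refine Finset.sum_bij_ne_zero (fun a _ _ => (a : ℤ)) (fun a ha h => ?_)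
    (fun _ _ _ _ _ _ e => by exact_mod_cast e) (fun a _ h => ?_) (fun _ _ _ => by simp)
  · have b := w.range_Lg hK hΛ (left_ne_zero_of_mul h)
    have b1 : (0 : ℝ) < a := lt_of_lt_of_le (by positivity) b.1
    exact mem_Ioc.2 ⟨by exact_mod_cast b1, by exact_mod_cast (mem_range.1 ha).le⟩
  · have b := w.range_Lg hK hΛ (left_ne_zero_of_mul h)
    have b1 : (0 : ℝ) < a := lt_of_lt_of_le (by positivity) b.1
    have b2 : (0 : ℤ) < a := by exact_mod_cast b1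
    lift a to ℕ using b2.le
    have b3 := b.2.trans_lt h1
    exact ⟨a, mem_range.2 (by exact_mod_cast b3), by simpa using h, rfl⟩

theorem conv_all (hK : 0 < K) (hΛ : 0 < Λ) {g1 g2 g3 : ℝ → ℂ} (w1 : W0 K Λ g1) (w2 : W0 K Λ g2)
    (w3 : W0 K Λ g3) (lam : ℝ) {N N' : ℕ} (h1 : Λ * K < N) (h2 : Λ * K ≤ N') :
    ∑ a ∈ Icc 1 N', ∑ b ∈ Icc 1 N', ∑ c ∈ Icc 1 N',
        g1 (Real.log a) * g2 (Real.log b) * g3 (Real.log c) *
          Complex.exp (2 * Real.pi * Complex.I * (-(lam * ((a : ℝ) * b / c) ^ 2 / 2) : ℝ)) =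
      ∑ v ∈ box N, FF N g1 g2 g3 lam v := by
  have e1 : ∀ b c : ℝ, ∑ a ∈ Icc 1 N', g1 (Real.log a) * g2 (Real.log b) * g3 (Real.log c) *
      Complex.exp (2 * Real.pi * Complex.I * (-(lam * ((a : ℝ) * b / c) ^ 2 / 2) : ℝ)) =
      g2 (Real.log b) * (g3 (Real.log c) * Tt N (Lg g1) lam (b / c)) := by
    intro b c
    unfold Tt th
    rw [← conv_nat w1 hK hΛ h1 h2 fun a => ee (-a ^ 2 * (lam * (b / c) ^ 2 / 2)), Finset.mul_sum,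
      Finset.mul_sum]
    refine Finset.sum_congr rfl fun a _ => ?_
    rw [ee, show -(a : ℝ) ^ 2 * (lam * (b / c) ^ 2 / 2) = -(lam * (a * b / c) ^ 2 / 2) by ring]
    ring
  rw [Finset.sum_comm]
  have e2 : ∀ b : ℝ, ∑ a ∈ Icc 1 N', ∑ c ∈ Icc 1 N',
      g1 (Real.log a) * g2 (Real.log b) * g3 (Real.log c) *
        Complex.exp (2 * Real.pi * Complex.I * (-(lam * ((a : ℝ) * b / c) ^ 2 / 2) : ℝ)) =
      g2 (Real.log b) * ∑ c ∈ Ioc (0 : ℤ) N, Lg g3 c * Tt N (Lg g1) lam (b / c) := by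
    intro b
    rw [Finset.sum_comm, Finset.sum_congr rfl fun (c : ℕ) _ => e1 b c, ← Finset.mul_sum,
      conv_int w3 hK hΛ h1 h2 fun c => Tt N (Lg g1) lam (b / c)]
  rw [Finset.sum_congr rfl fun (b : ℕ) _ => e2 b,
    conv_int w2 hK hΛ h1 h2 fun b => ∑ c ∈ Ioc (0 : ℤ) N, Lg g3 c * Tt N (Lg g1) lam (b / c),
    box, Finset.sum_product]
  refine Finset.sum_congr rfl fun b _ => ?_
  rw [Finset.mul_sum]
  refine Finset.sum_congr rfl fun c _ => ?_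
  rw [FF, mul_assoc]

theorem triv (hΛ : 0 < Λ) {g1 g2 g3 : ℝ → ℂ} (w1 : W0 K Λ g1) (w2 : W0 K Λ g2)
    (w3 : W0 K Λ g3) (lam : ℝ) (N : ℕ) :
    ‖∑ v ∈ box N, FF N g1 g2 g3 lam v‖ ≤ (N * Λ) ^ 3 := by
  refine (norm_sum_le _ _).trans ?_
  have := Finset.sum_le_card_nsmul (box N) (fun v => ‖FF N g1 g2 g3 lam v‖) (Λ * Λ * (N * Λ))
    fun v _ => by
      unfold FF
      rw [norm_mul, norm_mul]
      have a1 := w2.norm_Lg v.1
      have a2 := w3.norm_Lg v.2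
      have a3 := norm_Tt_le w1.norm_Lg N lam ((v.1 : ℝ) / v.2)
      gcongr
  refine this.trans (le_of_eq ?_)
  simp [box]
  ring

theorem split_var (m N : ℕ) (F : ℤ × ℤ → ℂ) :
    ∃ b : ℝ, nubar m * ‖∑ v ∈ box N, F v‖ ≤
        ‖∑ v ∈ box N, ((∑ γ ∈ Gam m, chi γ v : ℝ) : ℂ) * F v‖ + b ∧
      b ^ 2 ≤ ((N : ℝ) ^ 2 * nubar m + 3 * N * (Gam m).card ^ 2) * ∑ v ∈ box N, ‖F v‖ ^ 2 := by
  have h0 : 0 ≤ nubar m := Finset.sum_nonneg fun _ _ => by positivity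
  refine ⟨∑ v ∈ box N, |∑ γ ∈ Gam m, chi γ v - nubar m| * ‖F v‖, ?_, ?_⟩
  · have e : (nubar m : ℂ) * ∑ v ∈ box N, F v =
        ∑ v ∈ box N, ((∑ γ ∈ Gam m, chi γ v : ℝ) : ℂ) * F v -
          ∑ v ∈ box N, ((∑ γ ∈ Gam m, chi γ v - nubar m : ℝ) : ℂ) * F v := by
      rw [Finset.mul_sum, ← Finset.sum_sub_distrib]
      refine Finset.sum_congr rfl fun v _ => ?_
      rw [Complex.ofReal_sub]
      ring
    have e2 : nubar m * ‖∑ v ∈ box N, F v‖ = ‖(nubar m : ℂ) * ∑ v ∈ box N, F v‖ := by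
      rw [norm_mul, Complex.norm_real, Real.norm_eq_abs, abs_of_nonneg h0]
    rw [e2, e]
    refine (norm_sub_le _ _).trans (add_le_add le_rfl ((norm_sum_le _ _).trans (le_of_eq ?_)))
    refine Finset.sum_congr rfl fun v _ => ?_
    rw [norm_mul, Complex.norm_real, Real.norm_eq_abs]
  · refine (Finset.sum_mul_sq_le_sq_mul_sq _ _ _).trans ?_
    simp only [sq_abs]
    exact mul_le_mul_of_nonneg_right (variance m N) (Finset.sum_nonneg fun _ _ => by positivity)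

theorem numer {z m ν G E P c l l' D n W a b s : ℝ} (hΛ : 2 ≤ Λ) (hz : 7 ≤ z) (hK : z ^ 34 ≤ K)
    (hm1 : z ^ 8 ≤ m) (hm2 : m ≤ 2 * z ^ 8) (hν : √m ≤ ν) (hG0 : 0 ≤ G) (hG : G ≤ 16 * m ^ 2 * ν)
    (hE0 : 0 ≤ E) (hP : 1 ≤ P) (hE : z ^ 20 * E ≤ P * K) (hc : 1 ≤ c) (hl0 : 0 ≤ l)
    (hl : 1 + l ≤ c * Λ * z) (hl0' : 0 ≤ l') (hl' : 1 + l' ≤ c * Λ * z)
    (hD : D ≤ c * Λ ^ 4 * z) (hn0 : 0 ≤ n) (hn : n ≤ Λ ^ 2 * K) (hW0 : 0 ≤ W)
    (hW : W ^ 2 ≤ Λ ^ 70 * (D * (1 + l')) * K ^ 6) (hs0 : 0 ≤ s) (hs : ν * s ≤ a + b)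
    (ha : a ^ 2 ≤ 4 * l ^ 2 * (Λ ^ 89 * (1 + l) * K ^ 4 * (G * K + G ^ 2 * E + G ^ 2) / m ^ 2))
    (hb : b ^ 2 ≤ (n ^ 2 * ν + 3 * n * G ^ 2) * W) :
    s ^ 2 * z ≤ 2 ^ 16 * c ^ 3 * Λ ^ 92 * P * K ^ 5 := by
  have hz1 : 1 ≤ z := by linarith
  have hK1 : 1 ≤ K := (one_le_pow₀ hz1).trans hK
  have hΛ0 : 0 < Λ := by linarith
  have hm0 : 0 < m := lt_of_lt_of_le (by positivity) hm1
  have hν1 : z ^ 4 ≤ ν := (Real.le_sqrt_of_sq_le (by rw [← pow_mul]; exact hm1)).trans hν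
  have hν0 : 0 < ν := lt_of_lt_of_le (by positivity) hν1
  have hW1 : W ≤ c * Λ ^ 38 * z * K ^ 3 := by
    refine (pow_le_pow_iff_left₀ hW0 (by positivity) two_ne_zero).1 ?_
    calc W ^ 2 ≤ Λ ^ 70 * (c * Λ ^ 4 * z * (c * Λ * z)) * K ^ 6 := hW.trans (by gcongr)
      _ = Λ ^ 75 * (c * z * K ^ 3) ^ 2 := by ring
      _ ≤ Λ ^ 76 * (c * z * K ^ 3) ^ 2 := by gcongr; exacts [by linarith, by norm_num]
      _ = _ := by ring
  have hz20 : z ^ 20 ≤ K := (pow_le_pow_right₀ hz1 (by norm_num)).trans hK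
  have u1 : z ^ 4 * ((G * K + G ^ 2 * E + G ^ 2) / m ^ 2) ≤ 2064 * P * K * ν ^ 2 := by
    rw [← mul_div_assoc, div_le_iff₀ (by positivity)]
    have v1 : z ^ 4 * (G * K) ≤ 16 * P * K * ν ^ 2 * m ^ 2 := by
      calc _ ≤ ν * (16 * m ^ 2 * ν * K) := by gcongr
        _ = 16 * 1 * K * ν ^ 2 * m ^ 2 := by ring
        _ ≤ _ := by gcongr
    have v2 : G ^ 2 ≤ 1024 * z ^ 16 * ν ^ 2 * m ^ 2 := by
      calc _ ≤ (16 * m ^ 2 * ν) ^ 2 := by gcongr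
        _ = 256 * m ^ 2 * ν ^ 2 * m ^ 2 := by ring
        _ ≤ 256 * (2 * z ^ 8) ^ 2 * ν ^ 2 * m ^ 2 := by gcongr
        _ = _ := by ring
    have v3 : z ^ 4 * (G ^ 2 * E) ≤ 1024 * P * K * ν ^ 2 * m ^ 2 := by
      calc _ ≤ z ^ 4 * (1024 * z ^ 16 * ν ^ 2 * m ^ 2 * E) := by gcongr
        _ = 1024 * (z ^ 20 * E) * ν ^ 2 * m ^ 2 := by ring
        _ ≤ 1024 * (P * K) * ν ^ 2 * m ^ 2 := by gcongr
        _ = _ := by ring
    have v4 : z ^ 4 * G ^ 2 ≤ 1024 * P * K * ν ^ 2 * m ^ 2 := by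
      calc _ ≤ z ^ 4 * (1024 * z ^ 16 * ν ^ 2 * m ^ 2) := by gcongr
        _ = 1024 * 1 * z ^ 20 * ν ^ 2 * m ^ 2 := by ring
        _ ≤ _ := by gcongr
    linarith
  have u2 : a ^ 2 * z ≤ 8256 * (c ^ 3 * Λ ^ 92 * P * K ^ 5) * ν ^ 2 := by
    have hQ : 0 ≤ (G * K + G ^ 2 * E + G ^ 2) / m ^ 2 := by positivity
    rw [mul_div_assoc] at ha
    generalize (G * K + G ^ 2 * E + G ^ 2) / m ^ 2 = Q at *
    have : l ≤ c * Λ * z := by linarith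
    have ha2 : 4 * l ^ 2 * (Λ ^ 89 * (1 + l) * K ^ 4 * Q) ≤
        4 * (c * Λ * z) ^ 2 * (Λ ^ 89 * (c * Λ * z) * K ^ 4 * Q) :=
      mul_le_mul (by gcongr) (mul_le_mul_of_nonneg_right (mul_le_mul_of_nonneg_right
        (mul_le_mul_of_nonneg_left hl (by positivity)) (by positivity)) hQ)
        (mul_nonneg (mul_nonneg (mul_nonneg (by positivity) (by linarith)) (by positivity)) hQ)
        (by positivity)
    calc _ ≤ 4 * (c * Λ * z) ^ 2 * (Λ ^ 89 * (c * Λ * z) * K ^ 4 * Q) * z :=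
          mul_le_mul_of_nonneg_right (ha.trans ha2) (by linarith)
      _ = 4 * c ^ 3 * Λ ^ 92 * K ^ 4 * (z ^ 4 * Q) := by ring
      _ ≤ 4 * c ^ 3 * Λ ^ 92 * K ^ 4 * (2064 * P * K * ν ^ 2) := by gcongr
      _ = _ := by ring
  have u3 : b ^ 2 * z ≤ 12289 * (c ^ 3 * Λ ^ 92 * P * K ^ 5) * ν ^ 2 := by
    have v1 : n ^ 2 * ν * z ^ 2 ≤ Λ ^ 4 * K ^ 2 * ν ^ 2 := by
      have : z ^ 2 ≤ ν := (pow_le_pow_right₀ hz1 (by norm_num)).trans hν1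
      calc _ ≤ (Λ ^ 2 * K) ^ 2 * ν * ν := by gcongr
        _ = _ := by ring
    have v2 : 3 * n * G ^ 2 * z ^ 2 ≤ 12288 * (Λ ^ 4 * K ^ 2 * ν ^ 2) := by
      have : Λ ^ 2 ≤ Λ ^ 4 := ple hΛ (by norm_num)
      calc _ ≤ 3 * (Λ ^ 2 * K) * (16 * (2 * z ^ 8) ^ 2 * ν) ^ 2 * z ^ 2 := by
            gcongr
            exact hG.trans (by gcongr)
        _ = 12288 * (Λ ^ 2 * (K * z ^ 34) * ν ^ 2) := by ring
        _ ≤ 12288 * (Λ ^ 4 * (K * K) * ν ^ 2) := by gcongr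
        _ = _ := by ring
    have v3 : c * Λ ^ 42 ≤ c ^ 3 * Λ ^ 92 * P := by
      calc c * Λ ^ 42 = c ^ 1 * Λ ^ 42 * 1 := by ring
        _ ≤ _ := by gcongr; exacts [by norm_num, by linarith, by norm_num]
    calc _ ≤ (n ^ 2 * ν + 3 * n * G ^ 2) * (c * Λ ^ 38 * z * K ^ 3) * z := by
          gcongr
          exact hb.trans (by gcongr)
      _ = (n ^ 2 * ν * z ^ 2 + 3 * n * G ^ 2 * z ^ 2) * (c * Λ ^ 38 * K ^ 3) := by ring
      _ ≤ (Λ ^ 4 * K ^ 2 * ν ^ 2 + 12288 * (Λ ^ 4 * K ^ 2 * ν ^ 2)) * (c * Λ ^ 38 * K ^ 3) := by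
          gcongr
      _ = 12289 * (c * Λ ^ 42 * K ^ 5) * ν ^ 2 := by ring
      _ ≤ _ := by gcongr
  have hX : 0 ≤ c ^ 3 * Λ ^ 92 * P * K ^ 5 := by positivity
  have u4 : (ν * s) ^ 2 ≤ 2 * a ^ 2 + 2 * b ^ 2 := by
    have := pow_le_pow_left₀ (by positivity) hs 2
    nlinarith [sq_nonneg (a - b)]
  refine le_of_mul_le_mul_right ?_ (show 0 < ν ^ 2 by positivity)
  calc s ^ 2 * z * ν ^ 2 = (ν * s) ^ 2 * z := by ring
    _ ≤ (2 * a ^ 2 + 2 * b ^ 2) * z := by gcongr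
    _ = 2 * (a ^ 2 * z) + 2 * (b ^ 2 * z) := by ring
    _ ≤ 41090 * (c ^ 3 * Λ ^ 92 * P * K ^ 5) * ν ^ 2 := by linarith
    _ ≤ 2 ^ 16 * (c ^ 3 * Λ ^ 92 * P * K ^ 5) * ν ^ 2 := by gcongr; norm_num
    _ = _ := by ring

theorem log_bd (hK : 2 ≤ K) (hΛ : 2 ≤ Λ) {δ c x : ℝ} (hδ : 0 < δ) (hc : 3 + 1 / δ ≤ c) (hx : 0 < x)
    (hx' : x ≤ Λ ^ 2 * K) : 1 + Real.log x ≤ c * Λ * K ^ δ := by
  have h1 : Real.log x ≤ 2 * Real.log Λ + Real.log K := by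
    refine (Real.log_le_log hx hx').trans (le_of_eq ?_)
    rw [Real.log_mul (by positivity) (by positivity), Real.log_pow]
    norm_num
  have h2 : Real.log Λ ≤ Λ := (Real.log_le_sub_one_of_pos (by linarith)).trans (by linarith)
  have h3 : Real.log K ≤ K ^ δ / δ := Real.log_le_rpow_div (by linarith) hδ
  have h4 : 1 ≤ K ^ δ := Real.one_le_rpow (by linarith) hδ.le
  have h5 : 0 < 1 / δ := by positivity
  calc _ ≤ 3 * Λ * 1 + 1 / δ * 1 * K ^ δ := by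
        rw [show 1 / δ * 1 * K ^ δ = K ^ δ / δ by ring]; linarith
    _ ≤ 3 * Λ * K ^ δ + 1 / δ * Λ * K ^ δ := by gcongr; linarith
    _ = (3 + 1 / δ) * Λ * K ^ δ := by ring
    _ ≤ _ := by gcongr

theorem big {C κ δ c : ℝ} (hD : Dec C κ) (hC : 0 < C) (hδ : 0 < δ) (hδ1 : δ * 34 ≤ 1)
    (hδ2 : δ * (20 + 8 * C) ≤ κ) (hc : 3 + 1 / δ ≤ c)
    (hd : ∀ n : ℕ, (n.divisors.card : ℝ) ≤ c * (n : ℝ) ^ (δ / 2)) (hK : 2 ≤ K) (hΛ : 2 ≤ Λ)
    (hz : 7 ≤ K ^ δ) {lam : ℝ} (hl : |lam - 1| ≤ 1 / K) {g1 g2 g3 : ℝ → ℂ} (w1 : Wt K Λ g1)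
    (w2 : Wt K Λ g2) (w3 : Wt K Λ g3) {N : ℕ} (hN : Λ * K < N) (hN' : N ≤ Λ ^ 2 * K) :
    ‖∑ v ∈ box N, FF N g1 g2 g3 lam v‖ ^ 2 * K ^ δ ≤
      2 ^ 16 * c ^ 3 * Λ ^ 92 * Λ ^ (49 * C) * K ^ 5 := by
  have hK0 : 0 < K := by linarith
  have hΛ0 : 0 < Λ := by linarith
  have hc1 : 1 ≤ c := by have : 0 < 1 / δ := by positivity
                         linarith
  set z := K ^ δ with hzd
  have hz34 : z ^ 34 ≤ K := by
    rw [hzd, ← Real.rpow_mul_natCast hK0.le]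
    exact (Real.rpow_le_rpow_of_exponent_le (by linarith) (by push_cast; exact hδ1)).trans
      (Real.rpow_one K).le
  have hz8 : (7 : ℝ) ^ 8 ≤ z ^ 8 := by gcongr
  set m := ⌈z ^ 8⌉₊ with hmd
  have hm1 : z ^ 8 ≤ m := Nat.le_ceil _
  have hm2 : (m : ℝ) ≤ 2 * z ^ 8 := by
    have := Nat.ceil_lt_add_one (show 0 ≤ z ^ 8 by positivity)
    linarith
  have hm3 : 41 ^ 4 ≤ m := by
    have : (41 : ℝ) ^ 4 ≤ m := by linarith
    exact_mod_cast this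
  have hm0 : (0 : ℝ) < m := by linarith
  have hmK : (m : ℝ) ≤ K := by
    calc (m : ℝ) ≤ z * z ^ 8 := hm2.trans (by gcongr; linarith)
      _ = z ^ 9 := by ring
      _ ≤ z ^ 34 := pow_le_pow_right₀ (by linarith) (by norm_num)
      _ ≤ K := hz34
  set Y := ⌊Λ * K / m⌋₊ + 1 with hYd
  have hY1 : Λ * K < Y * m := by
    rw [← div_lt_iff₀ hm0, hYd]
    push_cast
    exact Nat.lt_floor_add_one _
  have hY2 : (Y : ℝ) * m ≤ Λ ^ 2 * K := by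
    have e : (⌊Λ * K / m⌋₊ : ℝ) ≤ Λ * K / m := Nat.floor_le (by positivity)
    rw [le_div_iff₀ hm0] at e
    rw [hYd]
    push_cast
    nlinarith [mul_nonneg (sub_nonneg.2 hΛ) (mul_pos hΛ0 hK0).le]
  have hY3 : (1 : ℝ) ≤ Y := by exact_mod_cast (by omega : 1 ≤ Y)
  have hY4 : (Y : ℝ) ≤ Λ ^ 2 * K :=
    (le_mul_of_one_le_right (by linarith) (by linarith)).trans hY2
  have hN1 : (1 : ℝ) ≤ N := by nlinarith
  obtain ⟨b, hb1, hb2⟩ := split_var m N (FF N g1 g2 g3 lam)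
  have hzz : 1 ≤ c * Λ ^ 4 * z :=
    one_le_mul_of_one_le_of_one_le (one_le_mul_of_one_le_of_one_le hc1 (one_le_pow₀ (by linarith)))
      (by linarith)
  have hW := sum_FF_sq hK hΛ hl w1 w2 w3 (N := N) (by exact_mod_cast hN1) hN' (c * Λ ^ 4 * z) hzz
    fun n hn => (hd n).trans (by
      have e1 : (n : ℝ) ≤ Λ ^ 4 * K ^ 2 := by
        calc (n : ℝ) ≤ N ^ 2 := by exact_mod_cast hn
          _ ≤ (Λ ^ 2 * K) ^ 2 := by gcongr
          _ = _ := by ring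
      have e2 : (Λ ^ 4) ^ (δ / 2) ≤ Λ ^ 4 :=
        (Real.rpow_le_rpow_of_exponent_le (one_le_pow₀ (by linarith)) (by linarith)).trans
          (Real.rpow_one _).le
      have e3 : (K ^ 2) ^ (δ / 2) = z := by
        rw [hzd, ← Real.rpow_natCast_mul hK0.le]
        congr 1
        push_cast
        ring
      calc c * (n : ℝ) ^ (δ / 2) ≤ c * (Λ ^ 4 * K ^ 2) ^ (δ / 2) := by gcongr
        _ = c * ((Λ ^ 4) ^ (δ / 2) * z) := by rw [Real.mul_rpow (by positivity) (by positivity), e3]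
        _ ≤ c * (Λ ^ 4 * z) := by gcongr
        _ = _ := by ring)
  have hE : z ^ 20 * ((m * Λ ^ 48) ^ C * K ^ (1 - κ)) ≤ Λ ^ (49 * C) * K := by
    have e1 : (m * Λ ^ 48) ^ C ≤ K ^ (δ * 8 * C) * Λ ^ (49 * C) := by
      have e2 : (m : ℝ) * Λ ^ 48 ≤ z ^ 8 * Λ ^ 49 := by
        calc (m : ℝ) * Λ ^ 48 ≤ Λ * z ^ 8 * Λ ^ 48 := by gcongr; exact hm2.trans (by gcongr)
          _ = _ := by ring
      refine (Real.rpow_le_rpow (by positivity) e2 hC.le).trans (le_of_eq ?_)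
      rw [Real.mul_rpow (by positivity) (by positivity), hzd, ← Real.rpow_mul_natCast hK0.le,
        ← Real.rpow_mul hK0.le, ← Real.rpow_natCast_mul hΛ0.le]
      norm_num
    have e3 : z ^ 20 * K ^ (δ * 8 * C) * K ^ (1 - κ) ≤ K := by
      rw [hzd, ← Real.rpow_mul_natCast hK0.le, ← Real.rpow_add hK0, ← Real.rpow_add hK0]
      exact (Real.rpow_le_rpow_of_exponent_le (by linarith) (by push_cast; linarith)).trans
        (Real.rpow_one K).le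
    calc _ ≤ z ^ 20 * (K ^ (δ * 8 * C) * Λ ^ (49 * C) * K ^ (1 - κ)) := by gcongr
      _ = Λ ^ (49 * C) * (z ^ 20 * K ^ (δ * 8 * C) * K ^ (1 - κ)) := by ring
      _ ≤ _ := by gcongr
  exact numer hΛ hz hz34 hm1 hm2 (nubar_ge m hm3) (Nat.cast_nonneg _) (card_Gam_le_nubar m)
    (by positivity) (Real.one_le_rpow (by linarith) (by positivity)) hE hc1 (Real.log_nonneg hY3)
    (log_bd hK hΛ hδ hc (by linarith) hY4) (Real.log_nonneg hN1)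
    (log_bd hK hΛ hδ hc (by linarith) hN') le_rfl (by linarith) hN'
    (Finset.sum_nonneg fun _ _ => by positivity) hW (norm_nonneg _) hb1
    (main_part hD (by omega) hK hΛ hl w1 w2 w3 hN hN' (by omega) hY1 hY2) hb2

/-- The decorrelation estimate gives the power saving for the critical sum. -/
theorem core (h : H83.DecorrStmt) : BStmt := by
  obtain ⟨C, κ, hC, hκ, hD⟩ := h
  obtain ⟨δ, hδ, hδ1, hδ2⟩ : ∃ δ : ℝ, 0 < δ ∧ δ * 34 ≤ 1 ∧ δ * (20 + 8 * C) ≤ κ := by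
    refine ⟨min (1 / 34) (κ / (20 + 8 * C)), by positivity, ?_, ?_⟩
    · linarith [min_le_left (1 / 34) (κ / (20 + 8 * C))]
    · rw [← le_div_iff₀ (by positivity)]
      exact min_le_right _ _
  obtain ⟨c0, hc0, hd⟩ := divisor_bound (δ / 2) (by positivity)
  have hδ' : 0 < 1 / δ := by positivity
  set c := c0 + 3 + 1 / δ with hc
  obtain ⟨k, hk⟩ := pow_unbounded_of_one_lt (2 ^ 16 * c ^ 3 + 7 * 7 ^ (1 / δ))
    (show (1 : ℝ) < 2 by norm_num)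
  refine ⟨k + 92 + 49 * C, δ / 2, by positivity, fun K Λ lam hK hΛ hl g1 g2 g3 w1 w2 w3 N' hN' => ?_⟩
  have hK0 : 0 < K := by linarith
  have hΛ0 : 0 < Λ := by linarith
  have hN : Λ * K < (⌊Λ * K⌋₊ + 1 : ℕ) := by push_cast; exact Nat.lt_floor_add_one _
  have hN2 : ((⌊Λ * K⌋₊ + 1 : ℕ) : ℝ) ≤ Λ ^ 2 * K := by
    have e : (⌊Λ * K⌋₊ : ℝ) ≤ Λ * K := Nat.floor_le (by positivity)
    push_cast
    nlinarith [mul_nonneg (sub_nonneg.2 hΛ) (mul_pos hΛ0 hK0).le]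
  rw [conv_all hK0 hΛ0 w1.w1.1.w w2.w1.1.w w3.w1.1.w lam hN hN']
  generalize ⌊Λ * K⌋₊ + 1 = N at *
  have hP : 1 ≤ Λ ^ (49 * C) := Real.one_le_rpow (by linarith) (by positivity)
  have hkΛ := cle hΛ k hk.le
  have h7 : (0 : ℝ) < 7 ^ (1 / δ) := by positivity
  have hc3 : 0 < c ^ 3 := by positivity
  have key : ‖∑ v ∈ box N, FF N g1 g2 g3 lam v‖ ^ 2 * K ^ δ ≤
      Λ ^ k * Λ ^ 92 * Λ ^ (49 * C) * K ^ 5 := by
    by_cases hz : 7 ≤ K ^ δ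
    · refine (big hD hC hδ hδ1 hδ2 (c := c) (by linarith) (fun n => (hd n).trans ?_) hK hΛ hz hl
        w1 w2 w3 hN hN2).trans ?_
      · gcongr; linarith
      · gcongr; linarith
    · have e1 : K ≤ 7 ^ (1 / δ) := by
        have := Real.rpow_le_rpow (by positivity) (not_le.1 hz).le hδ'.le
        rwa [← Real.rpow_mul hK0.le, mul_one_div_cancel hδ.ne', Real.rpow_one] at this
      have e2 := triv hΛ0 w1.w1.1.w w2.w1.1.w w3.w1.1.w lam N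
      have e3 : Λ ^ 18 ≤ Λ ^ 92 := ple hΛ (by norm_num)
      calc _ ≤ ((Λ ^ 2 * K * Λ) ^ 3) ^ 2 * 7 := by
            gcongr
            · exact e2.trans (by gcongr)
            · exact (not_le.1 hz).le
        _ = 7 * K * Λ ^ 18 * 1 * K ^ 5 := by ring
        _ ≤ _ := by gcongr; linarith
  have hA : 1 ≤ Λ ^ (k + 92 + 49 * C) := Real.one_le_rpow (by linarith) (by positivity)
  have e4 : Λ ^ k * Λ ^ 92 * Λ ^ (49 * C) = Λ ^ (k + 92 + 49 * C) := by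
    rw [Real.rpow_add hΛ0, Real.rpow_add hΛ0, Real.rpow_natCast, Real.rpow_ofNat]
  have e5 : (K ^ (5 / 2 - δ / 2)) ^ 2 * K ^ δ = K ^ 5 := by
    rw [← Real.rpow_mul_natCast hK0.le, ← Real.rpow_add hK0, ← Real.rpow_ofNat]
    congr 1
    push_cast
    ring
  rw [e4, ← e5, ← mul_assoc] at key
  refine (pow_le_pow_iff_left₀ (norm_nonneg _) (by positivity) two_ne_zero).1 ?_
  refine (le_of_mul_le_mul_right key (by positivity)).trans ?_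
  rw [mul_pow]
  gcongr
  nlinarith

end Pool.Agent.MP_74e98a_nt.H25
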